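import Pool.Agent.T2H69.LRF.Statement

/-!
# A finitely generated algebra which is not residually finite
-/

set_option autoImplicit false

namespace LRF

universe u

open Polynomial

/-- The elements `(b, g, a, z)`, thought of as the matrices with the rows `0, b, z`; `0, a, g`;
`0, 0, 0`. -/
def NA (F : Type u) [Field F] : Type u := (F[X] × F[X] × F[X]) × F

section
variable {F : Type u} [Field F]

noncomputable instance : AddCommGroup (NA F) :=
  inferInstanceAs (AddCommGroup ((F[X] × F[X] × F[X]) × F))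

noncomputable instance : Module F (NA F) :=
  inferInstanceAs (Module F ((F[X] × F[X] × F[X]) × F))

/-- the entries -/
def NA.b (x : NA F) : F[X] := x.1.1
def NA.g (x : NA F) : F[X] := x.1.2.1
def NA.a (x : NA F) : F[X] := x.1.2.2
def NA.z (x : NA F) : F := x.2
def NA.mk (b g a : F[X]) (z : F) : NA F := ((b, g, a), z)

theorem NA.ext {x y : NA F} (h1 : x.b = y.b) (h2 : x.g = y.g) (h3 : x.a = y.a) (h4 : x.z = y.z) :
    x = y := Prod.ext (Prod.ext h1 (Prod.ext h2 h3)) h4

@[simp] theorem NA.mk_b (b g a : F[X]) (z : F) : (NA.mk b g a z).b = b := rfl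
@[simp] theorem NA.mk_g (b g a : F[X]) (z : F) : (NA.mk b g a z).g = g := rfl
@[simp] theorem NA.mk_a (b g a : F[X]) (z : F) : (NA.mk b g a z).a = a := rfl
@[simp] theorem NA.mk_z (b g a : F[X]) (z : F) : (NA.mk b g a z).z = z := rfl
@[simp] theorem NA.add_b (x y : NA F) : (x + y).b = x.b + y.b := rfl
@[simp] theorem NA.add_g (x y : NA F) : (x + y).g = x.g + y.g := rfl
@[simp] theorem NA.add_a (x y : NA F) : (x + y).a = x.a + y.a := rfl
@[simp] theorem NA.add_z (x y : NA F) : (x + y).z = x.z + y.z := rfl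
@[simp] theorem NA.zero_b : (0 : NA F).b = 0 := rfl
@[simp] theorem NA.zero_g : (0 : NA F).g = 0 := rfl
@[simp] theorem NA.zero_a : (0 : NA F).a = 0 := rfl
@[simp] theorem NA.zero_z : (0 : NA F).z = 0 := rfl
@[simp] theorem NA.smul_b (c : F) (x : NA F) : (c • x).b = c • x.b := rfl
@[simp] theorem NA.smul_g (c : F) (x : NA F) : (c • x).g = c • x.g := rfl
@[simp] theorem NA.smul_a (c : F) (x : NA F) : (c • x).a = c • x.a := rfl
@[simp] theorem NA.smul_z (c : F) (x : NA F) : (c • x).z = c • x.z := rfl

open Classical in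
/-- the functional: the sum of the coefficients at the powers of two -/
noncomputable def lam : F[X] →ₗ[F] F :=
  Polynomial.lsum (fun n => if ∃ k : ℕ, n = 2 ^ k then LinearMap.id else 0)

open Classical in
theorem lam_monomial (n : ℕ) (c : F) :
    lam (monomial n c) = if ∃ k : ℕ, n = 2 ^ k then c else 0 := by
  unfold lam
  rw [Polynomial.lsum_apply, Polynomial.sum_monomial_index]
  · split_ifs <;> simp
  · simp

noncomputable instance : Mul (NA F) :=
  ⟨fun x y => NA.mk (x.b * y.a) (x.a * y.g) (x.a * y.a) (lam (x.b * y.g))⟩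

@[simp] theorem NA.mul_b (x y : NA F) : (x * y).b = x.b * y.a := rfl
@[simp] theorem NA.mul_g (x y : NA F) : (x * y).g = x.a * y.g := rfl
@[simp] theorem NA.mul_a (x y : NA F) : (x * y).a = x.a * y.a := rfl
@[simp] theorem NA.mul_z (x y : NA F) : (x * y).z = lam (x.b * y.g) := rfl

noncomputable instance : NonUnitalRing (NA F) :=
  { (inferInstance : AddCommGroup (NA F)), (inferInstance : Mul (NA F)) with
    left_distrib := by
      intro x y z
      apply NA.ext <;> simp [mul_add]
    right_distrib := by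
      intro x y z
      apply NA.ext <;> simp [add_mul]
    zero_mul := by
      intro x
      apply NA.ext <;> simp
    mul_zero := by
      intro x
      apply NA.ext <;> simp
    mul_assoc := by
      intro x y z
      apply NA.ext <;> simp [mul_assoc] }

instance : IsScalarTower F (NA F) (NA F) :=
  ⟨fun c x y => by apply NA.ext <;> simp⟩

instance : SMulCommClass F (NA F) (NA F) :=
  ⟨fun c x y => by apply NA.ext <;> simp⟩

/-- the value of a word with first letter `i`, last letter `j` and the middle value `q` -/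
noncomputable def Tl (x y : NA F) : F[X] →ₗ[F] NA F where
  toFun q := NA.mk (x.b * q * y.a) (x.a * q * y.g) (x.a * q * y.a) (lam (x.b * q * y.g))
  map_add' p q := by apply NA.ext <;> simp [mul_add, add_mul]
  map_smul' c q := by apply NA.ext <;> simp

theorem foldl_ba (v : ℕ → NA F) (l : List ℕ) (x : NA F) :
    (l.foldl (fun s t => s * v t) x).b = x.b * (l.map (fun t => (v t).a)).prod ∧
    (l.foldl (fun s t => s * v t) x).a = x.a * (l.map (fun t => (v t).a)).prod := by
  induction l generalizing x with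
  | nil => simp
  | cons t l ih =>
    obtain ⟨h1, h2⟩ := ih (x * v t)
    rw [List.foldl_cons, List.map_cons, List.prod_cons]
    refine ⟨h1.trans ?_, h2.trans ?_⟩
    · rw [NA.mul_b, mul_assoc]
    · rw [NA.mul_a, mul_assoc]

theorem value_word (v : ℕ → NA F) (w : FreeSemigroup ℕ) (j : ℕ) (hj : w.tail.getLast? = some j) :
    FreeSemigroup.lift v w =
      Tl (v w.head) (v j) ((w.tail.dropLast.map (fun t => (v t).a)).prod) := by
  obtain ⟨i, l⟩ := w
  simp only at hj ⊢
  have hl : l = l.dropLast ++ [j] := (List.dropLast_append_getLast? j hj).symm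
  rw [FreeSemigroup.lift_mk_eq_foldl]
  conv_lhs => rw [hl]
  rw [List.foldl_append, List.foldl_cons, List.foldl_nil]
  obtain ⟨h1, h2⟩ := foldl_ba v l.dropLast (v i)
  apply NA.ext
  · rw [NA.mul_b, h1]; rfl
  · rw [NA.mul_g, h2]; rfl
  · rw [NA.mul_a, h2]; rfl
  · rw [NA.mul_z, h1]; rfl

theorem inVariety (Id : Set (FreeNU F))
    (h : ∀ f ∈ Id, (∀ i, f.coeff (FreeSemigroup.of i) = 0) ∧ ∀ i j, middle i j f = 0) :
    InVariety F Id (NA F) := by
  classical
  intro f hf v
  obtain ⟨h1, h2⟩ := h f hf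
  have hval : value v f = ∑ w ∈ f.coeff.support, f.coeff w • FreeSemigroup.lift v w := rfl
  rw [hval]
  rw [← Finset.sum_fiberwise_of_maps_to (g := fun w : FreeSemigroup ℕ => (w.head, w.tail.getLast?))
    (t := f.coeff.support.image (fun w : FreeSemigroup ℕ => (w.head, w.tail.getLast?)))
    (fun w hw => Finset.mem_image_of_mem _ hw)]
  apply Finset.sum_eq_zero
  rintro ⟨i, oj⟩ -
  cases oj with
  | none =>
    apply Finset.sum_eq_zero
    intro w hw
    rw [Finset.mem_filter] at hw
    simp only [Prod.mk.injEq, List.getLast?_eq_none_iff] at hw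
    obtain ⟨-, hw1, hw2⟩ := hw
    have : w = FreeSemigroup.of i := by
      apply FreeSemigroup.ext
      · exact hw1
      · exact hw2
    rw [this, h1 i, zero_smul]
  | some j =>
    have h3 := congrArg (MvPolynomial.aeval (fun t => (v t).a)) (h2 i j)
    unfold middle at h3
    rw [Finsupp.sum, map_sum, map_zero] at h3
    have h4 : ∑ w ∈ f.coeff.support.filter (fun w : FreeSemigroup ℕ =>
        (w.head, w.tail.getLast?) = (i, some j)),
        f.coeff w • (w.tail.dropLast.map (fun t => (v t).a)).prod = 0 := by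
      rw [Finset.sum_filter]
      refine Eq.trans (Finset.sum_congr rfl (fun w _ => ?_)) h3
      by_cases hw : w.head = i ∧ w.tail.getLast? = some j
      · rw [if_pos hw, if_pos (by rw [hw.1, hw.2]), map_mul, MvPolynomial.aeval_C,
          map_list_prod, List.map_map, Algebra.smul_def]
        congr 3
        funext t
        simp
      · rw [if_neg hw, if_neg (by
          intro h5
          rw [Prod.mk.injEq] at h5
          exact hw h5), map_zero]
    have h5 : ∑ w ∈ f.coeff.support.filter (fun w : FreeSemigroup ℕ =>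
        (w.head, w.tail.getLast?) = (i, some j)), f.coeff w • FreeSemigroup.lift v w =
        Tl (v i) (v j) (∑ w ∈ f.coeff.support.filter (fun w : FreeSemigroup ℕ =>
        (w.head, w.tail.getLast?) = (i, some j)),
        f.coeff w • (w.tail.dropLast.map (fun t => (v t).a)).prod) := by
      rw [map_sum]
      refine Finset.sum_congr rfl (fun w hw => ?_)
      rw [Finset.mem_filter, Prod.mk.injEq] at hw
      rw [value_word v w j hw.2.2, hw.2.1, map_smul]
    exact h5.trans (by rw [h4, map_zero])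

/-- the generators -/
noncomputable def gens : Finset (NA F) := by
  classical
  exact {NA.mk 1 0 0 0, NA.mk 0 1 0 0, NA.mk 0 0 1 0, NA.mk 0 0 X 0}

theorem finGen : FinGen F (NA F) := by
  classical
  refine ⟨gens, ?_⟩
  rw [eq_top_iff]
  set S := NonUnitalAlgebra.adjoin F ((gens : Finset (NA F)) : Set (NA F)) with hS
  have g1 : NA.mk 1 0 0 0 ∈ S := NonUnitalAlgebra.subset_adjoin F (by simp [gens])
  have g2 : NA.mk 0 1 0 0 ∈ S := NonUnitalAlgebra.subset_adjoin F (by simp [gens])
  have g3 : NA.mk 0 0 1 0 ∈ S := NonUnitalAlgebra.subset_adjoin F (by simp [gens])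
  have g4 : NA.mk 0 0 X 0 ∈ S := NonUnitalAlgebra.subset_adjoin F (by simp [gens])
  have ha : ∀ n : ℕ, (NA.mk 0 0 (X ^ n) 0 : NA F) ∈ S := by
    intro n
    induction n with
    | zero => rw [pow_zero]; exact g3
    | succ n ih =>
      have := mul_mem ih g4
      have e : (NA.mk 0 0 (X ^ n) 0 : NA F) * NA.mk 0 0 X 0 = NA.mk 0 0 (X ^ (n + 1)) 0 := by
        apply NA.ext <;> simp [pow_succ]
      rwa [e] at this
  have ha2 : ∀ p : F[X], (NA.mk 0 0 p 0 : NA F) ∈ S := by
    intro p
    induction p using Polynomial.induction_on' with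
    | add p q hp hq =>
      have := add_mem hp hq
      have e : (NA.mk 0 0 p 0 : NA F) + NA.mk 0 0 q 0 = NA.mk 0 0 (p + q) 0 := by
        apply NA.ext <;> simp
      rwa [e] at this
    | monomial n c =>
      have := SMulMemClass.smul_mem c (ha n)
      have e : c • (NA.mk 0 0 (X ^ n) 0 : NA F) = NA.mk 0 0 (monomial n c) 0 := by
        apply NA.ext <;> simp [← Polynomial.C_mul_X_pow_eq_monomial, Polynomial.smul_eq_C_mul]
      rwa [e] at this
  have hb : ∀ p : F[X], (NA.mk p 0 0 0 : NA F) ∈ S := by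
    intro p
    have := mul_mem g1 (ha2 p)
    have e : (NA.mk 1 0 0 0 : NA F) * NA.mk 0 0 p 0 = NA.mk p 0 0 0 := by
      apply NA.ext <;> simp
    rwa [e] at this
  have hg : ∀ p : F[X], (NA.mk 0 p 0 0 : NA F) ∈ S := by
    intro p
    have := mul_mem (ha2 p) g2
    have e : (NA.mk 0 0 p 0 : NA F) * NA.mk 0 1 0 0 = NA.mk 0 p 0 0 := by
      apply NA.ext <;> simp
    rwa [e] at this
  have hz : ∀ c : F, (NA.mk 0 0 0 c : NA F) ∈ S := by
    intro c
    have := SMulMemClass.smul_mem c (mul_mem g1 (hg (monomial 1 1)))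
    have e : c • ((NA.mk 1 0 0 0 : NA F) * NA.mk 0 (monomial 1 1) 0 0) = NA.mk 0 0 0 c := by
      apply NA.ext
      · simp
      · simp
      · simp
      · rw [NA.smul_z, NA.mul_z, NA.mk_b, NA.mk_g, one_mul, lam_monomial,
          if_pos ⟨0, by norm_num⟩, NA.mk_z, smul_eq_mul, mul_one]
    rwa [e] at this
  intro x _
  have h := add_mem (add_mem (hb x.b) (hg x.g)) (add_mem (ha2 x.a) (hz x.z))
  have e : (NA.mk x.b 0 0 0 + NA.mk 0 x.g 0 0) + (NA.mk 0 0 x.a 0 + NA.mk 0 0 0 x.z) = x := by
    apply NA.ext <;> simp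
  rwa [e] at h

theorem not_pow_two {k d : ℕ} (hd : 0 < d) (hdk : d < 2 ^ k) : ¬ ∃ l : ℕ, 2 ^ k + d = 2 ^ l := by
  rintro ⟨l, hl⟩
  have h1 : 2 ^ k < 2 ^ l := by omega
  have h2 : 2 ^ l < 2 ^ (k + 1) := by rw [pow_succ]; omega
  have h3 := (Nat.pow_lt_pow_iff_right (by norm_num : 1 < 2)).1 h1
  have h4 := (Nat.pow_lt_pow_iff_right (by norm_num : 1 < 2)).1 h2
  omega

theorem not_resFinite [Finite F] : ¬ ResFinite F (NA F) := by
  intro h
  obtain ⟨B, iB, iM, i1, i2, φ, hfin, -, hφ⟩ := h (NA.mk 0 0 0 1) (by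
    intro h0
    have := congrArg NA.z h0
    simp at this)
  haveI : Finite B := Module.finite_of_finite F
  obtain ⟨a, b, hab, he⟩ := Finite.exists_ne_map_eq_of_infinite
    (fun n : ℕ => φ (NA.mk 0 0 (X ^ n) 0))
  -- the values of the functional agree
  have key : ∀ i : ℕ, (lam (X ^ (a + i) : F[X]) - lam (X ^ (b + i) : F[X])) •
      φ (NA.mk 0 0 0 1) = 0 := by
    intro i
    have e : ∀ n : ℕ, lam (X ^ (n + i) : F[X]) • φ (NA.mk 0 0 0 1) =
        φ (NA.mk 1 0 0 0) * φ (NA.mk 0 0 (X ^ n) 0) * φ (NA.mk 0 (X ^ i) 0 0) := by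
      intro n
      rw [← map_mul, ← map_mul, ← map_smul]
      congr 1
      apply NA.ext
      · simp
      · simp
      · simp
      · simp [pow_add]
    have h1 := e a
    have h2 := e b
    have he2 : φ (NA.mk 0 0 (X ^ a) 0) = φ (NA.mk 0 0 (X ^ b) 0) := he
    rw [he2] at h1
    rw [sub_smul, h1, h2, sub_self]
  -- a place where they differ
  have main : ∀ a b : ℕ, a < b → ∃ i : ℕ, lam (X ^ (a + i) : F[X]) = 1 ∧
      lam (X ^ (b + i) : F[X]) = 0 := by
    intro a b hab
    have hk : b < 2 ^ b := Nat.lt_two_pow_self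
    refine ⟨2 ^ b - a, ?_, ?_⟩
    · rw [← Polynomial.monomial_one_right_eq_X_pow, lam_monomial, if_pos ⟨b, by omega⟩]
    · rw [← Polynomial.monomial_one_right_eq_X_pow, lam_monomial, if_neg]
      have e : b + (2 ^ b - a) = 2 ^ b + (b - a) := by omega
      rw [e]
      exact not_pow_two (by omega) (by omega)
  rcases lt_or_gt_of_ne hab with h1 | h1
  · obtain ⟨i, h2, h3⟩ := main a b h1
    have h4 := key i
    rw [h2, h3, sub_zero, one_smul] at h4
    exact hφ h4
  · obtain ⟨i, h2, h3⟩ := main b a h1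
    have h4 := key i
    rw [h2, h3, zero_sub, neg_smul, one_smul, neg_eq_zero] at h4
    exact hφ h4

/-- Necessity: if every identity of `Id` has zero linear part and zero middle polynomials, then
the variety contains a finitely generated algebra that is not residually finite. -/
theorem necessity [Finite F] (Id : Set (FreeNU F))
    (h : ∀ f ∈ Id, (∀ i, f.coeff (FreeSemigroup.of i) = 0) ∧ ∀ i j, middle i j f = 0) :
    ∃ (A : Type u) (_ : NonUnitalRing A) (_ : Module F A) (_ : IsScalarTower F A A)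
      (_ : SMulCommClass F A A), InVariety F Id A ∧ FinGen F A ∧ ¬ ResFinite F A :=
  ⟨NA F, inferInstance, inferInstance, inferInstance, inferInstance, inVariety Id h, finGen,
    not_resFinite⟩

end
end LRF
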