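import Pool.Agent.T2H69.LRF.Defs

/-!
# The key relation

From an identity `f` whose middle polynomial `middleL i j f` is nonzero we extract a polynomial
`G(u,t,v)` with `G(0,t,0) ≠ 0` such that `∑ g_{abc} s^a n₁ s^b n₂ s^c` vanishes modulo products
with at least three radical factors.
-/

namespace LRF

open MvPolynomial

universe u

section
variable {F : Type*} [Field F]

/-- The middle polynomial, for words represented as lists. -/
noncomputable def middleL (i j : ℕ) (f : List ℕ →₀ F) : MvPolynomial ℕ F :=
  f.sum fun w c =>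
    match w with
    | [] => 0
    | a :: t => if a = i ∧ t.getLast? = some j then
        MvPolynomial.C c * (t.dropLast.map MvPolynomial.X).prod else 0

variable {E : Type*} [Ring E] [Algebra F E]

/-- `u^a t^b v^c ↦ s^a n₁ s^b n₂ s^c`. -/
noncomputable def Lam (n₁ n₂ s : E) : MvPolynomial (Fin 3) F →ₗ[F] E :=
  (MvPolynomial.basisMonomials (Fin 3) F).constr F
    (fun m => s ^ (m 0) * n₁ * s ^ (m 1) * n₂ * s ^ (m 2))

theorem Lam_monomial (n₁ n₂ s : E) (m : Fin 3 →₀ ℕ) (c : F) :
    Lam n₁ n₂ s (monomial m c) = c • (s ^ (m 0) * n₁ * s ^ (m 1) * n₂ * s ^ (m 2)) := by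
  have h : monomial m c = c • (MvPolynomial.basisMonomials (Fin 3) F m) := by
    simp [MvPolynomial.smul_monomial]
  rw [h, map_smul, Lam, Module.Basis.constr_basis]

theorem Lam_X0 (n₁ n₂ s : E) (p : MvPolynomial (Fin 3) F) :
    Lam n₁ n₂ s (X 0 * p) = s * Lam n₁ n₂ s p := by
  induction p using MvPolynomial.induction_on' with
  | monomial m c =>
    rw [X, monomial_mul, Lam_monomial, Lam_monomial]
    simp [pow_add, mul_assoc]
  | add p q hp hq => rw [mul_add, map_add, hp, hq, map_add, mul_add]

theorem Lam_X2 (n₁ n₂ s : E) (p : MvPolynomial (Fin 3) F) :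
    Lam n₁ n₂ s (X 2 * p) = Lam n₁ n₂ s p * s := by
  induction p using MvPolynomial.induction_on' with
  | monomial m c =>
    rw [X, monomial_mul, Lam_monomial, Lam_monomial]
    simp [add_comm 1, pow_add, mul_assoc]
  | add p q hp hq => rw [mul_add, map_add, hp, hq, map_add, add_mul]

theorem Lam_X1 (n₁ n₂ s : E) (p : MvPolynomial (Fin 3) F) :
    Lam n₁ n₂ s (X 1 * p) = Lam (n₁ * s) n₂ s p := by
  induction p using MvPolynomial.induction_on' with
  | monomial m c =>
    rw [X, monomial_mul, Lam_monomial, Lam_monomial]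
    simp [pow_add, mul_assoc]
  | add p q hp hq => rw [mul_add, map_add, hp, hq, map_add]

theorem Lam_add_left (n₁ n₁' n₂ s : E) (p : MvPolynomial (Fin 3) F) :
    Lam (n₁ + n₁') n₂ s p = Lam n₁ n₂ s p + Lam n₁' n₂ s p := by
  induction p using MvPolynomial.induction_on' with
  | monomial m c =>
    simp only [Lam_monomial, mul_add, add_mul, smul_add]
  | add p q hp hq => simp only [map_add, hp, hq]; abel

theorem Lam_smul_left (c : F) (n₁ n₂ s : E) (p : MvPolynomial (Fin 3) F) :
    Lam (c • n₁) n₂ s p = c • Lam n₁ n₂ s p := by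
  induction p using MvPolynomial.induction_on' with
  | monomial m a =>
    simp only [Lam_monomial, mul_smul_comm, smul_mul_assoc, smul_comm c a]
  | add p q hp hq => simp only [map_add, hp, hq, smul_add]

theorem Lam_poly0 (n₁ n₂ s : E) (q : Polynomial F) (p : MvPolynomial (Fin 3) F) :
    Lam n₁ n₂ s (Polynomial.aeval (X 0) q * p) = Polynomial.aeval s q * Lam n₁ n₂ s p := by
  induction q using Polynomial.induction_on' generalizing p with
  | add q r hq hr => rw [map_add, map_add, add_mul, map_add, hq, hr, add_mul]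
  | monomial n c =>
    rw [← Polynomial.C_mul_X_pow_eq_monomial]
    simp only [map_mul, map_pow, Polynomial.aeval_X, Polynomial.aeval_C]
    induction n generalizing p with
    | zero => simp [← Algebra.smul_def, MvPolynomial.C_mul']
    | succ n ih =>
      rw [pow_succ, ← mul_assoc, mul_assoc, ih, Lam_X0, pow_succ]; simp only [mul_assoc]

theorem Lam_poly2 (n₁ n₂ s : E) (q : Polynomial F) (p : MvPolynomial (Fin 3) F) :
    Lam n₁ n₂ s (Polynomial.aeval (X 2) q * p) = Lam n₁ n₂ s p * Polynomial.aeval s q := by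
  induction q using Polynomial.induction_on' generalizing p with
  | add q r hq hr => rw [map_add, map_add, add_mul, map_add, hq, hr, mul_add]
  | monomial n c =>
    rw [← Polynomial.C_mul_X_pow_eq_monomial]
    simp only [map_mul, map_pow, Polynomial.aeval_X, Polynomial.aeval_C]
    induction n generalizing p with
    | zero => simp [← Algebra.smul_def, ← Algebra.commutes, MvPolynomial.C_mul']
    | succ n ih =>
      rw [pow_succ, ← mul_assoc, mul_assoc, ih, Lam_X2, pow_succ']
      rw [mul_assoc, ← mul_assoc s, ← Algebra.commutes c s]; simp only [mul_assoc]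

theorem Lam_poly1 (n₁ n₂ s : E) (q : Polynomial F) (p : MvPolynomial (Fin 3) F) :
    Lam n₁ n₂ s (Polynomial.aeval (X 1) q * p) = Lam (n₁ * Polynomial.aeval s q) n₂ s p := by
  induction q using Polynomial.induction_on' generalizing n₁ p with
  | add q r hq hr => rw [map_add, map_add, add_mul, map_add, hq, hr, mul_add, Lam_add_left]
  | monomial n c =>
    rw [← Polynomial.C_mul_X_pow_eq_monomial]
    simp only [map_mul, map_pow, Polynomial.aeval_X, Polynomial.aeval_C]
    induction n generalizing n₁ p with
    | zero => simp [← Algebra.smul_def, ← Algebra.commutes, Lam_smul_left, MvPolynomial.C_mul']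
    | succ n ih =>
      rw [pow_succ, ← mul_assoc, mul_assoc, ih, Lam_X1]
      congr 1; simp only [mul_assoc, pow_succ]

/-! ### Word recursions -/

/-- First order part at the letter `i`. -/
noncomputable def D1 (i : ℕ) (v : ℕ → E) (n : E) : List ℕ → E
  | [] => 0
  | l :: w => v l * D1 i v n w + if l = i then n * (w.map v).prod else 0

/-- The part `x_i ↦ n₁` to the left of `x_j ↦ n₂`. -/
noncomputable def DA (i j : ℕ) (v : ℕ → E) (n₁ n₂ : E) : List ℕ → E
  | [] => 0
  | l :: w => v l * DA i j v n₁ n₂ w + if l = i then n₁ * D1 j v n₂ w else 0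

/-- polynomial version of `D1` in the variables `t, v`. -/
noncomputable def P1 (j : ℕ) (τ : ℕ → Polynomial F) : List ℕ → MvPolynomial (Fin 3) F
  | [] => 0
  | l :: w => Polynomial.aeval (X 1) (τ l) * P1 j τ w +
      if l = j then (w.map (fun k => Polynomial.aeval (X 2 : MvPolynomial (Fin 3) F) (τ k))).prod
      else 0

/-- polynomial version of `DA`. -/
noncomputable def PA (i j : ℕ) (τ : ℕ → Polynomial F) : List ℕ → MvPolynomial (Fin 3) F
  | [] => 0
  | l :: w => Polynomial.aeval (X 0) (τ l) * PA i j τ w + if l = i then P1 j τ w else 0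

theorem Lam_one (n₁ n₂ s : E) : Lam n₁ n₂ s (1 : MvPolynomial (Fin 3) F) = n₁ * n₂ := by
  have h : (1 : MvPolynomial (Fin 3) F) = monomial 0 1 := by simp
  rw [h, Lam_monomial]; simp

theorem Lam_word2 (τ : ℕ → Polynomial F) (n₁ n₂ s : E) (w : List ℕ) :
    Lam n₁ n₂ s ((w.map (fun k => Polynomial.aeval (X 2 : MvPolynomial (Fin 3) F) (τ k))).prod)
      = n₁ * n₂ * (w.map (fun k => Polynomial.aeval s (τ k))).prod := by
  induction w with
  | nil => simp [Lam_one]
  | cons l w ih =>
    rw [List.map_cons, List.prod_cons, Lam_poly2, ih, List.map_cons, List.prod_cons, mul_assoc]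
    congr 1
    have hc : ∀ (u : List ℕ), Commute (Polynomial.aeval s (τ l))
        ((u.map (fun k => Polynomial.aeval s (τ k))).prod) := by
      intro u
      induction u with
      | nil => simp
      | cons a u ih =>
        rw [List.map_cons, List.prod_cons]
        refine Commute.mul_right ?_ ih
        unfold Commute SemiconjBy
        rw [← map_mul, ← map_mul, mul_comm]
    exact (hc w).eq.symm

theorem Lam_P1 (j : ℕ) (τ : ℕ → Polynomial F) (n₁ n₂ s : E) (w : List ℕ) :
    Lam n₁ n₂ s (P1 j τ w) = n₁ * D1 j (fun k => Polynomial.aeval s (τ k)) n₂ w := by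
  induction w generalizing n₁ with
  | nil => simp [P1, D1]
  | cons l w ih =>
    rw [P1, D1, map_add, Lam_poly1, ih, mul_add, mul_assoc]
    congr 1
    split_ifs with h
    · rw [Lam_word2, mul_assoc]
    · simp

theorem Lam_PA (i j : ℕ) (τ : ℕ → Polynomial F) (n₁ n₂ s : E) (w : List ℕ) :
    Lam n₁ n₂ s (PA i j τ w) = DA i j (fun k => Polynomial.aeval s (τ k)) n₁ n₂ w := by
  induction w with
  | nil => simp [PA, DA]
  | cons l w ih =>
    rw [PA, DA, map_add, Lam_poly0, ih]
    congr 1
    split_ifs with h
    · rw [Lam_P1]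
    · simp

/-! ### Congruences -/

section cong

variable {i j : ℕ} {v : ℕ → E} {n₁ n₂ : E} {N1 N2 W : Ideal E}
  [N1.IsTwoSided] [N2.IsTwoSided] [W.IsTwoSided]

/-- the perturbed substitution -/
def pert (v : ℕ → E) (i j : ℕ) (a b : E) : ℕ → E :=
  fun l => v l + (if l = i then a else 0) + (if l = j then b else 0)

theorem pert_sub_mem (h1 : n₁ ∈ N1) (h2 : n₂ ∈ N1) (w : List ℕ) :
    (w.map (pert v i j n₁ n₂)).prod - (w.map v).prod ∈ N1 := by
  induction w with
  | nil => simp
  | cons l w ih =>
    simp only [List.map_cons, List.prod_cons]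
    have : pert v i j n₁ n₂ l * (w.map (pert v i j n₁ n₂)).prod - v l * (w.map v).prod
        = v l * ((w.map (pert v i j n₁ n₂)).prod - (w.map v).prod)
          + (if l = i then n₁ else 0) * (w.map (pert v i j n₁ n₂)).prod
          + (if l = j then n₂ else 0) * (w.map (pert v i j n₁ n₂)).prod := by
      unfold pert; noncomm_ring
    rw [this]
    refine add_mem (add_mem (N1.mul_mem_left _ ih) ?_) ?_
    · split_ifs
      · exact N1.mul_mem_right _ h1
      · simp
    · split_ifs
      · exact N1.mul_mem_right _ h2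
      · simp

theorem pert_sub_mem1 (h2 : n₂ ∈ N2) (w : List ℕ) :
    (w.map (pert v i j n₁ n₂)).prod - (w.map (pert v i j n₁ 0)).prod ∈ N2 := by
  induction w with
  | nil => simp
  | cons l w ih =>
    simp only [List.map_cons, List.prod_cons]
    have : pert v i j n₁ n₂ l * (w.map (pert v i j n₁ n₂)).prod
          - pert v i j n₁ 0 l * (w.map (pert v i j n₁ 0)).prod
        = pert v i j n₁ 0 l * ((w.map (pert v i j n₁ n₂)).prod - (w.map (pert v i j n₁ 0)).prod)
          + (if l = j then n₂ else 0) * (w.map (pert v i j n₁ n₂)).prod := by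
      unfold pert; simp only [ite_self, add_zero]; noncomm_ring
    rw [this]
    refine add_mem (N2.mul_mem_left _ ih) ?_
    split_ifs
    · exact N2.mul_mem_right _ h2
    · simp

theorem pert_sub_mem2 (h1 : n₁ ∈ N1) (w : List ℕ) :
    (w.map (pert v i j n₁ n₂)).prod - (w.map (pert v i j 0 n₂)).prod ∈ N1 := by
  induction w with
  | nil => simp
  | cons l w ih =>
    simp only [List.map_cons, List.prod_cons]
    have : pert v i j n₁ n₂ l * (w.map (pert v i j n₁ n₂)).prod
          - pert v i j 0 n₂ l * (w.map (pert v i j 0 n₂)).prod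
        = pert v i j 0 n₂ l * ((w.map (pert v i j n₁ n₂)).prod - (w.map (pert v i j 0 n₂)).prod)
          + (if l = i then n₁ else 0) * (w.map (pert v i j n₁ n₂)).prod := by
      unfold pert; simp only [ite_self, add_zero]; noncomm_ring
    rw [this]
    refine add_mem (N1.mul_mem_left _ ih) ?_
    split_ifs
    · exact N1.mul_mem_right _ h1
    · simp

/-- `W` absorbs products of three factors. -/
def Absorbs (N1 N2 W : Ideal E) : Prop :=
  ∀ a ∈ N1, ∀ b ∈ N1, ∀ c ∈ N2, a * b * c ∈ W ∧ a * c * b ∈ W ∧ c * a * b ∈ W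

omit [W.IsTwoSided] in
theorem condA (hW : Absorbs N1 N2 W) (h21 : N2 ≤ N1) (h1 : n₁ ∈ N1) (h2 : n₂ ∈ N2) (w : List ℕ) :
    ∀ a ∈ N1, a * ((w.map (pert v i j n₁ n₂)).prod - (w.map (pert v i j n₁ 0)).prod
      - D1 j v n₂ w) ∈ W := by
  induction w with
  | nil => intro a _; simp [D1]
  | cons l w ih =>
    intro a ha
    simp only [List.map_cons, List.prod_cons, D1]
    have : a * (pert v i j n₁ n₂ l * (w.map (pert v i j n₁ n₂)).prod
          - pert v i j n₁ 0 l * (w.map (pert v i j n₁ 0)).prod
          - (v l * D1 j v n₂ w + if l = j then n₂ * (w.map v).prod else 0))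
        = (a * v l) * ((w.map (pert v i j n₁ n₂)).prod - (w.map (pert v i j n₁ 0)).prod
            - D1 j v n₂ w)
          + (if l = i then a * n₁ * ((w.map (pert v i j n₁ n₂)).prod
              - (w.map (pert v i j n₁ 0)).prod) else 0)
          + (if l = j then a * n₂ * ((w.map (pert v i j n₁ n₂)).prod
              - (w.map v).prod) else 0) := by
      unfold pert; split_ifs <;> noncomm_ring
    rw [this]
    refine add_mem (add_mem (ih _ (N1.mul_mem_right _ ha)) ?_) ?_
    · split_ifs
      · exact (hW a ha n₁ h1 _ (pert_sub_mem1 h2 w)).1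
      · simp
    · split_ifs
      · exact (hW a ha _ (pert_sub_mem h1 (h21 h2) w) n₂ h2).2.1
      · simp

omit [W.IsTwoSided] in
theorem condB (hW : Absorbs N1 N2 W) (h21 : N2 ≤ N1) (h1 : n₁ ∈ N1) (h2 : n₂ ∈ N2) (w : List ℕ) :
    ∀ c ∈ N2, c * ((w.map (pert v i j n₁ n₂)).prod - (w.map (pert v i j 0 n₂)).prod
      - D1 i v n₁ w) ∈ W := by
  induction w with
  | nil => intro a _; simp [D1]
  | cons l w ih =>
    intro c hc
    simp only [List.map_cons, List.prod_cons, D1]
    have : c * (pert v i j n₁ n₂ l * (w.map (pert v i j n₁ n₂)).prod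
          - pert v i j 0 n₂ l * (w.map (pert v i j 0 n₂)).prod
          - (v l * D1 i v n₁ w + if l = i then n₁ * (w.map v).prod else 0))
        = (c * v l) * ((w.map (pert v i j n₁ n₂)).prod - (w.map (pert v i j 0 n₂)).prod
            - D1 i v n₁ w)
          + (if l = i then c * n₁ * ((w.map (pert v i j n₁ n₂)).prod
              - (w.map v).prod) else 0)
          + (if l = j then c * n₂ * ((w.map (pert v i j n₁ n₂)).prod
              - (w.map (pert v i j 0 n₂)).prod) else 0) := by
      unfold pert; split_ifs <;> noncomm_ring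
    rw [this]
    refine add_mem (add_mem (ih _ (N2.mul_mem_right _ hc)) ?_) ?_
    · split_ifs
      · exact (hW n₁ h1 _ (pert_sub_mem h1 (h21 h2) w) c hc).2.2
      · simp
    · split_ifs
      · exact (hW n₂ (h21 h2) _ (pert_sub_mem2 h1 w) c hc).2.2
      · simp

omit [W.IsTwoSided] in
theorem second_diff (hW : Absorbs N1 N2 W) (h21 : N2 ≤ N1) (h1 : n₁ ∈ N1) (h2 : n₂ ∈ N2)
    (w : List ℕ) :
    (w.map (pert v i j n₁ n₂)).prod - (w.map (pert v i j n₁ 0)).prod
      - (w.map (pert v i j 0 n₂)).prod + (w.map (pert v i j 0 0)).prod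
      - DA i j v n₁ n₂ w - DA j i v n₂ n₁ w ∈ W := by
  induction w with
  | nil => simp [DA]
  | cons l w ih =>
    simp only [List.map_cons, List.prod_cons, DA]
    have h00 : pert v i j 0 0 = v := by funext k; simp [pert]
    rw [h00] at ih ⊢
    have : pert v i j n₁ n₂ l * (w.map (pert v i j n₁ n₂)).prod
          - pert v i j n₁ 0 l * (w.map (pert v i j n₁ 0)).prod
          - pert v i j 0 n₂ l * (w.map (pert v i j 0 n₂)).prod
          + v l * (w.map v).prod
          - (v l * DA i j v n₁ n₂ w + if l = i then n₁ * D1 j v n₂ w else 0)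
          - (v l * DA j i v n₂ n₁ w + if l = j then n₂ * D1 i v n₁ w else 0)
        = v l * ((w.map (pert v i j n₁ n₂)).prod - (w.map (pert v i j n₁ 0)).prod
            - (w.map (pert v i j 0 n₂)).prod + (w.map v).prod
            - DA i j v n₁ n₂ w - DA j i v n₂ n₁ w)
          + (if l = i then n₁ * ((w.map (pert v i j n₁ n₂)).prod
              - (w.map (pert v i j n₁ 0)).prod - D1 j v n₂ w) else 0)
          + (if l = j then n₂ * ((w.map (pert v i j n₁ n₂)).prod
              - (w.map (pert v i j 0 n₂)).prod - D1 i v n₁ w) else 0) := by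
      unfold pert; split_ifs <;> noncomm_ring
    rw [this]
    refine add_mem (add_mem (W.mul_mem_left _ ih) ?_) ?_
    · split_ifs
      · exact condA hW h21 h1 h2 w n₁ h1
      · simp
    · split_ifs
      · exact condB hW h21 h1 h2 w n₂ h2
      · simp

end cong

/-! ### The relation -/

theorem D1_mul_right (i : ℕ) (τ : ℕ → Polynomial F) (n s : E) (w : List ℕ) :
    D1 i (fun k => Polynomial.aeval s (τ k)) (n * s) w
      = D1 i (fun k => Polynomial.aeval s (τ k)) n w * s := by
  induction w with
  | nil => simp [D1]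
  | cons l w ih =>
    rw [D1, D1, ih, add_mul]
    refine congrArg₂ (· + ·) (mul_assoc _ _ _).symm ?_
    split_ifs with h
    · rw [mul_assoc, mul_assoc]
      congr 1
      clear ih
      induction w with
      | nil => simp
      | cons a w ih =>
        rw [List.map_cons, List.prod_cons, ← mul_assoc, mul_assoc _ _ s, ← ih, ← mul_assoc]
        congr 1
        have := (Polynomial.aeval s (τ a) : E)
        calc s * Polynomial.aeval s (τ a)
            = Polynomial.aeval s (Polynomial.X * τ a) := by simp
          _ = Polynomial.aeval s (τ a * Polynomial.X) := by rw [mul_comm]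
          _ = _ := by simp
    · simp

theorem DA_mul_right (i j : ℕ) (τ : ℕ → Polynomial F) (n₁ n₂ s : E) (w : List ℕ) :
    DA j i (fun k => Polynomial.aeval s (τ k)) n₂ (n₁ * s) w
      = DA j i (fun k => Polynomial.aeval s (τ k)) n₂ n₁ w * s := by
  induction w with
  | nil => simp [DA]
  | cons l w ih =>
    rw [DA, DA, ih, add_mul, D1_mul_right]
    refine congrArg₂ (· + ·) (mul_assoc _ _ _).symm ?_
    split_ifs with h
    · rw [mul_assoc]
    · simp

/-- the substitution `u = v = 0` -/
noncomputable def phi0 : MvPolynomial (Fin 3) F →ₐ[F] Polynomial F :=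
  MvPolynomial.aeval (![0, Polynomial.X, 0] : Fin 3 → Polynomial F)

theorem phi0_aeval (k : Fin 3) (q : Polynomial F) :
    phi0 (Polynomial.aeval (X k : MvPolynomial (Fin 3) F) q)
      = Polynomial.aeval ((![0, Polynomial.X, 0] : Fin 3 → Polynomial F) k) q := by
  rw [← Polynomial.aeval_algHom_apply]
  congr 1
  simp [phi0]

theorem phi0_P1 (j : ℕ) (τ : ℕ → Polynomial F) (hτ : ∀ l, (τ l).coeff 0 = 0) (w : List ℕ) :
    phi0 (P1 j τ w) = if w.getLast? = some j then (w.dropLast.map τ).prod else 0 := by
  induction w with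
  | nil => simp [P1]
  | cons l w ih =>
    rw [P1, map_add, map_mul, ih, phi0_aeval]
    cases w with
    | nil =>
      simp only [List.getLast?_nil, reduceCtorEq, if_false, mul_zero, zero_add, List.map_nil,
        List.prod_nil]
      simp only [List.getLast?_singleton, Option.some.injEq]
      split_ifs <;> simp
    | cons a w =>
      have h0 : phi0 (((a :: w).map
          (fun k => Polynomial.aeval (X 2 : MvPolynomial (Fin 3) F) (τ k))).prod) = 0 := by
        rw [List.map_cons, List.prod_cons, map_mul, phi0_aeval]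
        have : Polynomial.aeval ((![0, Polynomial.X, 0] : Fin 3 → Polynomial F) 2) (τ a) = 0 := by
          simp [Polynomial.aeval_def, Polynomial.eval₂_at_zero, hτ a]
        rw [this, zero_mul]
      have h1 : phi0 (if l = j then ((a :: w).map
          (fun k => Polynomial.aeval (X 2 : MvPolynomial (Fin 3) F) (τ k))).prod else 0) = 0 := by
        split_ifs
        · exact h0
        · simp
      rw [h1, add_zero]
      have h2 : (l :: a :: w).getLast? = (a :: w).getLast? := by simp [List.getLast?_cons_cons]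
      rw [h2]
      split_ifs
      · simp [List.dropLast]
      · simp

theorem phi0_PA (i j : ℕ) (τ : ℕ → Polynomial F) (hτ : ∀ l, (τ l).coeff 0 = 0) (w : List ℕ) :
    phi0 (PA i j τ w) = match w with
      | [] => 0
      | a :: t => if a = i ∧ t.getLast? = some j then (t.dropLast.map τ).prod else 0 := by
  cases w with
  | nil => simp [PA]
  | cons l w =>
    rw [PA, map_add, map_mul, phi0_aeval]
    have : Polynomial.aeval ((![0, Polynomial.X, 0] : Fin 3 → Polynomial F) 0) (τ l) = 0 := by
      simp [Polynomial.aeval_def, Polynomial.eval₂_at_zero, hτ l]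
    rw [this, zero_mul, zero_add]
    by_cases h : l = i
    · simp only [h, if_true, true_and]
      exact phi0_P1 j τ hτ w
    · simp [h]

theorem phi0_zero_of_coeff (G : MvPolynomial (Fin 3) F)
    (h : ∀ n, G.coeff (Finsupp.single 1 n) = 0) : phi0 G = 0 := by
  rw [phi0, MvPolynomial.aeval_def, MvPolynomial.eval₂_eq']
  refine Finset.sum_eq_zero fun m hm => ?_
  simp only [Fin.prod_univ_three]
  by_cases h0 : m 0 = 0
  · by_cases h2 : m 2 = 0
    · have : m = Finsupp.single 1 (m 1) := by
        ext k; fin_cases k <;> simp [h0, h2]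
      rw [MvPolynomial.mem_support_iff] at hm
      rw [this] at hm
      exact absurd (h _) hm
    · simp [h2]
  · simp [h0]

theorem exists_tau (h : MvPolynomial ℕ F) (hh : h ≠ 0) :
    ∃ τ : ℕ → Polynomial F, (∀ l, (τ l).coeff 0 = 0) ∧ MvPolynomial.aeval τ h ≠ 0 := by
  by_contra hcon
  push Not at hcon
  apply hh
  have hinj : Function.Injective (MvPolynomial.map (σ := ℕ) (Polynomial.C : F →+* Polynomial F)) :=
    MvPolynomial.map_injective _ Polynomial.C_injective
  apply hinj
  rw [map_zero]
  refine MvPolynomial.funext_set (fun _ : ℕ => {q : Polynomial F | q.coeff 0 = 0})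
    (fun _ => ?_) fun x hx => ?_
  · refine Set.infinite_of_injective_forall_mem (f := fun n : ℕ =>
      (Polynomial.X ^ (n + 1) : Polynomial F)) ?_ ?_
    · intro a b hab
      have := congrArg Polynomial.natDegree hab
      simpa using this
    · intro n
      simp [Polynomial.coeff_X_pow]
  · rw [MvPolynomial.eval_map, map_zero]
    exact hcon x fun l => hx l (Set.mem_univ _)

theorem key_relation' (f : List ℕ →₀ F) (i j : ℕ) (hmid : middleL i j f ≠ 0) :
    ∃ G : MvPolynomial (Fin 3) F, (∃ n, G.coeff (Finsupp.single 1 n) ≠ 0) ∧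
      ∀ (E : Type u) [Ring E] [Algebra F E] (A N1 N2 W : Ideal E) [A.IsTwoSided] [N1.IsTwoSided]
        [N2.IsTwoSided] [W.IsTwoSided], HoldsOn f (A : Set E) → N1 ≤ A → N2 ≤ N1 →
        Absorbs N1 N2 W → ∀ n₁ n₂, ((n₁ ∈ N1 ∧ n₂ ∈ N2) ∨ (n₁ ∈ N2 ∧ n₂ ∈ N1)) →
          ∀ s ∈ A, Lam n₁ n₂ s G ∈ W := by
  obtain ⟨τ, hτ0, hτ⟩ := exists_tau _ hmid
  set H : MvPolynomial (Fin 3) F := f.sum fun w c => c • PA i j τ w with hH
  refine ⟨(X 2 - X 1) * H, ?_, ?_⟩
  · by_contra hcon
    push Not at hcon
    have h0 := phi0_zero_of_coeff _ hcon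
    rw [map_mul] at h0
    have h1 : phi0 H = MvPolynomial.aeval τ (middleL i j f) := by
      rw [hH, middleL, Finsupp.sum, Finsupp.sum, map_sum, map_sum]
      refine Finset.sum_congr rfl fun w _ => ?_
      rw [map_smul, phi0_PA i j τ hτ0]
      cases w with
      | nil => simp
      | cons a t =>
        simp only
        split_ifs with h
        · rw [map_mul, MvPolynomial.aeval_C, map_list_prod, List.map_map, Algebra.smul_def]
          congr 3
          funext k
          simp
        · simp
    have h2 : phi0 (X 2 - X 1 : MvPolynomial (Fin 3) F) = - Polynomial.X := by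
      simp [phi0]
    rw [h1, h2] at h0
    rcases mul_eq_zero.mp h0 with h3 | h3
    · exact Polynomial.X_ne_zero (neg_eq_zero.mp h3)
    · exact hτ h3
  · intro E _ _ A N1 N2 W _ _ _ _ hf hN1 h21 hW n₁ n₂ h12 s hs
    set v : ℕ → E := fun k => Polynomial.aeval s (τ k) with hv
    have hvA : ∀ l, v l ∈ A := by
      intro l
      obtain ⟨q, hq⟩ := Polynomial.X_dvd_iff.mpr (hτ0 l)
      simp only [hv]
      rw [hq, map_mul, Polynomial.aeval_X]
      exact A.mul_mem_right _ hs
    have hpert : ∀ a ∈ A, ∀ b ∈ A, evalW f (pert v i j a b) = 0 := by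
      intro a ha b hb
      apply hf
      intro l
      unfold pert
      refine add_mem (add_mem (hvA l) ?_) ?_
      · split_ifs
        · exact ha
        · exact A.zero_mem
      · split_ifs
        · exact hb
        · exact A.zero_mem
    have hn2 : n₂ ∈ N1 := by
      rcases h12 with h | h
      · exact h21 h.2
      · exact h.2
    have key : ∀ m, ((m ∈ N1 ∧ n₂ ∈ N2) ∨ (m ∈ N2 ∧ n₂ ∈ N1)) → Lam m n₂ s H
        + f.sum (fun w c => c • DA j i v n₂ m w) ∈ W := by
      intro m hm
      have hmN : m ∈ N1 := by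
        rcases hm with h | h
        · exact h.1
        · exact h21 h.1
      have e1 : Lam m n₂ s H = f.sum (fun w c => c • DA i j v m n₂ w) := by
        rw [hH, Finsupp.sum, map_sum, Finsupp.sum]
        refine Finset.sum_congr rfl fun w _ => ?_
        rw [map_smul, Lam_PA]
      have e2 : f.sum (fun w c => c • ((w.map (pert v i j m n₂)).prod
          - (w.map (pert v i j m 0)).prod
          - (w.map (pert v i j 0 n₂)).prod + (w.map (pert v i j 0 0)).prod
          - DA i j v m n₂ w - DA j i v n₂ m w)) ∈ W := by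
        rw [Finsupp.sum]
        refine sum_mem fun w _ => ?_
        rw [Algebra.smul_def]
        refine W.mul_mem_left _ ?_
        rcases hm with h | h
        · exact second_diff hW h21 h.1 h.2 w
        · have e0 : ∀ a b, pert v i j a b = pert v j i b a := by
            intro a b; funext l; unfold pert; abel
          have := second_diff (i := j) (j := i) (v := v) hW h21 h.2 h.1 w
          rw [e0 m n₂, e0 m 0, e0 0 n₂, e0 0 0]
          have e1 : (w.map (pert v j i n₂ m)).prod - (w.map (pert v j i 0 m)).prod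
              - (w.map (pert v j i n₂ 0)).prod + (w.map (pert v j i 0 0)).prod
              - DA i j v m n₂ w - DA j i v n₂ m w
              = (w.map (pert v j i n₂ m)).prod - (w.map (pert v j i n₂ 0)).prod
              - (w.map (pert v j i 0 m)).prod + (w.map (pert v j i 0 0)).prod
              - DA j i v n₂ m w - DA i j v m n₂ w := by abel
          rw [e1]
          exact this
      have e3 : f.sum (fun w c => c • ((w.map (pert v i j m n₂)).prod
          - (w.map (pert v i j m 0)).prod
          - (w.map (pert v i j 0 n₂)).prod + (w.map (pert v i j 0 0)).prod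
          - DA i j v m n₂ w - DA j i v n₂ m w))
          = - (Lam m n₂ s H + f.sum (fun w c => c • DA j i v n₂ m w)) := by
        rw [e1]
        have a1 := hpert m (hN1 hmN) n₂ (hN1 hn2)
        have a2 := hpert m (hN1 hmN) 0 A.zero_mem
        have a3 := hpert 0 A.zero_mem n₂ (hN1 hn2)
        have a4 := hpert 0 A.zero_mem 0 A.zero_mem
        unfold evalW at a1 a2 a3 a4
        simp only [Finsupp.sum, smul_sub, smul_add, Finset.sum_sub_distrib,
          Finset.sum_add_distrib] at a1 a2 a3 a4 ⊢
        rw [a1, a2, a3, a4]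
        abel
      rw [e3] at e2
      simpa using (neg_mem_iff (H := W)).mp e2
    have hG : Lam n₁ n₂ s ((X 2 - X 1) * H)
        = (Lam n₁ n₂ s H + f.sum (fun w c => c • DA j i v n₂ n₁ w)) * s
          - (Lam (n₁ * s) n₂ s H + f.sum (fun w c => c • DA j i v n₂ (n₁ * s) w)) := by
      have : f.sum (fun w c => c • DA j i v n₂ (n₁ * s) w)
          = f.sum (fun w c => c • DA j i v n₂ n₁ w) * s := by
        rw [Finsupp.sum, Finsupp.sum, Finset.sum_mul]
        refine Finset.sum_congr rfl fun w _ => ?_
        rw [DA_mul_right, smul_mul_assoc]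
      rw [this, sub_mul, map_sub, Lam_X2, Lam_X1]
      noncomm_ring
    rw [hG]
    refine sub_mem (W.mul_mem_right _ (key n₁ h12)) (key _ ?_)
    rcases h12 with h | h
    · exact Or.inl ⟨N1.mul_mem_right _ h.1, h.2⟩
    · exact Or.inr ⟨N2.mul_mem_right _ h.1, h.2⟩

theorem key_relation (f : List ℕ →₀ F) (i j : ℕ) (hmid : middleL i j f ≠ 0) :
    ∃ G : MvPolynomial (Fin 3) F, (∃ n, G.coeff (Finsupp.single 1 n) ≠ 0) ∧
      ∀ (E : Type u) [Ring E] [Algebra F E] (A N1 N2 W : Ideal E) [A.IsTwoSided] [N1.IsTwoSided]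
        [N2.IsTwoSided] [W.IsTwoSided], HoldsOn f (A : Set E) → N1 ≤ A → N2 ≤ N1 →
        Absorbs N1 N2 W → ∀ n₁ ∈ N1, ∀ n₂ ∈ N2, ∀ s ∈ A, Lam n₁ n₂ s G ∈ W := by
  obtain ⟨G, hG, h⟩ := key_relation' f i j hmid
  exact ⟨G, hG, fun E _ _ A N1 N2 W _ _ _ _ hf hN1 h21 hW n₁ h1 n₂ h2 s hs =>
    h E A N1 N2 W hf hN1 h21 hW n₁ n₂ (Or.inl ⟨h1, h2⟩) s hs⟩

/-- coefficients of the substitution `u = v = 0` -/
theorem coeff_phi0 (G : MvPolynomial (Fin 3) F) (n : ℕ) :
    (phi0 G).coeff n = G.coeff (Finsupp.single 1 n) := by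
  induction G using MvPolynomial.induction_on' with
  | monomial m c =>
    rw [phi0, MvPolynomial.aeval_monomial, Finsupp.prod_fintype _ _ (by simp),
      Fin.prod_univ_three, MvPolynomial.coeff_monomial]
    simp only [Matrix.cons_val_zero, Matrix.cons_val_one, Matrix.cons_val_two, Matrix.tail_cons,
      Matrix.head_cons]
    by_cases h0 : m 0 = 0
    · by_cases h2 : m 2 = 0
      · by_cases h1 : m 1 = n
        · have : m = Finsupp.single 1 n := by
            ext k; fin_cases k <;> simp [h0, h1, h2]
          rw [if_pos this]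
          simp [h0, h2, h1]
        · have : m ≠ Finsupp.single 1 n := by
            intro h; apply h1; rw [h]; simp
          rw [if_neg this]
          simp [h0, h2, Polynomial.coeff_X_pow, Ne.symm h1]
      · have : m ≠ Finsupp.single 1 n := by
          intro h; apply h2; rw [h]; simp
        rw [if_neg this]
        simp [h2]
    · have : m ≠ Finsupp.single 1 n := by
        intro h; apply h0; rw [h]; simp
      rw [if_neg this]
      simp [h0]
  | add p q hp hq => rw [map_add, Polynomial.coeff_add, hp, hq, MvPolynomial.coeff_add]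

/-- if `s` annihilates the products `n₁ s^k n₂` then only the middle part of `G` matters -/
theorem Lam_eq_middle {n₁ n₂ s : E} (h : ∀ k : ℕ, s * (n₁ * s ^ k * n₂) = 0 ∧
    n₁ * s ^ k * n₂ * s = 0) (G : MvPolynomial (Fin 3) F) :
    Lam n₁ n₂ s G = n₁ * Polynomial.aeval s (phi0 G) * n₂ := by
  induction G using MvPolynomial.induction_on' with
  | monomial m c =>
    rw [Lam_monomial, phi0, MvPolynomial.aeval_monomial, Finsupp.prod_fintype _ _ (by simp),
      Fin.prod_univ_three]
    simp only [Matrix.cons_val_zero, Matrix.cons_val_one, Matrix.cons_val_two, Matrix.tail_cons,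
      Matrix.head_cons]
    by_cases h0 : m 0 = 0
    · by_cases h2 : m 2 = 0
      · simp [h0, h2, mul_assoc, Algebra.smul_def, Algebra.left_comm]
      · obtain ⟨k, hk⟩ := Nat.exists_eq_succ_of_ne_zero h2
        rw [hk, h0]
        simp only [pow_zero, one_mul, Nat.succ_eq_add_one, pow_succ' s k, ← mul_assoc, (h _).2,
          zero_mul, smul_zero, pow_succ', mul_zero, map_zero]
    · obtain ⟨k, hk⟩ := Nat.exists_eq_succ_of_ne_zero h0
      have e : s ^ (m 0) * n₁ * s ^ (m 1) * n₂ * s ^ (m 2)
          = s ^ k * (s * (n₁ * s ^ (m 1) * n₂)) * s ^ (m 2) := by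
        rw [hk, pow_succ]; simp only [mul_assoc]
      rw [e, (h _).1, hk]
      simp
  | add p q hp hq =>
    rw [map_add, map_add, map_add, hp, hq, mul_add, add_mul]

end
end LRF
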