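import Pool.Agent.T2H69.LRF.Triple
import Pool.Agent.T2H69.LRF.Key

/-!
# Ascending chain condition on two-sided ideals
-/

namespace LRF

open TensorProduct

universe u

section
variable {F : Type*} {C : Type*} {E : Type*} [Field F] [CommRing C] [Algebra F C] [Ring E]
  [Algebra F E]

omit [Algebra F E] in
/-- two-sided ideals inside the image of a Noetherian `C ⊗ C`-module are finitely generated -/
theorem fg_of_range {P : Type*} [AddCommGroup P] [Module (C ⊗[F] C) P]
    [IsNoetherian (C ⊗[F] C) P] (σ : C → E) (Ψ : P →+ E)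
    (hΨ : ∀ c d p, Ψ ((c ⊗ₜ[F] d) • p) = σ c * Ψ p * σ d)
    (J : Ideal E) [J.IsTwoSided] (hJ : ∀ x ∈ J, ∃ p, Ψ p = x) :
    ∃ Z : Finset E, J = tsp (Z : Set E) := by
  classical
  have hsm : ∀ (J : Ideal E) [J.IsTwoSided] (r : C ⊗[F] C) (p : P), Ψ p ∈ J → Ψ (r • p) ∈ J := by
    intro J _ r p hp
    induction r using TensorProduct.induction_on with
    | zero => simp
    | tmul c d => rw [hΨ]; exact J.mul_mem_right _ (J.mul_mem_left _ hp)
    | add a b ha hb => rw [add_smul, map_add]; exact add_mem ha hb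
  let J' : Submodule (C ⊗[F] C) P :=
    { carrier := {p | Ψ p ∈ J}
      add_mem' := fun {a b} ha hb => by
        simp only [Set.mem_ofPred_eq, map_add] at ha hb ⊢; exact add_mem ha hb
      zero_mem' := by simp
      smul_mem' := fun r p hp => hsm J r p hp }
  obtain ⟨s, hs⟩ := (IsNoetherian.noetherian J' : J'.FG)
  refine ⟨s.image Ψ, le_antisymm ?_ ?_⟩
  · intro x hx
    obtain ⟨p, rfl⟩ := hJ x hx
    have hp : p ∈ Submodule.span (C ⊗[F] C) (s : Set P) := by rw [hs]; exact hx
    clear hx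
    induction hp using Submodule.span_induction with
    | mem p hp => exact subset_tsp _ (by simpa using ⟨p, hp, rfl⟩)
    | zero => simp
    | add a b _ _ ha hb => rw [map_add]; exact add_mem ha hb
    | smul r p _ hp => exact hsm _ r p hp
  · refine tsp_le ?_
    intro x hx
    simp only [Finset.coe_image, Set.mem_image, Finset.mem_coe] at hx
    obtain ⟨p, hp, rfl⟩ := hx
    have : p ∈ J' := by rw [← hs]; exact Submodule.subset_span hp
    exact this

/-- `(c ⊗ d) ↦ σ c * m * σ d`. -/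
noncomputable def Bil (σ : C →ₗ[F] E) : E →ₗ[F] (C ⊗[F] C →ₗ[F] E) :=
  LinearMap.mk₂ F (fun (m : E) (x : C ⊗[F] C) =>
      (TensorProduct.lift (LinearMap.mk₂ F (fun c d : C => σ c * m * σ d)
        (by intros; simp [add_mul]) (by intros; simp) (by intros; simp [mul_add])
        (by intros; simp))) x)
    (by
      intro m m' x
      induction x using TensorProduct.induction_on with
      | zero => simp
      | tmul c d => simp [mul_add, add_mul]
      | add a b ha hb => rw [map_add, map_add, map_add, ha, hb]; abel)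
    (by
      intro a m x
      induction x using TensorProduct.induction_on with
      | zero => simp
      | tmul c d => simp
      | add x y hx hy => rw [map_add, map_add, hx, hy, smul_add])
    (by intros; rw [map_add])
    (by intros; rw [map_smul])

theorem Bil_apply (σ : C →ₗ[F] E) (m : E) (c d : C) : Bil σ m (c ⊗ₜ d) = σ c * m * σ d := by
  simp [Bil]

/-- `(c ⊗ d) ⊗ e ↦ σ c * n * σ e * b * σ d`. -/
noncomputable def Tht (σ : C →ₗ[F] E) (n b : E) : (C ⊗[F] C) ⊗[F] C →ₗ[F] E :=
  TensorProduct.lift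
    (((Bil σ).comp ((LinearMap.mulRight F b).comp ((LinearMap.mulLeft F n).comp σ))).flip)

theorem Tht_apply (σ : C →ₗ[F] E) (n b : E) (c d e : C) :
    Tht σ n b ((c ⊗ₜ d) ⊗ₜ e) = σ c * (n * σ e * b) * σ d := by
  simp [Tht, Bil_apply]

/-- the pair `(n, b)` kills the kernel of `π` in all three positions -/
def Good (π : E →ₐ[F] C) (n b : E) : Prop :=
  ∀ x ∈ RingHom.ker π, ∀ e, x * (n * e * b) = 0 ∧ n * x * b = 0 ∧ n * e * b * x = 0

theorem Tht_pi {π : E →ₐ[F] C} {σ : C →ₗ[F] E} (hσ : ∀ c, π (σ c) = c) {n b : E}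
    (hg : Good π n b) (e0 e1 e2 : E) :
    Tht σ n b ((π e0 ⊗ₜ π e2) ⊗ₜ π e1) = e0 * (n * e1 * b) * e2 := by
  rw [Tht_apply]
  have hk : ∀ e, σ (π e) - e ∈ RingHom.ker π := by
    intro e; rw [RingHom.mem_ker, map_sub, hσ, sub_self]
  have h1 : n * σ (π e1) * b = n * e1 * b := by
    have := (hg _ (hk e1) 0).2.1
    rw [mul_sub, sub_mul, sub_eq_zero] at this
    exact this
  rw [h1]
  have h2 : σ (π e0) * (n * e1 * b) = e0 * (n * e1 * b) := by
    have := (hg _ (hk e0) e1).1
    rw [sub_mul, sub_eq_zero] at this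
    exact this
  rw [h2]
  have h3 : n * e1 * b * σ (π e2) = n * e1 * b * e2 := by
    have := (hg _ (hk e2) e1).2.2
    rw [mul_sub, sub_eq_zero] at this
    exact this
  rw [mul_assoc e0, h3, mul_assoc e0]

theorem Tht_relEl {π : E →ₐ[F] C} {σ : C →ₗ[F] E} (hσ : ∀ c, π (σ c) = c) {n b : E}
    (hg : Good π n b) (e0 e1 e2 x : E) (G : MvPolynomial (Fin 3) F) :
    Tht σ n b (((π e0 ⊗ₜ π e2) ⊗ₜ π e1) * relEl G (π x)) = e0 * Lam (n * e1) b x G * e2 := by
  induction G using MvPolynomial.induction_on' with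
  | monomial m c =>
    have h1 : relEl (MvPolynomial.monomial m c) (π x)
        = c • ((((π x) ^ (m 0)) ⊗ₜ[F] ((π x) ^ (m 2))) ⊗ₜ[F] ((π x) ^ (m 1))) := by
      rw [relEl, MvPolynomial.aeval_monomial, Finsupp.prod_fintype _ _ (by simp),
        Fin.prod_univ_three, ← Algebra.smul_def]
      congr 1
      simp [i0, i1, i2, Algebra.TensorProduct.tmul_pow, Algebra.TensorProduct.tmul_mul_tmul]
    rw [h1, mul_smul_comm, map_smul, Algebra.TensorProduct.tmul_mul_tmul,
      Algebra.TensorProduct.tmul_mul_tmul, Lam_monomial]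
    have h2 : π e0 * (π x) ^ (m 0) = π (e0 * x ^ (m 0)) := by simp
    have h3 : π e1 * (π x) ^ (m 1) = π (e1 * x ^ (m 1)) := by simp
    have h4 : π e2 * (π x) ^ (m 2) = π (x ^ (m 2) * e2) := by simp [mul_comm]
    rw [h2, h3, h4, Tht_pi hσ hg, mul_smul_comm, smul_mul_assoc]
    simp only [mul_assoc]
  | add p q hp hq =>
    have : relEl (p + q) (π x) = relEl p (π x) + relEl q (π x) := by simp [relEl]
    rw [this, mul_add, map_add, hp, hq, map_add, mul_add, add_mul]

theorem Tht_relIdeal {π : E →ₐ[F] C} (hπ : Function.Surjective π)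
    {σ : C →ₗ[F] E} (hσ : ∀ c, π (σ c) = c) {n b : E}
    (hg : Good π n b) (G : MvPolynomial (Fin 3) F) (I : Set E)
    (hG : ∀ x ∈ I, ∀ e, Lam (n * e) b x G = 0) (t : (C ⊗[F] C) ⊗[F] C)
    (ht : t ∈ relIdeal G (π '' I)) : Tht σ n b t = 0 := by
  have key : ∀ τ : (C ⊗[F] C) ⊗[F] C, Tht σ n b (τ * t) = 0 := by
    induction ht using Submodule.span_induction with
    | mem y hy =>
      obtain ⟨s, ⟨x, hx, rfl⟩, rfl⟩ := hy
      intro τ
      induction τ using TensorProduct.induction_on with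
      | zero => simp
      | add a b ha hb => rw [add_mul, map_add, ha, hb, add_zero]
      | tmul r c =>
        induction r using TensorProduct.induction_on with
        | zero => simp
        | add a b ha hb => rw [TensorProduct.add_tmul, add_mul, map_add, ha, hb, add_zero]
        | tmul a d =>
          obtain ⟨a, rfl⟩ := hπ a
          obtain ⟨c, rfl⟩ := hπ c
          obtain ⟨d, rfl⟩ := hπ d
          rw [Tht_relEl hσ hg, hG x hx c]
          simp
    | zero => simp
    | add a b _ _ ha hb => intro τ; rw [mul_add, map_add, ha, hb, add_zero]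
    | smul r y _ hy => intro τ; rw [smul_eq_mul, ← mul_assoc]; exact hy _
  simpa using key 1

theorem Tht_smul {π : E →ₐ[F] C} (hπ : Function.Surjective π)
    {σ : C →ₗ[F] E} (hσ : ∀ c, π (σ c) = c) {n b : E}
    (hg : Good π n b) (c d : C) (t : (C ⊗[F] C) ⊗[F] C) :
    Tht σ n b ((c ⊗ₜ[F] d) • t) = σ c * Tht σ n b t * σ d := by
  induction t using TensorProduct.induction_on with
  | zero => simp
  | add a b ha hb => rw [smul_add, map_add, ha, hb, map_add, mul_add, add_mul]
  | tmul r e =>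
    induction r using TensorProduct.induction_on with
    | zero => simp
    | add a b ha hb =>
      rw [TensorProduct.add_tmul, smul_add, map_add, ha, hb, map_add, mul_add, add_mul]
    | tmul a a' =>
      obtain ⟨e, rfl⟩ := hπ e
      obtain ⟨a, rfl⟩ := hπ a
      obtain ⟨a', rfl⟩ := hπ a'
      have h1 : (c ⊗ₜ[F] d) • ((π a ⊗ₜ[F] π a') ⊗ₜ[F] π e)
          = (π (σ c * a) ⊗ₜ[F] π (a' * σ d)) ⊗ₜ[F] π e := by
        rw [TensorProduct.smul_tmul', smul_eq_mul, Algebra.TensorProduct.tmul_mul_tmul, map_mul,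
          map_mul, hσ, hσ, mul_comm d]
      rw [h1, Tht_pi hσ hg, Tht_pi hσ hg]
      simp only [mul_assoc]

theorem Tht_mem {π : E →ₐ[F] C} (hπ : Function.Surjective π)
    {σ : C →ₗ[F] E} (hσ : ∀ c, π (σ c) = c) {n b : E}
    (hg : Good π n b) (t : (C ⊗[F] C) ⊗[F] C) :
    ∀ x ∈ RingHom.ker π, x * Tht σ n b t = 0 ∧ Tht σ n b t * x = 0 := by
  intro x hx
  induction t using TensorProduct.induction_on with
  | zero => simp
  | add a b ha hb => simp [mul_add, add_mul, ha.1, ha.2, hb.1, hb.2]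
  | tmul r e =>
    induction r using TensorProduct.induction_on with
    | zero => simp
    | add a b ha hb =>
      rw [TensorProduct.add_tmul, map_add, mul_add, add_mul, ha.1, ha.2, hb.1, hb.2]; simp
    | tmul a a' =>
      obtain ⟨e, rfl⟩ := hπ e
      obtain ⟨a, rfl⟩ := hπ a
      obtain ⟨a', rfl⟩ := hπ a'
      rw [Tht_pi hσ hg]
      constructor
      · rw [← mul_assoc, ← mul_assoc, (hg _ ((RingHom.ker π).mul_mem_right a hx) e).1, zero_mul]
      · rw [mul_assoc, mul_assoc, (hg _ ((RingHom.ker π).mul_mem_left a' hx) e).2.2, mul_zero]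

/-- the induced map on the quotient -/
noncomputable def ThtQ (σ : C →ₗ[F] E) (n b : E) (g : Ideal ((C ⊗[F] C) ⊗[F] C))
    (h : ∀ t ∈ g, Tht σ n b t = 0) : (((C ⊗[F] C) ⊗[F] C) ⧸ g) →+ E :=
  AddMonoidHom.mk' (fun q => Tht σ n b (Function.surjInv Ideal.Quotient.mk_surjective q)) (by
    intro x y
    rw [← map_add, ← sub_eq_zero, ← map_sub]
    apply h
    rw [← Ideal.Quotient.eq_zero_iff_mem, map_sub, map_add]
    simp only [Function.surjInv_eq]
    simp)

theorem ThtQ_mk (σ : C →ₗ[F] E) (n b : E) (g : Ideal ((C ⊗[F] C) ⊗[F] C))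
    (h : ∀ t ∈ g, Tht σ n b t = 0) (t : (C ⊗[F] C) ⊗[F] C) :
    ThtQ σ n b g h (Ideal.Quotient.mk g t) = Tht σ n b t := by
  change Tht σ n b (Function.surjInv Ideal.Quotient.mk_surjective (Ideal.Quotient.mk g t)) = _
  rw [← sub_eq_zero, ← map_sub]
  apply h
  rw [← Ideal.Quotient.eq_zero_iff_mem, map_sub]
  simp only [Function.surjInv_eq]
  simp

theorem exists_section {π : E →ₐ[F] C} (hπ : Function.Surjective π) :
    ∃ σ : C →ₗ[F] E, ∀ c, π (σ c) = c := by
  obtain ⟨σ, hσ⟩ := LinearMap.exists_rightInverse_of_surjective π.toLinearMap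
    (LinearMap.range_eq_top.mpr hπ)
  exact ⟨σ, fun c => by simpa using LinearMap.congr_fun hσ c⟩

/-- The generator condition on `C`. -/
structure GenData (F : Type*) [Field F] {C : Type*} [CommRing C] [Algebra F C] {E : Type*}
    [Ring E] [Algebra F E] (π : E →ₐ[F] C) (I : Ideal E) (Y : Finset C) : Prop where
  surj : Function.Surjective π
  adj : Algebra.adjoin F (Y : Set C) = ⊤
  lift : ∀ y ∈ Y, ∃ x ∈ I, π x = y
  ker_le : RingHom.ker π ≤ I

omit [Algebra F E] [Field F] [Algebra F C] in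
theorem pow_mul_mem {N : Ideal E} [N.IsTwoSided] {a b : ℕ} {x y : E} (hx : x ∈ N ^ a)
    (hy : y ∈ N ^ b) : x * y ∈ N ^ (a + b) := by
  rw [Ideal.IsTwoSided.pow_add]; exact Ideal.mul_mem_mul hx hy

theorem step_fg (f : List ℕ →₀ F) (i j : ℕ) (hmid : middleL i j f ≠ 0)
    (π : E →ₐ[F] C) (I : Ideal E) [I.IsTwoSided] (Y : Finset C) (hD : GenData F π I Y)
    (hf : HoldsOn f (I : Set E)) (m : ℕ) (hm : (RingHom.ker π) ^ (m + 2) = ⊥)
    (Z : Finset E) (hZ : RingHom.ker π = tsp (Z : Set E))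
    (B : Finset E) (hB : (B : Set E) ⊆ ((RingHom.ker π) ^ m : Ideal E))
    (hB' : (RingHom.ker π) ^ m ≤ tsp (B : Set E) ⊔ (RingHom.ker π) ^ (m + 1))
    (hm1 : 1 ≤ m)
    (J : Ideal E) [J.IsTwoSided] (hJ : J ≤ (RingHom.ker π) ^ (m + 1)) :
    ∃ Z' : Finset E, J = tsp (Z' : Set E) := by
  classical
  obtain ⟨G, hG, hrel⟩ := key_relation f i j hmid
  obtain ⟨σ, hσ⟩ := exists_section hD.surj
  set N := RingHom.ker π with hN
  have hzero : ∀ x, x ∈ N ^ (m + 2) → x = 0 := by
    intro x hx; rw [hm] at hx; simpa using hx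
  have hgood : ∀ n ∈ N, ∀ b ∈ N ^ m, Good π n b := by
    intro n hn b hb x hx e
    have hn' : n ∈ N ^ 1 := by rwa [Submodule.pow_one]
    have hx' : x ∈ N ^ 1 := by rwa [Submodule.pow_one]
    have hne : n * e ∈ N ^ 1 := by rw [Submodule.pow_one]; exact N.mul_mem_right _ hn
    refine ⟨hzero _ ?_, hzero _ ?_, hzero _ ?_⟩
    · have := pow_mul_mem hx' (pow_mul_mem hne hb)
      rwa [show 1 + (1 + m) = m + 2 by ring] at this
    · have := pow_mul_mem (pow_mul_mem hn' hx') hb
      rwa [show 1 + 1 + m = m + 2 by ring] at this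
    · have := pow_mul_mem (pow_mul_mem hne hb) hx'
      rwa [show 1 + m + 1 = m + 2 by ring] at this
  have habs : Absorbs N (N ^ m) (⊥ : Ideal E) := by
    intro a ha b hb c hc
    have ha' : a ∈ N ^ 1 := by rwa [Submodule.pow_one]
    have hb' : b ∈ N ^ 1 := by rwa [Submodule.pow_one]
    refine ⟨?_, ?_, ?_⟩
    · have := pow_mul_mem (pow_mul_mem ha' hb') hc
      rwa [show 1 + 1 + m = m + 2 by ring, hm] at this
    · have := pow_mul_mem (pow_mul_mem ha' hc) hb'
      rwa [show 1 + m + 1 = m + 2 by ring, hm] at this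
    · have := pow_mul_mem (pow_mul_mem hc ha') hb'
      rwa [show m + 1 + 1 = m + 2 by ring, hm] at this
  have hLam : ∀ n ∈ N, ∀ b ∈ N ^ m, ∀ x ∈ I, ∀ e, Lam (n * e) b x G = 0 := by
    intro n hn b hb x hx e
    have := hrel E I N (N ^ m) ⊥ hf hD.ker_le (Ideal.pow_le_self (by omega)) habs
      (n * e) (N.mul_mem_right _ hn) b hb x hx
    simpa using this
  set g : Ideal ((C ⊗[F] C) ⊗[F] C) := relIdeal G (π '' I) with hg
  have hfin : Module.Finite (C ⊗[F] C) (((C ⊗[F] C) ⊗[F] C) ⧸ g) := by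
    refine finite_quot G hG (π '' I) ?_ Y hD.adj ?_
    · rintro _ ⟨x, hx, rfl⟩ q hq
      refine ⟨Polynomial.aeval x q, ?_, by rw [Polynomial.aeval_algHom_apply]⟩
      obtain ⟨q', rfl⟩ := Polynomial.X_dvd_iff.mpr hq
      rw [map_mul, Polynomial.aeval_X]
      exact I.mul_mem_right _ hx
    · intro y hy
      exact hD.lift y hy
  have hft : Algebra.FiniteType F C := ⟨⟨Y, hD.adj⟩⟩
  have hft2 : Algebra.FiniteType F (C ⊗[F] C) :=
    Algebra.FiniteType.trans hft (Algebra.FiniteType.baseChange C)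
  have hnoeth : IsNoetherianRing (C ⊗[F] C) := Algebra.FiniteType.isNoetherianRing F _
  have hker : ∀ n ∈ N, ∀ b ∈ N ^ m, ∀ t ∈ g, Tht σ n b t = 0 := by
    intro n hn b hb t ht
    exact Tht_relIdeal hD.surj hσ (hgood n hn b hb) G I (fun x hx e => hLam n hn b hb x hx e) t ht
  have hZN : ∀ z : Z, (z : E) ∈ N := fun z => by rw [hZ]; exact subset_tsp _ z.2
  have hBN : ∀ b : B, (b : E) ∈ N ^ m := fun b => hB b.2
  let P := (Z × B) → (((C ⊗[F] C) ⊗[F] C) ⧸ g)
  let Ψ : P →+ E := ∑ k : Z × B,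
    (ThtQ σ k.1 k.2 g (hker k.1 (hZN k.1) k.2 (hBN k.2))).comp
      (Pi.evalAddMonoidHom (fun _ : Z × B => (((C ⊗[F] C) ⊗[F] C) ⧸ g)) k)
  have hΨ_apply : ∀ p : P, Ψ p = ∑ k : Z × B,
      ThtQ σ k.1 k.2 g (hker k.1 (hZN k.1) k.2 (hBN k.2)) (p k) := by
    intro p
    simp only [Ψ, AddMonoidHom.finsetSum_apply, AddMonoidHom.comp_apply]
    rfl
  have hΨ : ∀ c d (p : P), Ψ ((c ⊗ₜ[F] d) • p) = σ c * Ψ p * σ d := by
    intro c d p
    rw [hΨ_apply, hΨ_apply, Finset.mul_sum, Finset.sum_mul]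
    refine Finset.sum_congr rfl fun k _ => ?_
    obtain ⟨t, ht⟩ := Ideal.Quotient.mk_surjective (p k)
    have h1 : ((c ⊗ₜ[F] d) • p) k = Ideal.Quotient.mk g ((c ⊗ₜ[F] d) • t) := by
      rw [Pi.smul_apply, ← ht]; rfl
    rw [h1, ← ht, ThtQ_mk, ThtQ_mk, Tht_smul hD.surj hσ (hgood _ (hZN k.1) _ (hBN k.2))]
  have hΨN : ∀ p : P, ∀ x ∈ N, x * Ψ p = 0 ∧ Ψ p * x = 0 := by
    intro p x hx
    rw [hΨ_apply, Finset.mul_sum, Finset.sum_mul]
    have : ∀ k : Z × B, x * ThtQ σ k.1 k.2 g (hker k.1 (hZN k.1) k.2 (hBN k.2)) (p k) = 0 ∧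
        ThtQ σ k.1 k.2 g (hker k.1 (hZN k.1) k.2 (hBN k.2)) (p k) * x = 0 := by
      intro k
      obtain ⟨t, ht⟩ := Ideal.Quotient.mk_surjective (p k)
      rw [← ht, ThtQ_mk]
      exact Tht_mem hD.surj hσ (hgood _ (hZN k.1) _ (hBN k.2)) t x hx
    exact ⟨Finset.sum_eq_zero fun k _ => (this k).1, Finset.sum_eq_zero fun k _ => (this k).2⟩
  -- the range of `Ψ` is a two-sided ideal
  have hrange : ∀ (p : P) (e e' : E), ∃ p', Ψ p' = e * Ψ p * e' := by
    intro p e e'
    refine ⟨(π e ⊗ₜ[F] π e') • p, ?_⟩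
    rw [hΨ]
    have hk : ∀ e, σ (π e) - e ∈ RingHom.ker π := by
      intro e; rw [RingHom.mem_ker, map_sub, hσ, sub_self]
    have h1 : σ (π e) * Ψ p = e * Ψ p := by
      rw [← sub_eq_zero, ← sub_mul]; exact (hΨN p _ (hk e)).1
    have h2 : Ψ p * σ (π e') = Ψ p * e' := by
      rw [← sub_eq_zero, ← mul_sub]; exact (hΨN p _ (hk e')).2
    rw [h1, mul_assoc, h2, mul_assoc]
  let R : AddSubgroup E := Ψ.range
  have hRmul : ∀ x ∈ R, ∀ e e' : E, e * x * e' ∈ R := by
    rintro _ ⟨p, rfl⟩ e e'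
    obtain ⟨p', hp'⟩ := hrange p e e'
    exact ⟨p', hp'⟩
  have hbase : ∀ z ∈ Z, ∀ b ∈ B, ∀ e : E, z * e * b ∈ R := by
    intro z hz b hb e
    refine ⟨Pi.single ((⟨z, hz⟩, ⟨b, hb⟩) : Z × B)
      (Ideal.Quotient.mk g ((π 1 ⊗ₜ[F] π 1) ⊗ₜ[F] π e)), ?_⟩
    rw [hΨ_apply, Finset.sum_eq_single ((⟨z, hz⟩, ⟨b, hb⟩) : Z × B)]
    · rw [Pi.single_eq_same, ThtQ_mk,
        Tht_pi hσ (hgood z (hZN ⟨z, hz⟩) b (hBN ⟨b, hb⟩))]
      simp
    · intro k _ hk
      rw [Pi.single_eq_of_ne hk, map_zero]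
    · intro h; exact absurd (Finset.mem_univ _) h
  have hnb : ∀ n ∈ N, ∀ y ∈ N ^ m, n * y ∈ R := by
    intro n hn y hy
    have hzy : ∀ z ∈ Z, ∀ e : E, z * e * y ∈ R := by
      intro z hz e
      obtain ⟨y1, hy1, y2, hy2, rfl⟩ := Submodule.mem_sup.mp (hB' hy)
      have h2 : z * e * y2 = 0 := by
        apply hzero
        have hze : z * e ∈ N ^ 1 := by
          rw [Submodule.pow_one]; exact N.mul_mem_right _ (hZN ⟨z, hz⟩)
        have := pow_mul_mem hze hy2
        rwa [show 1 + (m + 1) = m + 2 by ring] at this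
      rw [mul_add, h2, add_zero]
      clear hy h2 hy2
      have : ∀ e : E, z * e * y1 ∈ R := by
        unfold tsp at hy1
        induction hy1 using Submodule.span_induction with
        | mem x hx =>
          obtain ⟨b, hb, e', rfl⟩ := hx
          intro e
          have := hRmul _ (hbase z hz b hb e) 1 e'
          rwa [one_mul, mul_assoc] at this
        | zero => intro e; simp
        | add a b _ _ ha hb => intro e; rw [mul_add]; exact add_mem (ha e) (hb e)
        | smul r x _ hx => intro e; rw [smul_eq_mul, ← mul_assoc, mul_assoc z]; exact hx _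
      exact this e
    have hn' : n ∈ tsp (Z : Set E) := by rw [← hZ]; exact hn
    clear hn
    unfold tsp at hn'
    induction hn' using Submodule.span_induction with
    | mem x hx =>
      obtain ⟨z, hz, e, rfl⟩ := hx
      exact hzy z hz e
    | zero => simp
    | add a b _ _ ha hb => rw [add_mul]; exact add_mem ha hb
    | smul r x _ hx =>
      rw [smul_eq_mul, mul_assoc]
      have := hRmul _ hx r 1
      rwa [mul_one] at this
  have hK : ∀ x ∈ N ^ (m + 1), x ∈ R := by
    intro x hx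
    rw [Ideal.IsTwoSided.pow_succ] at hx
    exact Submodule.mul_induction_on hx (fun a ha b hb => hnb a ha b hb)
      (fun a b ha hb => add_mem ha hb)
  exact fg_of_range σ Ψ hΨ J fun x hx => hK x (hJ hx)

/-- the base of the induction: `N² = 0` -/
theorem step_fg0 (π : E →ₐ[F] C) (I : Ideal E) [I.IsTwoSided] (Y : Finset C)
    (hD : GenData F π I Y) (hm : (RingHom.ker π) ^ 2 = ⊥)
    (Z : Finset E) (hZ : RingHom.ker π = tsp (Z : Set E))
    (J : Ideal E) [J.IsTwoSided] (hJ : J ≤ RingHom.ker π) :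
    ∃ Z' : Finset E, J = tsp (Z' : Set E) := by
  classical
  obtain ⟨σ, hσ⟩ := exists_section hD.surj
  set N := RingHom.ker π with hN
  have hzero : ∀ x ∈ N, ∀ y ∈ N, x * y = 0 := by
    intro x hx y hy
    have hx' : x ∈ N ^ 1 := by rwa [Submodule.pow_one]
    have hy' : y ∈ N ^ 1 := by rwa [Submodule.pow_one]
    have := pow_mul_mem hx' hy'
    rw [show 1 + 1 = 2 by rfl, hm] at this
    simpa using this
  have hft : Algebra.FiniteType F C := ⟨⟨Y, hD.adj⟩⟩
  have hft2 : Algebra.FiniteType F (C ⊗[F] C) :=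
    Algebra.FiniteType.trans hft (Algebra.FiniteType.baseChange C)
  have hnoeth : IsNoetherianRing (C ⊗[F] C) := Algebra.FiniteType.isNoetherianRing F _
  have hZN : ∀ z : Z, (z : E) ∈ N := fun z => by rw [hZ]; exact subset_tsp _ z.2
  have hk : ∀ e, σ (π e) - e ∈ N := by
    intro e; rw [hN, RingHom.mem_ker, map_sub, hσ, sub_self]
  have hBil : ∀ n ∈ N, ∀ e e', Bil σ n (π e ⊗ₜ π e') = e * n * e' := by
    intro n hn e e'
    rw [Bil_apply]
    have h1 : σ (π e) * n = e * n := by
      rw [← sub_eq_zero, ← sub_mul]; exact hzero _ (hk e) _ hn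
    have h2 : e * n * σ (π e') = e * n * e' := by
      rw [← sub_eq_zero, ← mul_sub]; exact hzero _ (N.mul_mem_left e hn) _ (hk e')
    rw [h1, h2]
  have hBs : ∀ n ∈ N, ∀ (c d : C) (t : C ⊗[F] C),
      Bil σ n ((c ⊗ₜ[F] d) • t) = σ c * Bil σ n t * σ d := by
    intro n hn c d t
    induction t using TensorProduct.induction_on with
    | zero => simp
    | add a b ha hb => rw [smul_add, map_add, ha, hb, map_add, mul_add, add_mul]
    | tmul a a' =>
      obtain ⟨a, rfl⟩ := hD.surj a
      obtain ⟨a', rfl⟩ := hD.surj a'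
      have h1 : (c ⊗ₜ[F] d) • (π a ⊗ₜ[F] π a') = π (σ c * a) ⊗ₜ[F] π (a' * σ d) := by
        rw [smul_eq_mul, Algebra.TensorProduct.tmul_mul_tmul, map_mul,
          map_mul, hσ, hσ, mul_comm d]
      rw [h1, hBil n hn, hBil n hn]
      simp only [mul_assoc]
  let P := Z → (C ⊗[F] C)
  let Ψ : P →+ E := ∑ k : Z,
    ((Bil σ (k : E)).toAddMonoidHom).comp
      (Pi.evalAddMonoidHom (fun _ : Z => (C ⊗[F] C)) k)
  have hΨ_apply : ∀ p : P, Ψ p = ∑ k : Z, Bil σ (k : E) (p k) := by
    intro p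
    simp only [Ψ, AddMonoidHom.finsetSum_apply, AddMonoidHom.comp_apply]
    rfl
  have hΨ : ∀ c d (p : P), Ψ ((c ⊗ₜ[F] d) • p) = σ c * Ψ p * σ d := by
    intro c d p
    rw [hΨ_apply, hΨ_apply, Finset.mul_sum, Finset.sum_mul]
    refine Finset.sum_congr rfl fun k _ => ?_
    rw [Pi.smul_apply, hBs _ (hZN k)]
  refine fg_of_range σ Ψ hΨ J fun x hx => ?_
  have hx' : x ∈ tsp (Z : Set E) := by rw [← hZ]; exact hJ hx
  clear hx
  have hsub : ∀ x ∈ (Ψ.range : AddSubgroup E), ∀ e : E, e * x ∈ (Ψ.range : AddSubgroup E) := by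
    rintro _ ⟨p, rfl⟩ e
    refine ⟨(π e ⊗ₜ[F] (1 : C)) • p, ?_⟩
    rw [hΨ_apply, hΨ_apply, Finset.mul_sum]
    refine Finset.sum_congr rfl fun k _ => ?_
    rw [Pi.smul_apply, hBs _ (hZN k)]
    have hmem : Bil σ (k : E) (p k) ∈ N := by
      generalize p k = t
      induction t using TensorProduct.induction_on with
      | zero => simp
      | add a b ha hb => rw [map_add]; exact add_mem ha hb
      | tmul a a' => rw [Bil_apply]; exact N.mul_mem_right _ (N.mul_mem_left _ (hZN k))
    have h1 : σ (π e) * Bil σ (k : E) (p k) = e * Bil σ (k : E) (p k) := by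
      rw [← sub_eq_zero, ← sub_mul]; exact hzero _ (hk e) _ hmem
    have h2 : e * Bil σ (k : E) (p k) * σ 1 = e * Bil σ (k : E) (p k) := by
      have := hzero _ (N.mul_mem_left e hmem) _ (hk 1)
      rw [map_one, mul_sub, mul_one, sub_eq_zero] at this
      exact this
    rw [h1, h2]
  change x ∈ (Ψ.range : AddSubgroup E)
  unfold tsp at hx'
  induction hx' using Submodule.span_induction with
  | mem x hx =>
    obtain ⟨z, hz, e, rfl⟩ := hx
    refine ⟨Pi.single (⟨z, hz⟩ : Z) (π 1 ⊗ₜ[F] π e), ?_⟩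
    rw [hΨ_apply, Finset.sum_eq_single (⟨z, hz⟩ : Z)]
    · rw [Pi.single_eq_same, hBil z (hZN ⟨z, hz⟩), one_mul]
    · intro k _ hk
      rw [Pi.single_eq_of_ne hk, map_zero]
    · intro h; exact absurd (Finset.mem_univ _) h
  | zero => exact zero_mem _
  | add a b _ _ ha hb => exact add_mem ha hb
  | smul r x _ hx => exact hsub _ hx r

theorem evalW_mapAlg {E' : Type*} [Ring E'] [Algebra F E'] (φ : E →ₐ[F] E')
    (f : List ℕ →₀ F) (v : ℕ → E) : φ (evalW f v) = evalW f (fun l => φ (v l)) := by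
  unfold evalW
  rw [Finsupp.sum, Finsupp.sum, map_sum]
  refine Finset.sum_congr rfl fun w _ => ?_
  rw [map_smul, map_list_prod, List.map_map]
  rfl

theorem HoldsOn.map {E' : Type*} [Ring E'] [Algebra F E'] (φ : E →ₐ[F] E')
    {f : List ℕ →₀ F} {A : Set E} (hf : HoldsOn f A) {A' : Set E'}
    (hA : ∀ x ∈ A', ∃ y ∈ A, φ y = x) : HoldsOn f A' := by
  intro v hv
  choose v' hv' hφ using fun l => hA (v l) (hv l)
  have := hf v' hv'
  have h2 := evalW_mapAlg φ f v'
  rw [this, map_zero] at h2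
  rw [show v = fun l => φ (v' l) from funext fun l => (hφ l).symm]
  exact h2.symm

omit [Algebra F E] in
theorem tsp_map {E' : Type*} [Ring E'] (φ : E →+* E') (Z : Set E) (x : E)
    (hx : x ∈ tsp Z) : φ x ∈ tsp (φ '' Z) := by
  unfold tsp at hx
  induction hx using Submodule.span_induction with
  | mem x hx =>
    obtain ⟨z, hz, e, rfl⟩ := hx
    rw [map_mul]
    exact Ideal.mul_mem_right _ _ (subset_tsp _ ⟨z, hz, rfl⟩)
  | zero => simp
  | add a b _ _ ha hb => rw [map_add]; exact add_mem ha hb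
  | smul r x _ hx => rw [smul_eq_mul, map_mul]; exact Ideal.mul_mem_left _ _ hx

omit [Algebra F E] in
theorem pow_lift {E' : Type*} [Ring E'] (φ : E →+* E') (hφ : Function.Surjective φ)
    (N : Ideal E) [N.IsTwoSided] (N' : Ideal E') [N'.IsTwoSided]
    (h : ∀ x ∈ N', ∃ y ∈ N, φ y = x) (n : ℕ) : ∀ x ∈ N' ^ n, ∃ y ∈ N ^ n, φ y = x := by
  induction n with
  | zero =>
    intro x _
    obtain ⟨y, rfl⟩ := hφ x
    refine ⟨y, ?_, rfl⟩
    rw [Submodule.pow_zero, Ideal.one_eq_top]; trivial
  | succ n ih =>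
    intro x hx
    rw [Ideal.IsTwoSided.pow_succ] at hx
    refine Submodule.mul_induction_on hx ?_ ?_
    · intro a ha b hb
      obtain ⟨a', ha', rfl⟩ := h a ha
      obtain ⟨b', hb', rfl⟩ := ih b hb
      refine ⟨a' * b', ?_, by simp⟩
      rw [Ideal.IsTwoSided.pow_succ]
      exact Ideal.mul_mem_mul ha' hb'
    · rintro _ _ ⟨a, ha, rfl⟩ ⟨b, hb, rfl⟩
      exact ⟨a + b, add_mem ha hb, by simp⟩

end

section
variable {F : Type*} {C : Type*} [Field F] [CommRing C] [Algebra F C]

theorem tsNoeth_of_nilpotent (f : List ℕ →₀ F) (i j : ℕ) (hmid : middleL i j f ≠ 0)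
    (Y : Finset C) (r : ℕ) :
    ∀ (E : Type u) [Ring E] [Algebra F E] (π : E →ₐ[F] C) (I : Ideal E) [I.IsTwoSided],
      GenData F π I Y → HoldsOn f (I : Set E) →
      ∀ (Z : Finset E), RingHom.ker π = tsp (Z : Set E) → (RingHom.ker π) ^ r = ⊥ →
      TSNoeth E := by
  classical
  induction r with
  | zero =>
    intro E _ _ π I _ hD hf Z hZ hr J hJ
    rw [Submodule.pow_zero, Ideal.one_eq_top] at hr
    refine ⟨∅, ?_⟩
    have : ∀ x : E, x = 0 := by
      intro x
      have : x ∈ (⊥ : Ideal E) := by rw [← hr]; trivial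
      simpa using this
    ext x
    rw [this x]
    simp
  | succ r ih =>
    intro E _ _ π I _ hD hf Z hZ hr J hJ
    rcases Nat.eq_zero_or_pos r with rfl | hrpos
    · -- `π` is injective
      rw [zero_add, Submodule.pow_one] at hr
      have hinj : Function.Injective π := (RingHom.injective_iff_ker_eq_bot (π : E →+* C)).mpr hr
      have hft : Algebra.FiniteType F C := ⟨⟨Y, hD.adj⟩⟩
      have hnoeth : IsNoetherianRing C := Algebra.FiniteType.isNoetherianRing F _
      have hE : IsNoetherianRing E := isNoetherianRing_of_ringEquiv C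
        (RingEquiv.ofBijective (π : E →+* C) ⟨hinj, hD.surj⟩).symm
      obtain ⟨s, hs⟩ := (IsNoetherian.noetherian J : J.FG)
      refine ⟨s, le_antisymm ?_ (tsp_le ?_)⟩
      · rw [← hs]
        exact Submodule.span_le.mpr (subset_tsp _)
      · rw [← hs]; exact Submodule.subset_span
    · obtain ⟨m, rfl⟩ : ∃ m, r = m + 1 := ⟨r - 1, by omega⟩
      set N := RingHom.ker π with hN
      set K : Ideal E := N ^ (m + 1) with hK
      let mk : E →ₐ[F] (E ⧸ K) := Ideal.Quotient.mkₐ F K
      have hmk : Function.Surjective mk := Ideal.Quotient.mk_surjective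
      have hmk0 : ∀ x, mk x = 0 ↔ x ∈ K := fun x => Ideal.Quotient.eq_zero_iff_mem
      have hKN : K ≤ N := Ideal.pow_le_self (by omega)
      let π' : (E ⧸ K) →ₐ[F] C := Ideal.Quotient.liftₐ K π (fun a ha => hKN ha)
      have hπ' : ∀ x, π' (mk x) = π x := fun x => rfl
      let I' : Ideal (E ⧸ K) := I.map (mk : E →+* (E ⧸ K))
      have hI' : ∀ x ∈ I', ∃ y ∈ I, mk y = x := fun x hx =>
        (Ideal.mem_map_iff_of_surjective (mk : E →+* (E ⧸ K)) hmk).mp hx
      have hI'2 : ∀ x ∈ I, mk x ∈ I' := fun x hx => Ideal.mem_map_of_mem _ hx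
      have hI't : I'.IsTwoSided := ⟨by
        intro a b ha
        obtain ⟨y, hy, rfl⟩ := hI' a ha
        obtain ⟨z, rfl⟩ := hmk b
        rw [← map_mul]
        exact hI'2 _ (I.mul_mem_right _ hy)⟩
      have hker' : ∀ x ∈ RingHom.ker π', ∃ y ∈ N, mk y = x := by
        intro x hx
        obtain ⟨y, rfl⟩ := hmk x
        exact ⟨y, hx, rfl⟩
      have hD' : GenData F π' I' Y :=
        { surj := fun c => by
            obtain ⟨x, rfl⟩ := hD.surj c
            exact ⟨mk x, hπ' x⟩
          adj := hD.adj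
          lift := fun y hy => by
            obtain ⟨x, hx, rfl⟩ := hD.lift y hy
            exact ⟨mk x, hI'2 _ hx, hπ' x⟩
          ker_le := fun x hx => by
            obtain ⟨y, hy, rfl⟩ := hker' x hx
            exact hI'2 _ (hD.ker_le hy) }
      have hf' : HoldsOn f (I' : Set (E ⧸ K)) := hf.map mk hI'
      have hZ' : RingHom.ker π' = tsp ((Z.image mk : Finset (E ⧸ K)) : Set (E ⧸ K)) := by
        refine le_antisymm ?_ (tsp_le ?_)
        · intro x hx
          obtain ⟨y, hy, rfl⟩ := hker' x hx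
          rw [hZ] at hy
          have := tsp_map (mk : E →+* (E ⧸ K)) (Z : Set E) y hy
          rw [Finset.coe_image]
          exact this
        · intro x hx
          rw [Finset.coe_image] at hx
          obtain ⟨z, hz, rfl⟩ := hx
          have : z ∈ N := by rw [hZ]; exact subset_tsp _ hz
          exact this
      have hr' : (RingHom.ker π') ^ (m + 1) = ⊥ := by
        rw [eq_bot_iff]
        intro x hx
        obtain ⟨y, hy, rfl⟩ := pow_lift (mk : E →+* (E ⧸ K)) hmk N _ hker' (m + 1) x hx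
        have : mk y = 0 := (hmk0 y).mpr hy
        exact this
      have hIH := ih (E ⧸ K) π' I' hD' hf' (Z.image mk) hZ' hr'
      -- ideals below `K` are finitely generated
      have hbelow : ∀ (J : Ideal E) [J.IsTwoSided], J ≤ K → ∃ Z' : Finset E, J = tsp Z' := by
        intro J _ hJK
        rcases Nat.eq_zero_or_pos m with rfl | hm1
        · have hr2 : N ^ 2 = ⊥ := hr
          rw [hK, zero_add, Submodule.pow_one] at hJK
          exact step_fg0 π I Y hD hr2 Z hZ J hJK
        · -- lift generators of `N ^ m` modulo `K`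
          have h1 : ((N ^ m).map (mk : E →+* (E ⧸ K))).IsTwoSided := ⟨by
            intro a b ha
            obtain ⟨y, hy, rfl⟩ := (Ideal.mem_map_iff_of_surjective _ hmk).mp ha
            obtain ⟨z, rfl⟩ := hmk b
            have := Ideal.mem_map_of_mem (mk : E →+* (E ⧸ K))
              ((N ^ m).mul_mem_right z hy)
            rw [map_mul] at this
            exact this⟩
          obtain ⟨B', hB'⟩ := hIH _ h1
          have h2 : ∀ b ∈ B', ∃ y ∈ N ^ m, mk y = b := by
            intro b hb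
            have : b ∈ (N ^ m).map (mk : E →+* (E ⧸ K)) := by
              rw [hB']; exact subset_tsp _ hb
            exact (Ideal.mem_map_iff_of_surjective _ hmk).mp this
          choose! g hg hg' using h2
          refine step_fg f i j hmid π I Y hD hf m hr Z hZ (B'.image g) ?_ ?_ hm1 J hJK
          · intro x hx
            rw [Finset.coe_image] at hx
            obtain ⟨b, hb, rfl⟩ := hx
            exact hg b hb
          · intro x hx
            have h3 : mk x ∈ tsp ((B' : Finset (E ⧸ K)) : Set (E ⧸ K)) := by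
              rw [← hB']; exact Ideal.mem_map_of_mem _ hx
            have h4 : ∀ y ∈ tsp ((B' : Finset (E ⧸ K)) : Set (E ⧸ K)),
                ∃ z ∈ tsp ((B'.image g : Finset E) : Set E), mk z = y := by
              intro y hy
              unfold tsp at hy
              induction hy using Submodule.span_induction with
              | mem y hy =>
                obtain ⟨b, hb, e, rfl⟩ := hy
                obtain ⟨e, rfl⟩ := hmk e
                refine ⟨g b * e, Ideal.mul_mem_right _ _ (subset_tsp _ ?_), ?_⟩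
                · rw [Finset.coe_image]; exact ⟨b, hb, rfl⟩
                · rw [map_mul, hg' b hb]
              | zero => exact ⟨0, zero_mem _, map_zero _⟩
              | add a b _ _ ha hb =>
                obtain ⟨a', ha', rfl⟩ := ha
                obtain ⟨b', hb', rfl⟩ := hb
                exact ⟨a' + b', add_mem ha' hb', map_add _ _ _⟩
              | smul r y _ hy =>
                obtain ⟨y', hy', rfl⟩ := hy
                obtain ⟨r, rfl⟩ := hmk r
                exact ⟨r * y', Ideal.mul_mem_left _ _ hy', map_mul _ _ _⟩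
            obtain ⟨z, hz, hzx⟩ := h4 _ h3
            refine Submodule.mem_sup.mpr ⟨z, hz, x - z, ?_, by abel⟩
            have : mk (x - z) = 0 := by rw [map_sub, hzx, sub_self]
            exact (hmk0 _).mp this
      -- conclude for `J`
      have hJt : (J.map (mk : E →+* (E ⧸ K))).IsTwoSided := ⟨by
        intro a b ha
        obtain ⟨y, hy, rfl⟩ := (Ideal.mem_map_iff_of_surjective _ hmk).mp ha
        obtain ⟨z, rfl⟩ := hmk b
        have := Ideal.mem_map_of_mem (mk : E →+* (E ⧸ K)) (J.mul_mem_right z hy)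
        rw [map_mul] at this
        exact this⟩
      obtain ⟨B', hB'⟩ := hIH _ hJt
      have h2 : ∀ b ∈ B', ∃ y ∈ J, mk y = b := by
        intro b hb
        have : b ∈ J.map (mk : E →+* (E ⧸ K)) := by
          rw [hB']; exact subset_tsp _ hb
        exact (Ideal.mem_map_iff_of_surjective _ hmk).mp this
      choose! g hg hg' using h2
      have hJKt : (J ⊓ K).IsTwoSided := ⟨fun b ha =>
        ⟨J.mul_mem_right _ ha.1, K.mul_mem_right _ ha.2⟩⟩
      obtain ⟨Z2, hZ2⟩ := hbelow (J ⊓ K) inf_le_right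
      refine ⟨B'.image g ∪ Z2, le_antisymm ?_ (tsp_le ?_)⟩
      · intro x hx
        have h3 : mk x ∈ tsp ((B' : Finset (E ⧸ K)) : Set (E ⧸ K)) := by
          rw [← hB']; exact Ideal.mem_map_of_mem _ hx
        have h4 : ∀ y ∈ tsp ((B' : Finset (E ⧸ K)) : Set (E ⧸ K)),
            ∃ z ∈ tsp ((B'.image g : Finset E) : Set E), mk z = y := by
          intro y hy
          unfold tsp at hy
          induction hy using Submodule.span_induction with
          | mem y hy =>
            obtain ⟨b, hb, e, rfl⟩ := hy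
            obtain ⟨e, rfl⟩ := hmk e
            refine ⟨g b * e, Ideal.mul_mem_right _ _ (subset_tsp _ ?_), ?_⟩
            · rw [Finset.coe_image]; exact ⟨b, hb, rfl⟩
            · rw [map_mul, hg' b hb]
          | zero => exact ⟨0, zero_mem _, map_zero _⟩
          | add a b _ _ ha hb =>
            obtain ⟨a', ha', rfl⟩ := ha
            obtain ⟨b', hb', rfl⟩ := hb
            exact ⟨a' + b', add_mem ha' hb', map_add _ _ _⟩
          | smul r y _ hy =>
            obtain ⟨y', hy', rfl⟩ := hy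
            obtain ⟨r, rfl⟩ := hmk r
            exact ⟨r * y', Ideal.mul_mem_left _ _ hy', map_mul _ _ _⟩
        obtain ⟨z, hz, hzx⟩ := h4 _ h3
        have hzJ : z ∈ J := by
          refine (tsp_le (J := J) ?_) hz
          intro y hy
          rw [Finset.coe_image] at hy
          obtain ⟨b, hb, rfl⟩ := hy
          exact hg b hb
        have hxz : x - z ∈ J ⊓ K := by
          refine ⟨sub_mem hx hzJ, ?_⟩
          have : mk (x - z) = 0 := by rw [map_sub, hzx, sub_self]
          exact (hmk0 _).mp this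
        have e : x = z + (x - z) := by abel
        rw [e]
        refine add_mem ?_ ?_
        · refine (tsp_le (J := tsp _) ?_) hz
          intro y hy
          refine subset_tsp _ ?_
          rw [Finset.coe_union]
          exact Or.inl hy
        · rw [hZ2] at hxz
          refine (tsp_le (J := tsp _) ?_) hxz
          intro y hy
          refine subset_tsp _ ?_
          rw [Finset.coe_union]
          exact Or.inr hy
      · intro x hx
        rw [Finset.coe_union] at hx
        rcases hx with hx | hx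
        · rw [Finset.coe_image] at hx
          obtain ⟨b, hb, rfl⟩ := hx
          exact hg b hb
        · have : x ∈ J ⊓ K := by rw [hZ2]; exact subset_tsp _ hx
          exact this.1

end
end LRF
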