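import Mathlib

/-!
# Statement of the criterion for locally residually finite varieties (MP_5aea19_al)

Algebras are associative and not necessarily unital, over a field `F`.  The free (nonunital)
associative algebra on letters `x_0, x_1, …` is `MonoidAlgebra F (FreeSemigroup ℕ)`.
-/

namespace LRF

universe u

/-- The free nonunital associative algebra on countably many letters. -/
abbrev FreeNU (F : Type u) [Field F] : Type u := MonoidAlgebra F (FreeSemigroup ℕ)

section
variable {F : Type u} [Field F]

/-- Value of a polynomial `f` at the substitution `x_l ↦ v l` in the algebra `A`. -/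
noncomputable def value {A : Type u} [NonUnitalRing A] [Module F A] [IsScalarTower F A A]
    [SMulCommClass F A A] (v : ℕ → A) (f : FreeNU F) : A :=
  MonoidAlgebra.liftMagma F (FreeSemigroup.lift v) f

variable (F) in
/-- `A` belongs to the variety defined by the set of identities `Σ`. -/
def InVariety (Id : Set (FreeNU F)) (A : Type u) [NonUnitalRing A] [Module F A]
    [IsScalarTower F A A] [SMulCommClass F A A] : Prop :=
  ∀ f ∈ Id, ∀ v : ℕ → A, value v f = 0

variable (F) in
/-- `A` is finitely generated as an (associative, not necessarily unital) algebra. -/
def FinGen (A : Type u) [NonUnitalRing A] [Module F A]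
    [IsScalarTower F A A] [SMulCommClass F A A] : Prop :=
  ∃ s : Finset A, NonUnitalAlgebra.adjoin F (s : Set A) = ⊤

variable (F) in
/-- `A` is residually finite: every nonzero element survives in some finite-dimensional
homomorphic image. -/
def ResFinite (A : Type u) [NonUnitalRing A] [Module F A]
    [IsScalarTower F A A] [SMulCommClass F A A] : Prop :=
  ∀ a : A, a ≠ 0 → ∃ (B : Type u) (_ : NonUnitalRing B) (_ : Module F B)
    (_ : IsScalarTower F B B) (_ : SMulCommClass F B B) (φ : A →ₙₐ[F] B),
    Module.Finite F B ∧ Function.Surjective φ ∧ φ a ≠ 0

/-- The variety defined by the identities `Id` is locally residually finite. -/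
def LocallyResFinite (Id : Set (FreeNU F)) : Prop :=
  ∀ (A : Type u) [NonUnitalRing A] [Module F A] [IsScalarTower F A A] [SMulCommClass F A A],
    InVariety F Id A → FinGen F A → ResFinite F A

/-- The commutative polynomial `∑ α_w [w']`, the sum being over the words `w = x_i w' x_j` of
`f = ∑ α_w w` (of length at least two), where `[w']` is the commutative monomial of `w'`. -/
noncomputable def middle (i j : ℕ) (f : FreeNU F) : MvPolynomial ℕ F :=
  Finsupp.sum f.coeff fun w c =>
    if w.head = i ∧ w.tail.getLast? = some j then
      MvPolynomial.C c * (w.tail.dropLast.map MvPolynomial.X).prod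
    else 0

end
end LRF
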