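import Pool.Agent.T2H69.LRF.Unital
import Pool.Agent.T2H69.LRF.Statement

/-!
# From nonunital algebras to their unitizations
-/

namespace LRF

universe u

section
variable {F : Type u} [Field F]

/-- The list of letters of a word. -/
def toL (w : FreeSemigroup ℕ) : List ℕ := w.head :: w.tail

theorem toL_injective : Function.Injective toL := by
  intro a b h
  obtain ⟨ah, at'⟩ := a
  obtain ⟨bh, bt⟩ := b
  simp only [toL, List.cons.injEq] at h
  rw [h.1, h.2]

/-- The polynomial as a function on lists. -/
noncomputable def fL (f : FreeNU F) : List ℕ →₀ F := Finsupp.mapDomain toL f.coeff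

theorem fL_nil (f : FreeNU F) : fL f [] = 0 := by
  unfold fL
  apply Finsupp.mapDomain_of_notMem_range
  rintro ⟨w, hw⟩
  simp [toL] at hw

theorem sum_fL {M : Type*} [AddCommMonoid M] (f : FreeNU F) (h : List ℕ → F → M) :
    (fL f).sum h = f.coeff.sum fun w c => h (toL w) c :=
  Finsupp.sum_mapDomain_index_inj toL_injective

theorem middleL_fL (i j : ℕ) (f : FreeNU F) : middleL i j (fL f) = middle i j f := by
  unfold middleL middle
  rw [sum_fL]
  rfl

variable {A : Type u} [NonUnitalRing A] [Module F A] [IsScalarTower F A A] [SMulCommClass F A A]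

omit [IsScalarTower F A A] [SMulCommClass F A A] in
theorem inr_lift (v : ℕ → A) (w : FreeSemigroup ℕ) :
    (Unitization.inr (FreeSemigroup.lift v w) : Unitization F A) =
      ((toL w).map (fun l => (Unitization.inr (v l) : Unitization F A))).prod := by
  induction w using FreeSemigroup.recOnMul with
  | ih1 x => simp [toL]
  | ih2 x y hx hy =>
    rw [map_mul, Unitization.inr_mul, hy, FreeSemigroup.lift_of]
    simp [toL]

theorem inr_value (v : ℕ → A) (f : FreeNU F) :
    (Unitization.inr (value v f) : Unitization F A) =
      evalW (fL f) (fun l => (Unitization.inr (v l) : Unitization F A)) := by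
  have hval : value v f = ∑ w ∈ f.coeff.support, f.coeff w • FreeSemigroup.lift v w := rfl
  unfold evalW
  rw [sum_fL, hval, Finsupp.sum]
  have h := map_sum (Unitization.inrNonUnitalAlgHom F A)
    (fun w => f.coeff w • FreeSemigroup.lift v w) f.coeff.support
  rw [show (Unitization.inr (∑ w ∈ f.coeff.support, f.coeff w • FreeSemigroup.lift v w) :
    Unitization F A) = Unitization.inrNonUnitalAlgHom F A
      (∑ w ∈ f.coeff.support, f.coeff w • FreeSemigroup.lift v w) from rfl, h]
  refine Finset.sum_congr rfl fun w _ => ?_
  rw [map_smul, ← inr_lift]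
  rfl

/-- the augmentation ideal of the unitization -/
noncomputable def augI (F : Type u) [Field F] (A : Type u) [NonUnitalRing A] [Module F A]
    [IsScalarTower F A A] [SMulCommClass F A A] : Ideal (Unitization F A) :=
  RingHom.ker (Unitization.fstHom F A)

instance : (augI F A).IsTwoSided := by
  unfold augI; infer_instance

theorem mem_augI {x : Unitization F A} : x ∈ augI F A ↔ x.fst = 0 := by
  unfold augI
  rw [RingHom.mem_ker]
  rfl

theorem eq_inr_of_mem {x : Unitization F A} (hx : x ∈ augI F A) :
    x = Unitization.inr x.snd := by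
  rw [mem_augI] at hx
  ext
  · simpa using hx
  · simp

theorem holdsOn_augI {f : FreeNU F} (hf : ∀ v : ℕ → A, value v f = 0) :
    HoldsOn (fL f) (augI F A : Set (Unitization F A)) := by
  intro v hv
  have h1 : v = fun l => (Unitization.inr ((v l).snd) : Unitization F A) := by
    funext l
    exact eq_inr_of_mem (hv l)
  rw [h1, ← inr_value, hf]
  rfl

theorem finite_augI [Finite F] : Finite (Unitization F A ⧸ augI F A) := by
  refine finite_quotient_of_map (T := F) (augI F A) (fun x => x.fst) ?_
  intro x y h
  have h' : x.fst = y.fst := h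
  rw [mem_augI]
  change x.fst - y.fst = 0
  rw [h', sub_self]

theorem finiteType_unitization (h : FinGen F A) : Algebra.FiniteType F (Unitization F A) := by
  classical
  obtain ⟨s, hs⟩ := h
  refine ⟨⟨s.image Unitization.inr, ?_⟩⟩
  rw [eq_top_iff]
  have key : ∀ a : A, (Unitization.inr a : Unitization F A) ∈
      Algebra.adjoin F ((s.image Unitization.inr : Finset (Unitization F A)) :
        Set (Unitization F A)) := by
    intro a
    have ha : a ∈ NonUnitalAlgebra.adjoin F (s : Set A) := by rw [hs]; trivial
    induction ha using NonUnitalAlgebra.adjoin_induction with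
    | mem x hx =>
      apply Algebra.subset_adjoin
      rw [Finset.coe_image]
      exact ⟨x, hx, rfl⟩
    | add x y _ _ hx hy => rw [Unitization.inr_add]; exact add_mem hx hy
    | zero => rw [Unitization.inr_zero]; exact zero_mem _
    | mul x y _ _ hx hy => rw [Unitization.inr_mul]; exact mul_mem hx hy
    | smul r x _ hx => rw [Unitization.inr_smul]; exact Subalgebra.smul_mem _ hx r
  intro x _
  rw [← Unitization.inl_fst_add_inr_snd_eq x]
  refine add_mem ?_ (key _)
  have : (Unitization.inl x.fst : Unitization F A) = algebraMap F (Unitization F A) x.fst := rfl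
  rw [this]
  exact Subalgebra.algebraMap_mem _ _

theorem resFinite_of_rf (h : RF (Unitization F A)) : ResFinite F A := by
  intro a ha
  have ha' : (Unitization.inr a : Unitization F A) ≠ 0 := by
    intro h0
    exact ha (Unitization.inr_injective (by rw [h0, Unitization.inr_zero]))
  obtain ⟨J, hJ, hfin, haJ⟩ := h _ ha'
  haveI := hJ
  haveI := hfin
  let ψ : A →ₙₐ[F] (Unitization F A ⧸ J) :=
    ((Ideal.Quotient.mkₐ F J : Unitization F A →ₐ[F] (Unitization F A ⧸ J)) :
      Unitization F A →ₙₐ[F] (Unitization F A ⧸ J)).comp (Unitization.inrNonUnitalAlgHom F A)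
  let B := NonUnitalAlgHom.range ψ
  haveI : Finite B := Subtype.finite
  refine ⟨B, inferInstance, inferInstance, inferInstance, inferInstance,
    NonUnitalAlgHom.rangeRestrict ψ, Module.Finite.of_finite, ?_, ?_⟩
  · rintro ⟨b, x, rfl⟩
    exact ⟨x, rfl⟩
  · intro h0
    apply haJ
    have h1 : ψ a = 0 := by
      have := congrArg Subtype.val h0
      exact this
    exact Ideal.Quotient.eq_zero_iff_mem.mp h1

end

section linear
variable {F : Type u} [Field F]

/-- `x_0 f x_1` -/
noncomputable def wrap (f : List ℕ →₀ F) : List ℕ →₀ F :=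
  Finsupp.mapDomain (fun w => 0 :: (w ++ [1])) f

theorem wrap_inj : Function.Injective (fun w : List ℕ => 0 :: (w ++ [1])) := by
  intro a b h
  simpa using h

theorem wrap_nil (f : List ℕ →₀ F) : wrap f [] = 0 := by
  unfold wrap
  apply Finsupp.mapDomain_of_notMem_range
  rintro ⟨w, hw⟩
  simp at hw

theorem sum_wrap {M : Type*} [AddCommMonoid M] (f : List ℕ →₀ F) (h : List ℕ → F → M) :
    (wrap f).sum h = f.sum fun w c => h (0 :: (w ++ [1])) c :=
  Finsupp.sum_mapDomain_index_inj wrap_inj

theorem evalW_wrap {E : Type*} [Ring E] [Algebra F E] (f : List ℕ →₀ F) (v : ℕ → E) :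
    evalW (wrap f) v = v 0 * evalW f v * v 1 := by
  unfold evalW
  rw [sum_wrap, Finsupp.mul_sum, Finsupp.sum_mul]
  refine Finsupp.sum_congr fun w _ => ?_
  simp [mul_assoc]

theorem middleL_wrap (f : List ℕ →₀ F) :
    middleL 0 1 (wrap f) =
      f.sum fun w c => MvPolynomial.C c * (w.map MvPolynomial.X).prod := by
  unfold middleL
  rw [sum_wrap]
  refine Finsupp.sum_congr fun w _ => ?_
  simp

theorem coeff_prod_X (w : List ℕ) (i : ℕ) :
    MvPolynomial.coeff (Finsupp.single i 1)
      ((w.map (fun l => (MvPolynomial.X l : MvPolynomial ℕ F))).prod) =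
      if w = [i] then 1 else 0 := by
  have h1 : (w.map (fun l => (MvPolynomial.X l : MvPolynomial ℕ F))).prod =
      MvPolynomial.monomial ((w.map (fun l => Finsupp.single l 1)).sum) 1 := by
    induction w with
    | nil => simp
    | cons a t ih =>
      rw [List.map_cons, List.prod_cons, ih, List.map_cons, List.sum_cons, MvPolynomial.X,
        MvPolynomial.monomial_mul, one_mul]
  rw [h1, MvPolynomial.coeff_monomial]
  congr 1
  refine propext ⟨fun h => ?_, fun h => by rw [h]; simp⟩
  have hdeg := congrArg Finsupp.degree h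
  have hd : ∀ w : List ℕ, Finsupp.degree ((w.map (fun l => Finsupp.single l 1)).sum) =
      w.length := by
    intro w
    induction w with
    | nil => simp
    | cons a t ih => simp [ih, add_comm]
  rw [hd] at hdeg
  simp only [Finsupp.degree_single] at hdeg
  obtain ⟨a, rfl⟩ := List.length_eq_one_iff.mp hdeg
  simp only [List.map_cons, List.map_nil, List.sum_cons, List.sum_nil, add_zero] at h
  have := (Finsupp.single_left_inj (one_ne_zero)).mp h
  rw [this]

theorem middleL_wrap_ne_zero (f : List ℕ →₀ F) (i : ℕ) (h : f [i] ≠ 0) :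
    middleL 0 1 (wrap f) ≠ 0 := by
  classical
  intro h0
  have h1 := congrArg (MvPolynomial.coeff (Finsupp.single i 1)) h0
  rw [middleL_wrap, Finsupp.sum, MvPolynomial.coeff_sum, MvPolynomial.coeff_zero] at h1
  apply h
  rw [← h1]
  have h2 : ∀ w ∈ f.support, MvPolynomial.coeff (Finsupp.single i 1)
      (MvPolynomial.C (f w) * (w.map MvPolynomial.X).prod) = if w = [i] then f w else 0 := by
    intro w _
    rw [MvPolynomial.coeff_C_mul]
    have := coeff_prod_X (F := F) w i
    rw [this]
    split_ifs <;> simp
  rw [Finset.sum_congr rfl h2, Finset.sum_ite_eq']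
  split_ifs with hmem
  · rfl
  · simpa using hmem

theorem fL_single (f : FreeNU F) (i : ℕ) : fL f [i] = f.coeff (FreeSemigroup.of i) := by
  unfold fL
  exact Finsupp.mapDomain_apply toL_injective f.coeff (FreeSemigroup.of i)

end linear

end LRF
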