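import Mathlib

/-!
# Integrality from a characteristic identity (MP_5aea19_al, task T6)
-/

namespace LRF

open scoped BigOperators

section Char

variable {F D : Type*} [Field F] [CommRing D] [IsDomain D] [Algebra F D]

/-- The monoid homomorphism `q ↦ ∏ k, q(z k) ^ e k`. -/
noncomputable def mh (z : Fin 3 → D) (e : Fin 3 → ℕ) : Polynomial F →* D where
  toFun q := ∏ k, (Polynomial.aeval (z k) q) ^ (e k)
  map_one' := by simp
  map_mul' a b := by simp [mul_pow, Finset.prod_mul_distrib]

omit [IsDomain D] in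
theorem mh_apply (z : Fin 3 → D) (e : Fin 3 → ℕ) (q : Polynomial F) :
    mh z e q = ∏ k, (Polynomial.aeval (z k) q) ^ (e k) := rfl

theorem star {ι : Type*} (z : Fin 3 → D) (s : Finset ι) (a : ι → Fin 3 → ℕ) (c : ι → D)
    (h : ∀ q : Polynomial F, q.coeff 0 = 0 → ∑ i ∈ s, c i * mh z (a i) q = 0)
    (i : ι) (hi : i ∈ s) (hne : c i * mh z (a i) (Polynomial.X : Polynomial F) ≠ 0) :
    ∃ j ∈ s, j ≠ i ∧ c j ≠ 0 ∧ (mh z (a j) : Polynomial F →* D) = mh z (a i) := by
  classical
  by_contra hcon
  push Not at hcon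
  have hlin := linearIndependent_monoidHom (Polynomial F) D
  rw [linearIndependent_iff'] at hlin
  -- coefficients
  let d : (Polynomial F →* D) → D := fun φ =>
    ∑ j ∈ s.filter (fun j => (mh z (a j) : Polynomial F →* D) = φ),
      c j * mh z (a j) (Polynomial.X : Polynomial F)
  have hsum : ∑ φ ∈ s.image (fun j => (mh z (a j) : Polynomial F →* D)),
      d φ • (φ : Polynomial F → D) = 0 := by
    funext q
    have h1 := h (Polynomial.X * q) (by simp)
    simp only [map_mul] at h1
    rw [Finset.sum_apply, Pi.zero_apply, ← h1]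
    rw [← Finset.sum_fiberwise_of_maps_to (g := fun j => (mh z (a j) : Polynomial F →* D))
      (t := s.image (fun j => (mh z (a j) : Polynomial F →* D)))
      (fun j hj => Finset.mem_image_of_mem _ hj)]
    refine Finset.sum_congr rfl fun φ _ => ?_
    simp only [Pi.smul_apply, smul_eq_mul, d, Finset.sum_mul]
    refine Finset.sum_congr rfl fun j hj => ?_
    rw [(Finset.mem_filter.mp hj).2]
    ring
  have h0 := hlin _ d hsum (mh z (a i)) (Finset.mem_image_of_mem _ hi)
  have h2 : d (mh z (a i)) = c i * mh z (a i) (Polynomial.X : Polynomial F) := by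
    simp only [d]
    refine Finset.sum_eq_single_of_mem i (by simp [hi]) ?_
    intro j hj hji
    rw [Finset.mem_filter] at hj
    by_cases hc : c j = 0
    · simp [hc]
    · exact absurd hj.2 (hcon j hj.1 hji hc)
  exact hne (h2 ▸ h0)

theorem no_relation (z : Fin 3 → D) (e : Fin 3 → ℕ) (he : e ≠ 0) :
    ¬ ∀ q : Polynomial F, q ≠ 0 → mh z e q = 1 := by
  classical
  suffices H : ∀ n : ℕ, ∀ e : Fin 3 → ℕ, e ≠ 0 → ∑ k, e k = n →
      ¬ ∀ q : Polynomial F, q ≠ 0 → mh z e q = 1 from H _ e he rfl
  intro n
  induction n using Nat.strong_induction_on with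
  | _ n ih =>
    intro e he hn h
    let s : Finset (Fin 3 → ℕ) := (Fintype.piFinset fun k => Finset.range (e k + 1)).erase 0
    let c : (Fin 3 → ℕ) → D := fun p => ∏ k, ((e k).choose (p k) : D)
    have hs : ∀ q : Polynomial F, q.coeff 0 = 0 → ∑ p ∈ s, c p * mh z p q = 0 := by
      intro q hq
      have h1 : (1 + q) ≠ 0 := by
        intro h0
        have := congrArg (fun r => Polynomial.coeff r 0) h0
        simp [hq] at this
      have h2 := h _ h1
      rw [mh_apply] at h2
      have h3 : ∏ k, (Polynomial.aeval (z k) (1 + q)) ^ (e k) =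
          ∑ p ∈ Fintype.piFinset (fun k => Finset.range (e k + 1)), c p * mh z p q := by
        have : ∀ k, (Polynomial.aeval (z k) (1 + q)) ^ (e k) =
            ∑ j ∈ Finset.range (e k + 1), ((e k).choose j : D) * (Polynomial.aeval (z k) q) ^ j := by
          intro k
          rw [map_add, map_one, add_comm, add_pow]
          refine Finset.sum_congr rfl fun j _ => ?_
          simp [mul_comm]
        simp only [this]
        rw [Finset.prod_univ_sum]
        refine Finset.sum_congr rfl fun p _ => ?_
        rw [Finset.prod_mul_distrib, mh_apply]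
      rw [h3] at h2
      have h4 : (0 : Fin 3 → ℕ) ∈ Fintype.piFinset (fun k => Finset.range (e k + 1)) := by
        simp
      rw [← Finset.add_sum_erase _ _ h4] at h2
      have h5 : c 0 * mh z 0 q = 1 := by simp [c, mh_apply]
      rw [h5] at h2
      exact add_eq_left.mp h2
    have hX : mh z e (Polynomial.X : Polynomial F) = 1 := h _ Polynomial.X_ne_zero
    obtain ⟨p, hp, hpe, hcp, hmh⟩ := star z s id c hs e (by simp [s, he])
      (by simp [hX, c])
    have hp0 : p ≠ 0 := (Finset.mem_erase.mp hp).1
    have hple : ∀ k, p k ≤ e k := by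
      intro k
      have := (Fintype.mem_piFinset.mp (Finset.mem_erase.mp hp).2) k
      simpa [Nat.lt_succ_iff] using this
    have hlt : ∑ k, p k < n := by
      rw [← hn]
      refine Finset.sum_lt_sum (fun k _ => hple k) ?_
      by_contra hcon
      push Not at hcon
      exact hpe (funext fun k => le_antisymm (hple k) (hcon k (Finset.mem_univ k)))
    refine ih _ hlt p hp0 rfl ?_
    intro q hq
    have : mh z p = (mh z e : Polynomial F →* D) := hmh
    rw [this]
    exact h q hq

theorem isIntegral_of_char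
    (z : Fin 3 → D) (G : MvPolynomial (Fin 3) F)
    (hG : ∃ n : ℕ, G.coeff (Finsupp.single 1 n) ≠ 0)
    (h : ∀ q : Polynomial F, q.coeff 0 = 0 →
      MvPolynomial.aeval (fun i => Polynomial.aeval (z i) q) G = 0) :
    IsIntegral (Algebra.adjoin F ({z 0, z 2} : Set D)) (z 1) := by
  classical
  by_contra hnot
  obtain ⟨n, hn⟩ := hG
  have hz1 : z 1 ≠ 0 := by
    intro h0
    exact hnot (h0 ▸ isIntegral_zero)
  have htr : ∀ q : Polynomial F, q ≠ 0 → Polynomial.aeval (z 1) q ≠ 0 := by
    intro q hq h0
    have h1 : IsAlgebraic F (z 1) := ⟨q, hq, h0⟩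
    have h2 : IsIntegral F (z 1) := h1.isIntegral
    exact hnot (h2.tower_top)
  -- apply star
  have hs : ∀ q : Polynomial F, q.coeff 0 = 0 →
      ∑ e ∈ G.support, algebraMap F D (G.coeff e) * mh z (e : Fin 3 → ℕ) q = 0 := by
    intro q hq
    have := h q hq
    rw [MvPolynomial.aeval_def, MvPolynomial.eval₂_eq'] at this
    simpa [mh_apply] using this
  have hsingle : mh z ((Finsupp.single 1 n : Fin 3 →₀ ℕ) : Fin 3 → ℕ) (F := F) =
      mh z (Pi.single 1 n : Fin 3 → ℕ) := by
    rw [Finsupp.single_eq_pi_single]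
  have happ : ∀ q : Polynomial F, mh z (Pi.single 1 n : Fin 3 → ℕ) q =
      (Polynomial.aeval (z 1) q) ^ n := by
    intro q
    simp [mh_apply, Pi.single_apply]
  obtain ⟨e, he, hne, -, hmh⟩ := star z G.support (fun e => (e : Fin 3 → ℕ))
    (fun e => algebraMap F D (G.coeff e)) hs (Finsupp.single 1 n)
    (by simpa [MvPolynomial.mem_support_iff] using hn)
    (by
      rw [hsingle, happ]
      simp only [Polynomial.aeval_X]
      refine mul_ne_zero ?_ (pow_ne_zero _ hz1)
      simpa using hn)
  rw [hsingle] at hmh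
  have hq : ∀ q : Polynomial F, (Polynomial.aeval (z 0) q) ^ (e 0) *
      (Polynomial.aeval (z 1) q) ^ (e 1) * (Polynomial.aeval (z 2) q) ^ (e 2) =
      (Polynomial.aeval (z 1) q) ^ n := by
    intro q
    have := DFunLike.congr_fun hmh q
    rw [happ, mh_apply, Fin.prod_univ_three] at this
    exact this
  rcases lt_or_ge (e 1) n with hlt | hge
  · -- integrality
    have hX := hq Polynomial.X
    simp only [Polynomial.aeval_X] at hX
    apply hnot
    set R := Algebra.adjoin F ({z 0, z 2} : Set D) with hR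
    let r : R := ⟨z 0, Algebra.subset_adjoin (by simp)⟩ ^ (e 0) *
      ⟨z 2, Algebra.subset_adjoin (by simp)⟩ ^ (e 2)
    have hr : (r : D) = z 0 ^ (e 0) * z 2 ^ (e 2) := by simp [r]
    refine ⟨Polynomial.X ^ n - Polynomial.C r * Polynomial.X ^ (e 1), ?_, ?_⟩
    · apply Polynomial.monic_X_pow_sub
      refine lt_of_le_of_lt (Polynomial.degree_C_mul_X_pow_le _ _) ?_
      exact_mod_cast hlt
    · rw [Polynomial.eval₂_sub, Polynomial.eval₂_mul, Polynomial.eval₂_X_pow, Polynomial.eval₂_X_pow,
        Polynomial.eval₂_C]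
      have : (algebraMap R D) r = z 0 ^ (e 0) * z 2 ^ (e 2) := hr
      rw [this, ← hX]
      ring
  · let e' : Fin 3 → ℕ := ![e 0, e 1 - n, e 2]
    refine no_relation (F := F) z e' ?_ ?_
    · intro h0
      apply hne
      have h00 : e 0 = 0 := congrFun h0 0
      have h01 : e 1 - n = 0 := congrFun h0 1
      have h02 : e 2 = 0 := congrFun h0 2
      have h01' : e 1 = n := by omega
      ext k
      fin_cases k
      · simp [h00]
      · simp [h01']
      · simp [h02]
    · intro q hq0
      have h1 := hq q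
      have h2 : (Polynomial.aeval (z 1) q) ^ n ≠ 0 := pow_ne_zero _ (htr q hq0)
      rw [mh_apply, Fin.prod_univ_three]
      simp only [e', Matrix.cons_val_zero, Matrix.cons_val_one, Matrix.cons_val]
      apply mul_right_cancel₀ h2
      rw [one_mul]
      conv_rhs => rw [← h1]
      have h3 : (Polynomial.aeval (z 1) q) ^ (e 1) =
          (Polynomial.aeval (z 1) q) ^ (e 1 - n) * (Polynomial.aeval (z 1) q) ^ n := by
        rw [← pow_add, Nat.sub_add_cancel hge]
      rw [h3]
      ring

end Char

theorem isIntegral_of_forall_prime {R B : Type*} [CommRing R] [CommRing B] [Algebra R B] (t : B)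
    (h : ∀ P : Ideal B, P.IsPrime → IsIntegral R (Ideal.Quotient.mk P t)) : IsIntegral R t := by
  classical
  let M : Submonoid B :=
    { carrier := {b | ∃ p : Polynomial R, p.Monic ∧ Polynomial.aeval t p = b}
      one_mem' := ⟨1, Polynomial.monic_one, by simp⟩
      mul_mem' := by
        rintro a b ⟨p, hp, rfl⟩ ⟨q, hq, rfl⟩
        exact ⟨p * q, hp.mul hq, by simp⟩ }
  by_cases h0 : (0 : B) ∈ M
  · obtain ⟨p, hp, hp0⟩ := h0
    exact ⟨p, hp, by rw [← Polynomial.aeval_def]; exact hp0⟩
  · obtain ⟨P, hP, -, hdisj⟩ := Ideal.exists_le_prime_disjoint (⊥ : Ideal B) M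
      (by
        rw [Set.disjoint_left]
        intro x hx hxM
        have : x = 0 := by simpa using hx
        exact h0 (this ▸ hxM))
    exfalso
    obtain ⟨p, hp, hp0⟩ := h P hP
    have h1 : Polynomial.aeval t p ∈ P := by
      rw [← Ideal.Quotient.eq_zero_iff_mem]
      have h2 : Polynomial.aeval (Ideal.Quotient.mk P t) p =
          Ideal.Quotient.mk P (Polynomial.aeval t p) := by
        have := Polynomial.aeval_algHom_apply (Ideal.Quotient.mkₐ R P) t p
        simpa using this
      rw [← h2, Polynomial.aeval_def]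
      exact hp0
    exact Set.disjoint_left.mp hdisj h1 ⟨p, hp, rfl⟩

end LRF
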