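import Pool.Agent.T2H69.LRF.Defs

/-!
# Multilinear identities pass to the additive closure
-/

namespace LRF

section
variable {F E : Type*} [Field F] [Ring E] [Algebra F E]

omit [Ring E] in
theorem map_update_of_notMem (v : ℕ → E) (l : ℕ) (x : E) (w : List ℕ) (h : l ∉ w) :
    w.map (Function.update v l x) = w.map v := by
  refine List.map_congr_left fun a ha => ?_
  rw [Function.update_of_ne]
  rintro rfl
  exact h ha

theorem exists_split (v : ℕ → E) (l : ℕ) (w : List ℕ) (hw : w.Nodup) (hl : l ∈ w) :
    ∃ p q : E, ∀ x : E, (w.map (Function.update v l x)).prod = p * x * q := by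
  obtain ⟨w1, w2, rfl⟩ := List.append_of_mem hl
  rw [List.nodup_middle, List.nodup_cons, List.mem_append, not_or] at hw
  refine ⟨(w1.map v).prod, (w2.map v).prod, fun x => ?_⟩
  rw [List.map_append, List.map_cons, List.prod_append, List.prod_cons,
    map_update_of_notMem _ _ _ _ hw.1.1, map_update_of_notMem _ _ _ _ hw.1.2,
    Function.update_self, mul_assoc]

/-- `evalW g` is additive in each of its letters. -/
theorem exists_additive (g : List ℕ →₀ F) (S : Finset ℕ) (hS : IsMultilin g S)
    (v : ℕ → E) (l : ℕ) (hl : l ∈ S) :
    ∃ φ : E →+ E, ∀ x, evalW g (Function.update v l x) = φ x := by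
  have h1 : ∀ w : g.support, ∃ p q : E, ∀ x : E,
      ((w : List ℕ).map (Function.update v l x)).prod = p * x * q := fun w => by
    obtain ⟨h1, h2⟩ := hS w w.2
    refine exists_split v l w h1 ?_
    rw [← List.mem_toFinset, h2]
    exact hl
  choose p q hpq using h1
  refine ⟨∑ w : g.support, ((AddMonoidHom.mulLeft (algebraMap F E (g w) * p w)).comp
    (AddMonoidHom.mulRight (q w))), fun x => ?_⟩
  rw [evalW, Finsupp.sum, ← Finset.sum_coe_sort, AddMonoidHom.finsetSum_apply]
  refine Finset.sum_congr rfl fun w _ => ?_
  rw [hpq, Algebra.smul_def]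
  simp [mul_assoc]

theorem evalW_congr (g : List ℕ →₀ F) (S : Finset ℕ) (hS : IsMultilin g S)
    (v v' : ℕ → E) (h : ∀ l ∈ S, v l = v' l) : evalW g v = evalW g v' := by
  rw [evalW, evalW, Finsupp.sum, Finsupp.sum]
  refine Finset.sum_congr rfl fun w hw => ?_
  have : w.map v = w.map v' := by
    refine List.map_congr_left fun a ha => h a ?_
    rw [← (hS w hw).2, List.mem_toFinset]
    exact ha
  rw [this]

/-- A multilinear identity which holds on a nonempty set holds on its additive closure. -/
theorem holdsOn_closure (g : List ℕ →₀ F) (S : Finset ℕ) (hS : IsMultilin g S)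
    (G : Set E) (hG : G.Nonempty) (h : HoldsOn g G) :
    HoldsOn g (AddSubgroup.closure G : Set E) := by
  classical
  obtain ⟨x0, hx0⟩ := hG
  have key : ∀ T : Finset ℕ, T ⊆ S → ∀ v : ℕ → E, (∀ l ∈ T, v l ∈ AddSubgroup.closure G) →
      (∀ l ∉ T, v l ∈ G) → evalW g v = 0 := by
    intro T
    induction T using Finset.induction_on with
    | empty => intro _ v _ hv; exact h v fun l => hv l (Finset.notMem_empty l)
    | insert l T hl ih =>
      intro hTS v hv1 hv2
      obtain ⟨φ, hφ⟩ := exists_additive g S hS v l (hTS (Finset.mem_insert_self _ _))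
      have h1 : AddSubgroup.closure G ≤ φ.ker := by
        rw [AddSubgroup.closure_le]
        intro x hx
        change φ x = 0
        rw [← hφ]
        refine ih (fun a ha => hTS (Finset.mem_insert_of_mem ha)) _ (fun a ha => ?_)
          (fun a ha => ?_)
        · have : a ≠ l := fun hal => hl (hal ▸ ha)
          rw [Function.update_of_ne this]
          exact hv1 a (Finset.mem_insert_of_mem ha)
        · by_cases hal : a = l
          · subst hal; rw [Function.update_self]; exact hx
          · rw [Function.update_of_ne hal]
            exact hv2 a (by simp [hal, ha])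
      have h2 : v l ∈ φ.ker := h1 (hv1 l (Finset.mem_insert_self _ _))
      have h3 : φ (v l) = 0 := h2
      rw [← hφ, Function.update_eq_self] at h3
      exact h3
  intro v hv
  have h1 := key S subset_rfl (fun l => if l ∈ S then v l else x0)
    (fun l hl => by simp only [hl, if_true]; exact hv l)
    (fun l hl => by simp only [hl, if_false]; exact hx0)
  rw [← h1]
  refine evalW_congr g S hS _ _ fun l hl => ?_
  simp [hl]

end

end LRF
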