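import Pool.Agent.T2H69.LRF.CommStep2

/-!
# An ideal of finite index which is commutative modulo the Jacobson radical
-/

namespace LRF

universe u v

theorem finite_algHom {F E B : Type*} [Field F] [Ring E] [Algebra F E]
    (hE : Algebra.FiniteType F E) [Ring B] [Algebra F B] [Finite B] : Finite (E →ₐ[F] B) := by
  obtain ⟨X, hX⟩ := hE.out
  refine Finite.of_injective (fun (φ : E →ₐ[F] B) (x : X) => φ x) fun φ ψ h => ?_
  refine AlgHom.ext_of_adjoin_eq_top hX fun x hx => ?_
  exact congrFun h ⟨x, hx⟩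

/-- A module of cardinality at most `m0` is killed by the common kernel of the small matrix
representations. -/
theorem exists_rep {F : Type*} {E : Type u} [Field F] [Finite F] [Ring E] [Algebra F E]
    (M : Type u) [AddCommGroup M] [Module E M] [Finite M] (m0 : ℕ) (hM : Nat.card M ≤ m0) :
    ∃ (k : Fin (m0 + 1)) (φ : E →ₐ[F] Matrix (Fin k) (Fin k) F),
      ∀ x : E, φ x = 0 → ∀ m : M, x • m = 0 := by
  classical
  let _ : Module F M := Module.compHom M (algebraMap F E)
  have : IsScalarTower F E M := ⟨fun c e m => by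
    rw [Algebra.smul_def, mul_smul]; rfl⟩
  have : SMulCommClass E F M := ⟨fun e c m => by
    change e • (algebraMap F E c) • m = (algebraMap F E c) • e • m
    rw [smul_smul, smul_smul, Algebra.commutes]⟩
  have : Module.Finite F M := Module.Finite.of_finite
  have hk : Module.finrank F M < m0 + 1 := by
    have h1 : Nat.card M = Nat.card F ^ Module.finrank F M := Module.natCard_eq_pow_finrank
    have h2 : 1 < Nat.card F := Finite.one_lt_card
    have h3 : Module.finrank F M < Nat.card F ^ Module.finrank F M := Nat.lt_pow_self h2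
    omega
  refine ⟨⟨Module.finrank F M, hk⟩,
    ((algEquivMatrix (Module.finBasis F M)).toAlgHom).comp (Algebra.lsmul F F M), ?_⟩
  intro x hx m
  have h1 : (Algebra.lsmul F F M x : Module.End F M) = 0 := by
    have : (algEquivMatrix (Module.finBasis F M)) (Algebra.lsmul F F M x) = 0 := hx
    exact (map_eq_zero_iff _ (AlgEquiv.injective _)).1 this
  have h2 := congrArg (fun φ : Module.End F M => φ m) h1
  simpa using h2

theorem exists_comm_ideal {F E : Type*} [Field F] [Finite F] [Ring E] [Algebra F E]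
    (hE : Algebra.FiniteType F E) (A : Ideal E) [A.IsTwoSided] [Finite (E ⧸ A)]
    (f : List ℕ →₀ F) (i j : ℕ) (hmid : middleL i j f ≠ 0) (hf : HoldsOn f (A : Set E))
    (g : List ℕ →₀ F) (S : Finset ℕ) (hg : g ≠ 0) (hS : IsMultilin g S)
    (hgA : HoldsOn g (A : Set E)) :
    ∃ I : Ideal E, I.IsTwoSided ∧ I ≤ A ∧ Finite (E ⧸ I) ∧
      ∀ a ∈ I, ∀ b ∈ I, a * b - b * a ∈ Ring.jacobson E := by
  classical
  obtain ⟨m0, hm0⟩ := exists_card_bound hE A f i j hmid hf g S hg hS hgA
  let Φ : E →+* ((E ⧸ A) × (∀ k : Fin (m0 + 1),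
      (E →ₐ[F] Matrix (Fin k) (Fin k) F) → Matrix (Fin k) (Fin k) F)) :=
    RingHom.prod (Ideal.Quotient.mk A)
      (RingHom.pi fun k => RingHom.pi fun φ => (φ : E →+* Matrix (Fin k) (Fin k) F))
  have hfinH : ∀ k : Fin (m0 + 1), Finite (E →ₐ[F] Matrix (Fin k) (Fin k) F) := fun k =>
    finite_algHom hE
  have hA : ∀ x ∈ RingHom.ker Φ, x ∈ A := by
    intro x hx
    have h := congrArg Prod.fst ((RingHom.mem_ker).1 hx)
    exact Ideal.Quotient.eq_zero_iff_mem.1 h
  have hrep : ∀ x ∈ RingHom.ker Φ, ∀ (k : Fin (m0 + 1)) (φ : E →ₐ[F] Matrix (Fin k) (Fin k) F),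
      φ x = 0 := by
    intro x hx k φ
    have h := congrArg Prod.snd ((RingHom.mem_ker).1 hx)
    exact congrFun (congrFun h k) φ
  refine ⟨RingHom.ker Φ, inferInstance, hA, ?_, ?_⟩
  · exact Finite.of_injective _ (RingHom.kerLift_injective Φ)
  · intro a ha b hb
    rw [Ring.jacobson, Module.jacobson, Submodule.mem_sInf]
    intro m hm
    by_contra hnot
    have hsimple : IsSimpleModule E (E ⧸ m) := isSimpleModule_iff_isCoatom.2 hm
    have hne : (a * b - b * a) • (Submodule.Quotient.mk (1 : E) : E ⧸ m) ≠ 0 := by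
      rw [← Submodule.Quotient.mk_smul, smul_eq_mul, mul_one]
      intro h0
      exact hnot ((Submodule.Quotient.mk_eq_zero m).1 h0)
    obtain ⟨hfin, hcard⟩ := hm0 (E ⧸ m) ⟨a, hA a ha, b, hA b hb, _, hne⟩
    obtain ⟨k, φ, hφ⟩ := exists_rep (F := F) (E := E) (E ⧸ m) m0 hcard
    apply hne
    rw [sub_smul, mul_smul, mul_smul, hφ a (hrep a ha k φ), hφ b (hrep b hb k φ), sub_self]

end LRF
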