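import Mathlib

/-!
# Residual finiteness of finitely generated modules over finitely generated commutative algebras
-/

namespace LRF

theorem exists_finite_quotient {F R P : Type*} [Field F] [Finite F] [CommRing R] [Algebra F R]
    [Algebra.FiniteType F R] [AddCommGroup P] [Module R P] [Module.Finite R P]
    (K : Submodule R P) (p : P) (hp : p ∉ K) :
    ∃ Q : Submodule R P, K ≤ Q ∧ p ∉ Q ∧ Finite (P ⧸ Q) := by
  have hR : IsNoetherianRing R := Algebra.FiniteType.isNoetherianRing F R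
  have hP : IsNoetherian R P := inferInstance
  obtain ⟨Q, ⟨hKQ, hpQ⟩, hmax⟩ := (wellFounded_gt (α := Submodule R P)).has_min
    {Q | K ≤ Q ∧ p ∉ Q} ⟨K, le_rfl, hp⟩
  refine ⟨Q, hKQ, hpQ, ?_⟩
  have hmax' : ∀ Q' : Submodule R P, Q < Q' → p ∈ Q' := by
    intro Q' hQ'
    by_contra h
    exact hmax Q' ⟨hKQ.trans hQ'.le, h⟩ hQ'
  set p' : P ⧸ Q := Submodule.Quotient.mk p with hp'
  have hp'0 : p' ≠ 0 := by
    rw [hp', Ne, Submodule.Quotient.mk_eq_zero]; exact hpQ
  -- every nonzero submodule of `P/Q` contains `p'`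
  have hess : ∀ V : Submodule R (P ⧸ Q), V ≠ ⊥ → p' ∈ V := by
    intro V hV
    have h1 : Q < V.comap Q.mkQ := by
      refine lt_of_le_of_ne ?_ ?_
      · intro x hx
        rw [Submodule.mem_comap, Submodule.mkQ_apply, (Submodule.Quotient.mk_eq_zero Q).mpr hx]
        exact V.zero_mem
      · intro h
        apply hV
        rw [eq_bot_iff]
        intro x hx
        obtain ⟨y, rfl⟩ := Submodule.Quotient.mk_surjective Q x
        have : y ∈ V.comap Q.mkQ := hx
        rw [← h] at this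
        rw [Submodule.mem_bot, Submodule.Quotient.mk_eq_zero]; exact this
    exact hmax' _ h1
  -- the annihilator of `p'` is maximal
  set m : Ideal R := LinearMap.ker (LinearMap.toSpanSingleton R (P ⧸ Q) p') with hm
  have hmem : ∀ r, r ∈ m ↔ r • p' = 0 := fun r => by
    rw [hm, LinearMap.mem_ker, LinearMap.toSpanSingleton_apply]
  have hmax_m : m.IsMaximal := by
    rw [Ideal.isMaximal_iff]
    refine ⟨by rw [hmem, one_smul]; exact hp'0, fun J x hJ hxm hxJ => ?_⟩
    have h1 : Submodule.span R {x • p'} ≠ ⊥ := by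
      rw [Ne, Submodule.span_singleton_eq_bot]
      exact fun h => hxm ((hmem x).mpr h)
    obtain ⟨r, hr⟩ := Submodule.mem_span_singleton.mp (hess _ h1)
    have h2 : 1 - r * x ∈ m := by
      rw [hmem, sub_smul, one_smul, mul_smul, hr, sub_self]
    have h3 := J.add_mem (hJ h2) (J.mul_mem_left r hxJ)
    simpa using h3
  have hfm : Finite (R ⧸ m) := by
    letI := Ideal.Quotient.field m
    have : Module.Finite F (R ⧸ m) := finite_of_finite_type_of_isJacobsonRing F (R ⧸ m)
    exact Module.finite_of_finite F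
  -- Krull intersection
  have hk : ∃ i : ℕ, p' ∉ (m ^ i • ⊤ : Submodule R (P ⧸ Q)) := by
    by_contra hcon
    push Not at hcon
    have h1 : p' ∈ (⨅ i : ℕ, m ^ i • ⊤ : Submodule R (P ⧸ Q)) := by
      rw [Submodule.mem_iInf]; exact hcon
    obtain ⟨⟨r, hr⟩, hrp⟩ := (Ideal.mem_iInf_smul_pow_eq_bot_iff m p').mp h1
    apply hp'0
    rw [← hrp]
    exact (hmem r).mp hr
  obtain ⟨i, hi⟩ := hk
  have hbot : (m ^ i • ⊤ : Submodule R (P ⧸ Q)) = ⊥ := by
    by_contra h
    exact hi (hess _ h)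
  have hfi : Finite (R ⧸ m ^ i) := Ideal.finite_quotient_pow (IsNoetherian.noetherian m) i
  have hft : Finite ((P ⧸ Q) ⧸ (⊤ : Submodule R (P ⧸ Q))) := inferInstance
  have h2 : Finite ((P ⧸ Q) ⧸ (m ^ i • ⊤ : Submodule R (P ⧸ Q))) :=
    Submodule.finite_quotient_smul _ (Module.Finite.fg_top)
  rw [hbot] at h2
  exact Finite.of_equiv _ (Submodule.quotEquivOfEqBot (⊥ : Submodule R (P ⧸ Q)) rfl).toEquiv

end LRF
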