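import Pool.Agent.T2H69.LRF.Key

/-!
# Two by two matrices over large fields do not satisfy `f`

If the middle polynomial of `f` is nonzero, then over every sufficiently large finite field `K`
there are matrices `X_l = !![α_l, γ_l; β_l, 0]` with `(f(X))₁₁ ≠ 0`.
-/

namespace LRF

open Polynomial

section
variable {F : Type*} [Field F]

/-- The universal matrices, `X` being the outer variable. -/
noncomputable def umat (i j : ℕ) (τ : ℕ → F[X]) (l : ℕ) : Matrix (Fin 2) (Fin 2) F[X][X] :=
  !![C (τ l), if l = j then X else 0; if l = i then X else 0, 0]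

theorem umat_prod (i j : ℕ) (τ : ℕ → F[X]) (t : List ℕ) :
    (((t.map (umat i j τ)).prod 1 1).coeff 0 = if t = [] then 1 else 0) ∧
    (((t.map (umat i j τ)).prod 0 1).coeff 0 = 0) ∧
    (((t.map (umat i j τ)).prod 0 1).coeff 1 =
      if t.getLast? = some j then (t.dropLast.map τ).prod else 0) := by
  induction t with
  | nil => simp
  | cons b t ih =>
    obtain ⟨h1, h2, h3⟩ := ih
    rw [List.map_cons, List.prod_cons]
    refine ⟨?_, ?_, ?_⟩
    · rw [Matrix.mul_apply, Fin.sum_univ_two]
      simp only [umat, Matrix.of_apply, Matrix.cons_val', Matrix.cons_val_zero,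
        Matrix.cons_val_one, Matrix.cons_val_fin_one]
      split_ifs <;> simp_all
    · rw [Matrix.mul_apply, Fin.sum_univ_two]
      simp only [umat, Matrix.of_apply, Matrix.cons_val', Matrix.cons_val_zero,
        Matrix.cons_val_one, Matrix.cons_val_fin_one]
      split_ifs <;> simp_all
    · rw [Matrix.mul_apply, Fin.sum_univ_two]
      simp only [umat, Matrix.of_apply, Matrix.cons_val', Matrix.cons_val_zero,
        Matrix.cons_val_one, Matrix.cons_val_fin_one]
      rw [coeff_add, coeff_C_mul, h3]
      cases t with
      | nil =>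
        simp only [List.getLast?_nil, List.getLast?_singleton, List.dropLast_singleton,
          List.map_nil, List.prod_nil, Option.some.injEq, List.map_nil]
        split_ifs <;> simp_all
      | cons c t =>
        have h1' : ((List.map (umat i j τ) (c :: t)).prod 1 1).coeff 0 = 0 := by
          rw [h1]; simp
        rw [List.getLast?_cons_cons, List.dropLast_cons_cons]
        have : ((if b = j then X else 0) * (List.map (umat i j τ) (c :: t)).prod 1 1 :
            F[X][X]).coeff 1 = 0 := by
          split_ifs
          · exact (coeff_X_mul _ 0).trans h1'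
          · simp
        have h3' := congrArg₂ (· + ·) (rfl : (τ b * if (c :: t).getLast? = some j then
          (List.map τ (c :: t).dropLast).prod else 0) = _) this
        refine h3'.trans ?_
        simp only [add_zero, List.map_cons, List.prod_cons]
        split_ifs <;> simp

theorem umat_coeff_two (i j : ℕ) (τ : ℕ → F[X]) (w : List ℕ) :
    (((w.map (umat i j τ)).prod 1 1).coeff 2 =
      match w with
      | [] => 0
      | a :: t => if a = i ∧ t.getLast? = some j then (t.dropLast.map τ).prod else 0) := by
  cases w with
  | nil => simp [coeff_one]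
  | cons a t =>
    obtain ⟨h1, h2, h3⟩ := umat_prod i j τ t
    rw [List.map_cons, List.prod_cons, Matrix.mul_apply, Fin.sum_univ_two]
    simp only [umat, Matrix.of_apply, Matrix.cons_val', Matrix.cons_val_zero,
        Matrix.cons_val_one, Matrix.cons_val_fin_one, zero_mul, add_zero]
    by_cases ha : a = i
    · rw [if_pos ha]
      refine (coeff_X_mul _ 1).trans ?_
      rw [h3]
      simp [ha]
    · simp [ha]

theorem evalW_umat (f : List ℕ →₀ F) (i j : ℕ) (τ : ℕ → F[X]) :
    (evalW f (umat i j τ) 1 1).coeff 2 = MvPolynomial.aeval τ (middleL i j f) := by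
  rw [evalW, Finsupp.sum, Matrix.sum_apply, finsetSum_coeff, middleL, Finsupp.sum, map_sum]
  refine Finset.sum_congr rfl fun w _ => ?_
  rw [Matrix.smul_apply, coeff_smul, umat_coeff_two]
  cases w with
  | nil => simp
  | cons a t =>
    simp only
    split_ifs
    · rw [map_mul, map_list_prod, List.map_map]
      have : ((MvPolynomial.aeval τ : MvPolynomial ℕ F →ₐ[F] F[X]) ∘ MvPolynomial.X) = τ := by
        funext l; simp
      rw [this, ← MvPolynomial.algebraMap_eq, AlgHom.commutes, Algebra.smul_def]
    · simp

end

/-- Step 1. -/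
theorem exists_bound {F : Type*} [Field F] (f : List ℕ →₀ F) (i j : ℕ)
    (hmid : middleL i j f ≠ 0) :
    ∃ D : ℕ, ∀ (K : Type*) [Field K] [Algebra F K] [Finite K], D < Nat.card K →
      ∃ α β γ : ℕ → K,
        (evalW f (fun l => (!![α l, γ l; β l, 0] : Matrix (Fin 2) (Fin 2) K))) 1 1 ≠ 0 := by
  obtain ⟨τ, -, hτ⟩ := exists_tau _ hmid
  rw [← evalW_umat] at hτ
  set P := evalW f (umat i j τ) 1 1 with hP
  refine ⟨P.natDegree + (P.coeff 2).natDegree, fun K _ _ _ hK => ?_⟩
  by_contra hcon
  push Not at hcon
  have := Fintype.ofFinite K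
  rw [Nat.card_eq_fintype_card] at hK
  apply hτ
  -- evaluation
  have hev : ∀ t u : K, (P.map (aeval t : F[X] →ₐ[F] K).toRingHom).eval u = 0 := by
    intro t u
    have h1 := hcon (fun l => aeval t (τ l)) (fun l => if l = i then u else 0)
      (fun l => if l = j then u else 0)
    let φ : F[X][X] →ₐ[F] K :=
      { (eval₂RingHom (aeval t : F[X] →ₐ[F] K).toRingHom u : F[X][X] →+* K) with
        commutes' := fun r => by
          change eval₂ _ _ (algebraMap F F[X][X] r) = _
          rw [IsScalarTower.algebraMap_apply F F[X] F[X][X], Polynomial.algebraMap_apply,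
            Algebra.algebraMap_self, RingHom.id_apply, eval₂_C]
          simp }
    have hφ : ∀ p : F[X][X], φ p = (p.map (aeval t : F[X] →ₐ[F] K).toRingHom).eval u := by
      intro p
      change eval₂ _ _ p = _
      rw [eval_map]
    rw [← hφ]
    have h2 : (fun l => (!![aeval t (τ l), if l = j then u else 0; if l = i then u else 0, 0] :
        Matrix (Fin 2) (Fin 2) K)) = fun l => φ.mapMatrix (umat i j τ l) := by
      funext l
      ext a b
      rw [AlgHom.mapMatrix_apply, Matrix.map_apply]
      fin_cases a <;> fin_cases b <;> simp [umat, hφ] <;> split_ifs <;> simp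
    rw [h2] at h1
    have h3 : evalW f (fun l => φ.mapMatrix (umat i j τ l)) = φ.mapMatrix (evalW f (umat i j τ)) := by
      rw [evalW, evalW, Finsupp.sum, Finsupp.sum, map_sum]
      refine Finset.sum_congr rfl fun w _ => ?_
      rw [map_smul, map_list_prod, List.map_map]
      rfl
    rw [h3, AlgHom.mapMatrix_apply, Matrix.map_apply] at h1
    exact h1
  have hz : ∀ t : K, (aeval t (P.coeff 2)) = 0 := by
    intro t
    have h4 : P.map (aeval t : F[X] →ₐ[F] K).toRingHom = 0 := by
      refine Polynomial.eq_zero_of_natDegree_lt_card_of_eval_eq_zero _ (f := fun x : K => x)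
        Function.injective_id (fun u => hev t u) ?_
      exact lt_of_le_of_lt (natDegree_map_le) (by omega)
    have := congrArg (fun p => p.coeff 2) h4
    simpa [coeff_map] using this
  have h5 : (P.coeff 2).map (algebraMap F K) = 0 := by
    refine Polynomial.eq_zero_of_natDegree_lt_card_of_eval_eq_zero _ (f := fun x : K => x)
        Function.injective_id (fun u => ?_) ?_
    · rw [eval_map, ← aeval_def]; exact hz u
    · exact lt_of_le_of_lt (natDegree_map_le) (by omega)
  exact (Polynomial.map_eq_zero (algebraMap F K)).1 h5

end LRF
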