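import Pool.Agent.T2H69.LRF.Defs

/-!
# Density of an ideal acting on a simple module, and the dimension bound
-/

namespace LRF

theorem dense_ideal {E M : Type*} [Ring E] (A : Ideal E) [A.IsTwoSided]
    [AddCommGroup M] [Module E M] [IsSimpleModule E M]
    (hAM : ∃ a ∈ A, ∃ m : M, a • m ≠ 0)
    (n : ℕ) (s : Fin n → M) (hs : LinearIndependent (Module.End E M) s) (t : Fin n → M) :
    ∃ a ∈ A, ∀ i, a • s i = t i := by
  classical
  -- the density theorem
  have hdens : ∀ t' : Fin n → M, ∃ r : E, ∀ i, r • s i = t' i := by
    intro t'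
    let _ : DivisionRing (Module.End E M) := Module.End.instDivisionRing
    let f0 : Submodule.span (Module.End E M) (Set.range s) →ₗ[Module.End E M] M :=
      (Module.Basis.span hs).constr ℕ t'
    obtain ⟨f, hf⟩ := LinearMap.exists_extend f0
    obtain ⟨r, hr⟩ := jacobson_density (R := E) (M := M) f (Finset.univ.image s)
    refine ⟨r, fun i => ?_⟩
    rw [← hr (s i) (Finset.mem_image_of_mem _ (Finset.mem_univ _))]
    have h1 : f (s i) = f0 (Module.Basis.span hs i) := by
      rw [← hf]
      simp [Module.Basis.span_apply]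
    rw [h1]
    exact (Module.Basis.span hs).constr_basis ℕ t' i
  -- the set of values
  let P : Submodule E (Fin n → M) :=
    { carrier := {t | ∃ a ∈ A, ∀ i, a • s i = t i}
      add_mem' := by
        rintro t1 t2 ⟨a1, ha1, h1⟩ ⟨a2, ha2, h2⟩
        exact ⟨a1 + a2, A.add_mem ha1 ha2, fun i => by rw [add_smul, h1, h2]; rfl⟩
      zero_mem' := ⟨0, A.zero_mem, fun i => by rw [zero_smul]; rfl⟩
      smul_mem' := by
        rintro e t1 ⟨a1, ha1, h1⟩
        exact ⟨e * a1, A.mul_mem_left _ ha1, fun i => by rw [mul_smul, h1]; rfl⟩ }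
  have hsingle : ∀ (i : Fin n) (x : M), (Pi.single i x : Fin n → M) ∈ P := by
    intro i x
    let N : Submodule E M := P.comap (LinearMap.single E (fun _ => M) i)
    have hN : N ≠ ⊥ := by
      obtain ⟨a, ha, m, hm⟩ := hAM
      intro h0
      apply hm
      have : a • m ∈ N := by
        change (Pi.single i (a • m) : Fin n → M) ∈ P
        obtain ⟨r, hr⟩ := hdens (Pi.single i m)
        refine ⟨a * r, A.mul_mem_right _ ha, fun k => ?_⟩
        rw [mul_smul, hr]
        by_cases hk : k = i
        · subst hk; simp
        · simp [hk]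
      rw [h0] at this
      exact (Submodule.mem_bot E).1 this
    have hN' : N = ⊤ := (eq_bot_or_eq_top N).resolve_left hN
    have : x ∈ N := by rw [hN']; trivial
    exact this
  have ht : t ∈ P := by
    rw [← Finset.univ_sum_single t]
    exact Submodule.sum_mem _ fun i _ => hsingle i (t i)
  exact ht

theorem card_le_of_linearIndependent {F E M : Type*} [Field F] [Ring E] [Algebra F E]
    (A : Ideal E) [A.IsTwoSided]
    (g : List ℕ →₀ F) (S : Finset ℕ) (hg : g ≠ 0) (hS : IsMultilin g S)
    (hgA : HoldsOn g (A : Set E))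
    [AddCommGroup M] [Module E M] [IsSimpleModule E M]
    (hAM : ∃ a ∈ A, ∃ m : M, a • m ≠ 0)
    (n : ℕ) (s : Fin n → M) (hs : LinearIndependent (Module.End E M) s) : n ≤ S.card := by
  classical
  by_contra hlt
  push Not at hlt
  obtain ⟨w0, hw0⟩ := Finsupp.support_nonempty_iff.2 hg
  have hlen : ∀ w ∈ g.support, w.length = S.card := by
    intro w hw
    obtain ⟨h1, h2⟩ := hS w hw
    rw [← h2, List.toFinset_card_of_nodup h1]
  let s' : ℕ → M := fun k => if h : k < n then s ⟨k, h⟩ else 0
  have hs' : ∀ i : Fin n, s' i = s i := fun i => by simp [s']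
  let T : ℕ → ℕ → M := fun l k =>
    if (l :: (w0.drop (w0.length - k))) <:+ w0 then s' (k + 1) else 0
  have hex : ∀ l : ℕ, ∃ a ∈ A, ∀ i : Fin n, a • s i = T l i := fun l =>
    dense_ideal A hAM n s hs (fun i => T l i)
  choose y hyA hy using hex
  have hn0 : 0 < n := by omega
  have key : ∀ v : List ℕ, (v.map y).prod • s' 0 = if v <:+ w0 then s' v.length else 0 := by
    intro v
    induction v with
    | nil => simp
    | cons b t ih =>
      rw [List.map_cons, List.prod_cons, mul_smul, ih]
      by_cases ht : t <:+ w0
      · rw [if_pos ht]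
        have hle : t.length ≤ w0.length := ht.length_le
        have hln : t.length < n := by
          have := hlen w0 hw0
          omega
        have h1 : y b • s' t.length = T b t.length := by
          have := hy b ⟨t.length, hln⟩
          rw [← hs'] at this
          exact this
        rw [h1]
        have h2 : w0.drop (w0.length - t.length) = t := by
          obtain ⟨u, rfl⟩ := ht
          simp
        simp only [T, h2, List.length_cons]
      · rw [if_neg ht, smul_zero, if_neg]
        intro h
        exact ht ((List.suffix_cons b t).trans h)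
  have hev : evalW g y • s' 0 = algebraMap F E (g w0) • s' w0.length := by
    rw [evalW, Finsupp.sum, Finset.sum_smul]
    rw [Finset.sum_eq_single_of_mem w0 hw0]
    · rw [Algebra.smul_def, mul_smul, key, if_pos List.suffix_rfl]
    · intro w hw hne
      rw [Algebra.smul_def, mul_smul, key, if_neg, smul_zero]
      intro hsuf
      apply hne
      exact hsuf.eq_of_length (by rw [hlen w hw, hlen w0 hw0])
  rw [hgA y hyA, zero_smul] at hev
  have hw : g w0 ≠ 0 := Finsupp.mem_support_iff.1 hw0
  have h3 : s' w0.length = 0 := by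
    have : algebraMap F E ((g w0)⁻¹) • algebraMap F E (g w0) • s' w0.length = 0 := by
      rw [← hev, smul_zero]
    rw [smul_smul, ← map_mul, inv_mul_cancel₀ hw, map_one, one_smul] at this
    exact this
  have hln : w0.length < n := by rw [hlen w0 hw0]; exact hlt
  have h4 : s ⟨w0.length, hln⟩ = 0 := by rw [← hs']; exact h3
  have : Nontrivial M := IsSimpleModule.nontrivial E M
  exact hs.ne_zero _ h4

end LRF
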