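import Pool.Agent.T2H69.LRF.Dense
import Pool.Agent.T2H69.LRF.Closure

/-!
# Simple modules over algebras with an identity are finite
-/

namespace LRF

open TensorProduct

section Ext
variable {F E L : Type*} [Field F] [Ring E] [Algebra F E] [CommRing L] [Algebra F L]

variable (L) in
/-- The set of elements `l ⊗ a` with `a ∈ A`. -/
def extSet (A : Ideal E) : Set (L ⊗[F] E) := {x | ∃ l : L, ∃ a ∈ A, x = l ⊗ₜ[F] a}

variable (L) in
/-- The extended ideal. -/
def extIdeal (A : Ideal E) : Ideal (L ⊗[F] E) :=
  { AddSubgroup.closure (extSet (F := F) L A) with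
    smul_mem' := by
      intro c x hx
      change x ∈ AddSubgroup.closure (extSet (F := F) L A) at hx
      change c * x ∈ AddSubgroup.closure (extSet (F := F) L A)
      induction hx using AddSubgroup.closure_induction with
      | mem x hx =>
        obtain ⟨l, a, ha, rfl⟩ := hx
        induction c using TensorProduct.induction_on with
        | zero => rw [zero_mul]; exact zero_mem _
        | tmul l' e =>
          rw [Algebra.TensorProduct.tmul_mul_tmul]
          exact AddSubgroup.subset_closure ⟨l' * l, e * a, A.mul_mem_left _ ha, rfl⟩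
        | add x y hx hy => rw [add_mul]; exact add_mem hx hy
      | zero => rw [mul_zero]; exact zero_mem _
      | add x y _ _ hx hy => rw [mul_add]; exact add_mem hx hy
      | neg x _ hx => rw [mul_neg]; exact neg_mem hx }

instance extIdeal_isTwoSided (A : Ideal E) [A.IsTwoSided] :
    (extIdeal (F := F) L A).IsTwoSided := by
  constructor
  intro x c hx
  change x ∈ AddSubgroup.closure (extSet (F := F) L A) at hx
  change x * c ∈ AddSubgroup.closure (extSet (F := F) L A)
  induction hx using AddSubgroup.closure_induction with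
  | mem x hx =>
    obtain ⟨l, a, ha, rfl⟩ := hx
    induction c using TensorProduct.induction_on with
    | zero => rw [mul_zero]; exact zero_mem _
    | tmul l' e =>
      rw [Algebra.TensorProduct.tmul_mul_tmul]
      exact AddSubgroup.subset_closure ⟨l * l', a * e, A.mul_mem_right _ ha, rfl⟩
    | add x y hx hy => rw [mul_add]; exact add_mem hx hy
  | zero => rw [zero_mul]; exact zero_mem _
  | add x y _ _ hx hy => rw [add_mul]; exact add_mem hx hy
  | neg x _ hx => rw [neg_mul]; exact neg_mem hx

theorem prod_tmul (l : ℕ → L) (a : ℕ → E) (w : List ℕ) :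
    (w.map fun k => l k ⊗ₜ[F] a k).prod = (w.map l).prod ⊗ₜ[F] (w.map a).prod := by
  induction w with
  | nil => rfl
  | cons b t ih =>
    simp only [List.map_cons, List.prod_cons, ih, Algebra.TensorProduct.tmul_mul_tmul]

theorem holdsOn_extIdeal (A : Ideal E) (g : List ℕ →₀ F) (S : Finset ℕ) (hS : IsMultilin g S)
    (hgA : HoldsOn g (A : Set E)) : HoldsOn g (extIdeal (F := F) L A : Set (L ⊗[F] E)) := by
  refine holdsOn_closure g S hS (extSet (F := F) L A) ⟨0, 0, 0, A.zero_mem, by simp⟩ ?_
  intro v hv
  choose l a ha hv using hv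
  have hv' : v = fun k => l k ⊗ₜ[F] a k := funext hv
  have h1 : evalW g v = (∏ k ∈ S, l k) ⊗ₜ[F] evalW g a := by
    rw [evalW, evalW, Finsupp.sum, Finsupp.sum, TensorProduct.tmul_sum]
    refine Finset.sum_congr rfl fun w hw => ?_
    rw [hv', prod_tmul, TensorProduct.tmul_smul]
    obtain ⟨h1, h2⟩ := hS w hw
    rw [← h2, List.prod_toFinset _ h1]
  rw [h1, hgA a ha, TensorProduct.tmul_zero]

end Ext

/-- A simple module which is finite dimensional over a field `K` commuting with `E` is finite. -/
theorem finite_of_field {F E K M : Type*} [Field F] [Finite F] [Ring E] [Algebra F E]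
    (hE : Algebra.FiniteType F E) [Field K] [Algebra F K] [AddCommGroup M] [Module E M]
    [Module K M] [SMulCommClass E K M]
    (hF : ∀ (c : F) (m : M), algebraMap F E c • m = algebraMap F K c • m)
    [IsSimpleModule E M] [Module.Finite K M] : Finite M := by
  classical
  obtain ⟨X, hX⟩ := hE.out
  let bas := Module.finBasis K M
  set n := Module.finrank K M
  let coef : E → Fin n → Fin n → K := fun x i j => bas.repr (x • bas i) j
  let gens : Finset K := Finset.univ.biUnion fun i : Fin n => Finset.univ.biUnion fun j : Fin n =>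
    X.image fun x => coef x i j
  let L0 : Subalgebra F K := Algebra.adjoin F (gens : Set K)
  have hgen : ∀ x ∈ X, ∀ i j, coef x i j ∈ L0 := by
    intro x hx i j
    refine Algebra.subset_adjoin ?_
    simp only [gens, Finset.mem_coe, Finset.mem_biUnion, Finset.mem_univ, true_and,
      Finset.mem_image]
    exact ⟨i, j, x, hx, rfl⟩
  let V0 : Set M := {m | ∀ j, bas.repr m j ∈ L0}
  have hstable : ∀ e : E, ∀ m ∈ V0, e • m ∈ V0 := by
    intro e
    have he : e ∈ Algebra.adjoin F (X : Set E) := by rw [hX]; trivial
    induction he using Algebra.adjoin_induction with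
    | mem x hx =>
      intro m hm j
      have h1 : x • m = ∑ i, bas.repr m i • (x • bas i) := by
        conv_lhs => rw [← bas.sum_repr m]
        rw [Finset.smul_sum]
        exact Finset.sum_congr rfl fun i _ => smul_comm _ _ _
      rw [h1, map_sum, Finsupp.finsetSum_apply]
      refine sum_mem fun i _ => ?_
      rw [map_smul, Finsupp.smul_apply, smul_eq_mul]
      exact mul_mem (hm i) (hgen x hx i j)
    | algebraMap c =>
      intro m hm j
      rw [hF, map_smul, Finsupp.smul_apply, smul_eq_mul]
      exact mul_mem (L0.algebraMap_mem c) (hm j)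
    | add x y _ _ hx hy =>
      intro m hm j
      rw [add_smul, map_add, Finsupp.add_apply]
      exact add_mem (hx m hm j) (hy m hm j)
    | mul x y _ _ hx hy =>
      intro m hm
      rw [mul_smul]
      exact hx _ (hy _ hm)
  let V : Submodule E M :=
    { carrier := V0
      add_mem' := fun {a b} ha hb j => by
        rw [map_add, Finsupp.add_apply]; exact add_mem (ha j) (hb j)
      zero_mem' := fun j => by rw [map_zero, Finsupp.zero_apply]; exact zero_mem _
      smul_mem' := fun e m hm => hstable e m hm }
  have hnt : Nontrivial M := IsSimpleModule.nontrivial E M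
  have hn : 0 < n := Module.finrank_pos
  let i0 : Fin n := ⟨0, hn⟩
  have hb : bas i0 ∈ V := by
    intro j
    rw [bas.repr_self, Finsupp.single_apply]
    split_ifs
    · exact one_mem _
    · exact zero_mem _
  have hV : V = ⊤ := by
    refine (eq_bot_or_eq_top V).resolve_left fun h => ?_
    rw [h, Submodule.mem_bot] at hb
    exact bas.ne_zero i0 hb
  have hL0 : L0 = ⊤ := by
    rw [eq_top_iff]
    intro κ _
    have : κ • bas i0 ∈ V := by rw [hV]; trivial
    have h2 := this i0
    rw [map_smul, Finsupp.smul_apply, bas.repr_self, Finsupp.single_eq_same, smul_eq_mul,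
      mul_one] at h2
    exact h2
  have hKft : Algebra.FiniteType F K := ⟨⟨gens, hL0⟩⟩
  have hKfin : Module.Finite F K := finite_of_finite_type_of_isJacobsonRing F K
  have : Finite K := Module.finite_of_finite F
  exact Module.finite_of_finite K

/-- The main step, for a commutative algebra `L` of endomorphisms with no larger commutant. -/
theorem finite_of_maxcomm {F E L M : Type*} [Field F] [Finite F] [Ring E] [Algebra F E]
    (hE : Algebra.FiniteType F E) [CommRing L] [Algebra F L] [AddCommGroup M] [Module F M]
    [Module E M] [Module L M] [IsScalarTower F E M] [IsScalarTower F L M] [SMulCommClass L E M]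
    (hmax : ∀ φ : Module.End E M, (∀ (l : L) (m : M), φ (l • m) = l • φ m) →
      ∃ l : L, ∀ m, φ m = l • m)
    (A : Ideal E) [A.IsTwoSided]
    (g : List ℕ →₀ F) (S : Finset ℕ) (hg : g ≠ 0) (hS : IsMultilin g S)
    (hgA : HoldsOn g (A : Set E)) [IsSimpleModule E M]
    (hAM : ∃ a ∈ A, ∃ m : M, a • m ≠ 0) : Finite M := by
  classical
  let _ : Module (L ⊗[F] E) M := TensorProduct.Algebra.module
  have hsm : ∀ (l : L) (e : E) (m : M), (l ⊗ₜ[F] e) • m = l • e • m := fun l e m =>
    TensorProduct.Algebra.smul_def l e m
  have hsm1 : ∀ (e : E) (m : M), ((1 : L) ⊗ₜ[F] e) • m = e • m := fun e m => by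
    rw [hsm, one_smul]
  have hsimp : IsSimpleModule (L ⊗[F] E) M := by
    have hnt : Nontrivial M := IsSimpleModule.nontrivial E M
    have hbt : ∀ N : Submodule (L ⊗[F] E) M, N = ⊥ ∨ N = ⊤ := by
      intro N
      let N' : Submodule E M :=
        { N with
          smul_mem' := fun e m hm => (hsm1 e m).symm ▸ N.smul_mem _ hm }
      rcases eq_bot_or_eq_top N' with h | h
      · left
        rw [eq_bot_iff]
        intro m hm
        have : m ∈ N' := hm
        rw [h, Submodule.mem_bot] at this
        rw [this]; exact zero_mem _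
      · right
        rw [eq_top_iff]
        intro m _
        have : m ∈ N' := by rw [h]; trivial
        exact this
    exact (isSimpleModule_iff (L ⊗[F] E) M).2 { eq_bot_or_eq_top := hbt }
  have hAM' : ∃ b ∈ extIdeal (F := F) L A, ∃ m : M, b • m ≠ 0 := by
    obtain ⟨a, ha, m, hm⟩ := hAM
    exact ⟨(1 : L) ⊗ₜ[F] a, AddSubgroup.subset_closure ⟨1, a, ha, rfl⟩, m, by rwa [hsm1]⟩
  -- the commutant is commutative
  have hK : ∀ κ : Module.End (L ⊗[F] E) M, ∃ l : L, ∀ m, κ m = l • m := by
    intro κ
    let φ : Module.End E M :=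
      { κ with
        map_smul' := fun e m => by
          change κ (e • m) = e • κ m
          rw [← hsm1, map_smul, hsm1] }
    refine hmax φ fun l m => ?_
    change κ (l • m) = l • κ m
    have h1 : ∀ m : M, (l ⊗ₜ[F] (1 : E)) • m = l • m := fun m => by rw [hsm, one_smul]
    rw [← h1, map_smul, h1]
  have hcomm : ∀ κ κ' : Module.End (L ⊗[F] E) M, κ * κ' = κ' * κ := by
    intro κ κ'
    obtain ⟨l, hl⟩ := hK κ
    obtain ⟨l', hl'⟩ := hK κ'
    ext m
    rw [Module.End.mul_apply, Module.End.mul_apply, hl', hl, hl, hl', smul_smul, smul_smul,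
      mul_comm]
  let _ : DivisionRing (Module.End (L ⊗[F] E) M) := Module.End.instDivisionRing
  let _ : Field (Module.End (L ⊗[F] E) M) :=
    { (inferInstance : DivisionRing (Module.End (L ⊗[F] E) M)) with mul_comm := hcomm }
  have hfd : Module.Finite (Module.End (L ⊗[F] E) M) M := by
    let bas := Module.Basis.ofVectorSpace (Module.End (L ⊗[F] E) M) M
    by_contra hinf
    have hι : Infinite (Module.Basis.ofVectorSpaceIndex (Module.End (L ⊗[F] E) M) M) := by
      by_contra hfin
      rw [not_infinite_iff_finite] at hfin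
      exact hinf (Module.Finite.of_basis bas)
    obtain ⟨e⟩ : Nonempty (Fin (S.card + 1) ↪
        Module.Basis.ofVectorSpaceIndex (Module.End (L ⊗[F] E) M) M) :=
      ⟨(Fin.valEmbedding).trans (Infinite.natEmbedding _)⟩
    have := card_le_of_linearIndependent (extIdeal (F := F) L A) g S hg hS
      (holdsOn_extIdeal A g S hS hgA) hAM' (S.card + 1) (fun i => bas (e i))
      (bas.linearIndependent.comp e e.injective)
    omega
  have hscF : ∀ (q : L ⊗[F] E) (c : F) (m : M), q • c • m = c • q • m := by
    intro q c m
    induction q using TensorProduct.induction_on with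
    | zero => rw [zero_smul, zero_smul, smul_zero]
    | tmul l e =>
      rw [hsm, hsm]
      have h1 : ∀ (x : E) (m : M), x • c • m = c • x • m := by
        intro x m
        rw [← algebraMap_smul E c m, ← algebraMap_smul E c (x • m), smul_smul, smul_smul,
          Algebra.commutes]
      have h2 : ∀ (x : L) (m : M), x • c • m = c • x • m := by
        intro x m
        rw [← algebraMap_smul L c m, ← algebraMap_smul L c (x • m), smul_smul, smul_smul,
          Algebra.commutes]
      rw [h1, h2]
    | add x y hx hy => rw [add_smul, hx, hy, add_smul, smul_add]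
  have : SMulCommClass (L ⊗[F] E) F M := ⟨hscF⟩
  have : IsScalarTower F (L ⊗[F] E) M := ⟨fun c q m => by
    induction q using TensorProduct.induction_on with
    | zero => rw [smul_zero, zero_smul, smul_zero]
    | tmul l e => rw [TensorProduct.smul_tmul', hsm, hsm, smul_assoc]
    | add x y hx hy => rw [smul_add, add_smul, hx, hy, add_smul, smul_add]⟩
  have : SMulCommClass E (Module.End (L ⊗[F] E) M) M := ⟨fun e κ m => by
    change e • κ m = κ (e • m)
    rw [← hsm1, ← hsm1, map_smul]⟩
  exact finite_of_field (F := F) (E := E) (K := Module.End (L ⊗[F] E) M) (M := M) hE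
    (fun c m => by
      rw [algebraMap_smul]
      change _ = (algebraMap F (Module.End (L ⊗[F] E) M) c) m
      rw [Module.algebraMap_end_apply])

theorem finite_simple {F E M : Type*} [Field F] [Finite F] [Ring E] [Algebra F E]
    (hE : Algebra.FiniteType F E) (A : Ideal E) [A.IsTwoSided]
    (g : List ℕ →₀ F) (S : Finset ℕ) (hg : g ≠ 0) (hS : IsMultilin g S)
    (hgA : HoldsOn g (A : Set E))
    [AddCommGroup M] [Module E M] [IsSimpleModule E M]
    (hAM : ∃ a ∈ A, ∃ m : M, a • m ≠ 0) : Finite M := by
  classical
  let _ : Module F M := Module.compHom M (algebraMap F E)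
  have : IsScalarTower F E M := ⟨fun c e m => by
    rw [Algebra.smul_def, mul_smul]; rfl⟩
  have : SMulCommClass E F M := ⟨fun e c m => by
    change e • (algebraMap F E c) • m = (algebraMap F E c) • e • m
    rw [smul_smul, smul_smul, Algebra.commutes]⟩
  -- a maximal commutative set of endomorphisms
  obtain ⟨T, hT⟩ := zorn_subset {T : Set (Module.End E M) | ∀ x ∈ T, ∀ y ∈ T, x * y = y * x} (by
    intro c hc hchain
    refine ⟨⋃₀ c, ?_, fun s hs => Set.subset_sUnion_of_mem hs⟩
    rintro x ⟨s, hs, hxs⟩ y ⟨t, ht, hyt⟩
    rcases hchain.total hs ht with h | h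
    · exact hc ht x (h hxs) y hyt
    · exact hc hs x hxs y (h hyt))
  have hTc : ∀ x ∈ T, ∀ y ∈ T, x * y = y * x := hT.prop
  have hTmax : ∀ z : Module.End E M, (∀ x ∈ T, x * z = z * x) → z ∈ T := by
    intro z hz
    have h1 : insert z T ∈ {T : Set (Module.End E M) | ∀ x ∈ T, ∀ y ∈ T, x * y = y * x} := by
      rintro x (rfl | hx) y (rfl | hy)
      · rfl
      · exact (hz y hy).symm
      · exact hz x hx
      · exact hTc x hx y hy
    exact hT.le_of_ge h1 (Set.subset_insert _ _) (Set.mem_insert _ _)
  let L : Subalgebra F (Module.End E M) := Subalgebra.centralizer F T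
  have hL1 : ∀ x ∈ L, x ∈ T := fun x hx => hTmax x fun y hy => hx y hy
  have hL2 : ∀ x ∈ T, x ∈ L := fun x hx y hy => hTc y hy x hx
  let _ : CommRing L :=
    { (inferInstance : Ring L) with
      mul_comm := fun x y => Subtype.ext (hTc x (hL1 x x.2) y (hL1 y y.2)) }
  have : SMulCommClass L E M := ⟨fun l e m => by
    change (l : Module.End E M) (e • m) = e • (l : Module.End E M) m
    rw [map_smul]⟩
  have : IsScalarTower F L M := ⟨fun c l m => by
    change ((c • l : L) : Module.End E M) m = c • (l : Module.End E M) m
    rfl⟩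
  exact finite_of_maxcomm (F := F) (E := E) (L := L) (M := M) hE (fun φ hφ => by
    refine ⟨⟨φ, hL2 φ (hTmax φ fun x hx => ?_)⟩, fun m => rfl⟩
    ext m
    exact (hφ ⟨x, hL2 x hx⟩ m).symm) A g S hg hS hgA hAM

end LRF
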