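import Pool.Agent.T2H69.LRF.CommStep1
import Pool.Agent.T2H69.LRF.Simple
import Pool.Agent.T2H69.LRF.Dense

/-!
# Simple modules on which `[A, A]` is nonzero are bounded
-/

namespace LRF

universe u v

section
variable {F E K M : Type*} [Field F] [Ring E] [Algebra F E] [Field K] [Algebra F K]
  [AddCommGroup M] [Module E M] [Module K M] [SMulCommClass E K M]

theorem word_smul (s : Fin 2 → M) (a : ℕ → E) (X : ℕ → Matrix (Fin 2) (Fin 2) K)
    (h : ∀ l c, a l • s c = ∑ r, X l r c • s r) (w : List ℕ) (c : Fin 2) :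
    (w.map a).prod • s c = ∑ r, (w.map X).prod r c • s r := by
  induction w with
  | nil =>
    fin_cases c <;> simp [Fin.sum_univ_two]
  | cons b t ih =>
    rw [List.map_cons, List.prod_cons, mul_smul, ih, Finset.smul_sum, List.map_cons,
      List.prod_cons]
    simp_rw [Matrix.mul_apply, Finset.sum_smul]
    rw [Finset.sum_comm]
    refine Finset.sum_congr rfl fun k _ => ?_
    rw [smul_comm, h, Finset.smul_sum]
    refine Finset.sum_congr rfl fun r _ => ?_
    rw [smul_smul, mul_comm]

theorem evalW_smul (hF : ∀ (c : F) (m : M), algebraMap F E c • m = algebraMap F K c • m)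
    (s : Fin 2 → M) (a : ℕ → E) (X : ℕ → Matrix (Fin 2) (Fin 2) K)
    (h : ∀ l c, a l • s c = ∑ r, X l r c • s r) (f : List ℕ →₀ F) (c : Fin 2) :
    evalW f a • s c = ∑ r, (evalW f X) r c • s r := by
  rw [evalW, evalW, Finsupp.sum, Finsupp.sum, Finset.sum_smul]
  simp_rw [Matrix.sum_apply, Finset.sum_smul]
  rw [Finset.sum_comm]
  refine Finset.sum_congr rfl fun w _ => ?_
  rw [Algebra.smul_def, mul_smul, word_smul s a X h, hF, Finset.smul_sum]
  refine Finset.sum_congr rfl fun r _ => ?_
  rw [Matrix.smul_apply, Algebra.smul_def, mul_smul]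

theorem two_by_two (hF : ∀ (c : F) (m : M), algebraMap F E c • m = algebraMap F K c • m)
    (s : Fin 2 → M) (hs : LinearIndependent K s) (f : List ℕ →₀ F) (A : Set E)
    (hf : HoldsOn f A) (hd : ∀ t : Fin 2 → M, ∃ a ∈ A, ∀ i, a • s i = t i) (α β γ : ℕ → K) :
    (evalW f (fun l => (!![α l, γ l; β l, 0] : Matrix (Fin 2) (Fin 2) K))) 1 1 = 0 := by
  have h1 : ∀ l : ℕ, ∃ a ∈ A, ∀ c : Fin 2,
      a • s c = ∑ r, (!![α l, γ l; β l, 0] : Matrix (Fin 2) (Fin 2) K) r c • s r :=
    fun l => hd _
  choose a haA ha using h1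
  have h2 := evalW_smul hF s a _ ha f 1
  rw [hf a haA, zero_smul] at h2
  exact (Fintype.linearIndependent_iff.1 hs _ h2.symm) 1

end

/-- Step 2. -/
theorem exists_card_bound {F : Type*} {E : Type u} [Field F] [Finite F] [Ring E] [Algebra F E]
    (hE : Algebra.FiniteType F E) (A : Ideal E) [A.IsTwoSided]
    (f : List ℕ →₀ F) (i j : ℕ) (hmid : middleL i j f ≠ 0) (hf : HoldsOn f (A : Set E))
    (g : List ℕ →₀ F) (S : Finset ℕ) (hg : g ≠ 0) (hS : IsMultilin g S)
    (hgA : HoldsOn g (A : Set E)) :
    ∃ m0 : ℕ, ∀ (M : Type u) [AddCommGroup M] [Module E M] [IsSimpleModule E M],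
      (∃ a ∈ A, ∃ b ∈ A, ∃ m : M, (a * b - b * a) • m ≠ 0) → Finite M ∧ Nat.card M ≤ m0 := by
  classical
  obtain ⟨D, hD⟩ := exists_bound.{_, u} f i j hmid
  refine ⟨(max D 1) ^ S.card, fun M _ _ _ hM => ?_⟩
  obtain ⟨a, ha, b, hb, m, hm⟩ := hM
  have hAM : ∃ a ∈ A, ∃ m : M, a • m ≠ 0 :=
    ⟨a * b - b * a, A.sub_mem (A.mul_mem_left _ hb) (A.mul_mem_left _ ha), m, hm⟩
  have hfin : Finite M := finite_simple hE A g S hg hS hgA hAM
  refine ⟨hfin, ?_⟩
  let _ : Module F M := Module.compHom M (algebraMap F E)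
  have : IsScalarTower F E M := ⟨fun c e m => by
    rw [Algebra.smul_def, mul_smul]; rfl⟩
  have : SMulCommClass E F M := ⟨fun e c m => by
    change e • (algebraMap F E c) • m = (algebraMap F E c) • e • m
    rw [smul_smul, smul_smul, Algebra.commutes]⟩
  have hfinK : Finite (Module.End E M) :=
    Finite.of_injective (fun φ : Module.End E M => (φ : M → M)) DFunLike.coe_injective
  let _ : DivisionRing (Module.End E M) := Module.End.instDivisionRing
  let _ : Field (Module.End E M) := littleWedderburn _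
  let _ : Module.Finite (Module.End E M) M := Module.Finite.of_finite
  -- dimension
  let k := Module.finrank (Module.End E M) M
  let bas := Module.finBasis (Module.End E M) M
  have hk : k ≤ S.card :=
    card_le_of_linearIndependent A g S hg hS hgA hAM k bas bas.linearIndependent
  have hcard : Nat.card M = Nat.card (Module.End E M) ^ k := Module.natCard_eq_pow_finrank
  have h1 : 1 ≤ Nat.card (Module.End E M) := Nat.card_pos
  have hle : Nat.card (Module.End E M) ≤ D := by
    by_contra hlt
    push Not at hlt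
    obtain ⟨α, β, γ, hne⟩ := hD (Module.End E M) hlt
    have hex : ∃ s : Fin 2 → M, LinearIndependent (Module.End E M) s := by
      by_contra hno
      push Not at hno
      have hm0 : m ≠ 0 := by rintro rfl; simp at hm
      -- every vector is a multiple of m
      have hmul : ∀ x : M, ∃ κ : Module.End E M, κ m = x := by
        intro x
        have h3 := hno ![m, x]
        rw [LinearIndependent.pair_iff' hm0] at h3
        push Not at h3
        exact h3
      obtain ⟨κa, hκa⟩ := hmul (a • m)
      obtain ⟨κb, hκb⟩ := hmul (b • m)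
      apply hm
      rw [sub_smul, mul_smul, mul_smul, ← hκb, ← hκa, ← map_smul, ← map_smul, ← hκa, ← hκb]
      have : κb (κa m) = κa (κb m) := by
        change (κb * κa) m = (κa * κb) m
        rw [mul_comm]
      rw [this, sub_self]
    obtain ⟨s, hs⟩ := hex
    exact hne (two_by_two (E := E) (K := Module.End E M) (fun c m => rfl) s hs f (A : Set E) hf
      (fun t => dense_ideal A hAM 2 s hs t) α β γ)
  calc Nat.card M = Nat.card (Module.End E M) ^ k := hcard
    _ ≤ (max D 1) ^ k := Nat.pow_le_pow_left (hle.trans (le_max_left _ _)) _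
    _ ≤ (max D 1) ^ S.card := Nat.pow_le_pow_right (Nat.lt_of_lt_of_le Nat.one_pos (le_max_right D 1)) hk

end LRF
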