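import Mathlib

/-!
# Basic definitions for the locally residually finite varieties problem (MP_5aea19_al)

`E` is a unital algebra over a field `F`; identities are finitely supported functions
`f : List ℕ →₀ F` on words in the letters `ℕ`, evaluated in `E`.
-/

namespace LRF

open scoped BigOperators

/-- Value of the polynomial `f` (a finite combination of words) at the substitution `v`. -/
noncomputable def evalW {F E : Type*} [Field F] [Ring E] [Algebra F E]
    (f : List ℕ →₀ F) (v : ℕ → E) : E :=
  f.sum fun w c => c • (w.map v).prod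

/-- The identity `f = 0` holds for all substitutions of elements of `A`. -/
def HoldsOn {F E : Type*} [Field F] [Ring E] [Algebra F E]
    (f : List ℕ →₀ F) (A : Set E) : Prop :=
  ∀ v : ℕ → E, (∀ l, v l ∈ A) → evalW f v = 0

/-- `g` is multilinear in the letters of `S`: each of its words contains each letter of `S`
exactly once and no other letter. -/
def IsMultilin {F : Type*} [Field F] (g : List ℕ →₀ F) (S : Finset ℕ) : Prop :=
  ∀ w ∈ g.support, w.Nodup ∧ w.toFinset = S

/-- The two-sided ideal generated by `Z` (as a left ideal). -/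
def tsp {E : Type*} [Ring E] (Z : Set E) : Ideal E :=
  Ideal.span {x | ∃ z ∈ Z, ∃ e : E, x = z * e}

/-- Every two-sided ideal is finitely generated as a two-sided ideal. -/
def TSNoeth (E : Type*) [Ring E] : Prop :=
  ∀ J : Ideal E, J.IsTwoSided → ∃ Z : Finset E, J = tsp (Z : Set E)

/-- Residual finiteness of a ring. -/
def RF (E : Type*) [Ring E] : Prop :=
  ∀ a : E, a ≠ 0 → ∃ J : Ideal E, J.IsTwoSided ∧ Finite (E ⧸ J) ∧ a ∉ J

/-- Every finite subset of `N` generates a nilpotent nonunital subring. -/
def LocNilp {E : Type*} [Ring E] (N : Set E) : Prop :=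
  ∀ T : Finset E, (T : Set E) ⊆ N →
    ∃ k : ℕ, ∀ l : List E, (∀ x ∈ l, x ∈ T) → k ≤ l.length → l.prod = 0

instance tsp_isTwoSided {E : Type*} [Ring E] (Z : Set E) : (tsp Z).IsTwoSided := by
  constructor
  intro a b ha
  unfold tsp at ha ⊢
  induction ha using Submodule.span_induction with
  | mem x hx =>
    obtain ⟨z, hz, e, rfl⟩ := hx
    exact Ideal.subset_span ⟨z, hz, e * b, by rw [mul_assoc]⟩
  | zero => simp
  | add x y _ _ hx hy => rw [add_mul]; exact add_mem hx hy
  | smul r x _ hx =>
    rw [smul_eq_mul, mul_assoc]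
    exact Ideal.mul_mem_left _ _ hx

theorem subset_tsp {E : Type*} [Ring E] (Z : Set E) : Z ⊆ tsp Z := by
  intro z hz
  exact Ideal.subset_span ⟨z, hz, 1, by simp⟩

theorem tsp_le {E : Type*} [Ring E] {Z : Set E} {J : Ideal E} [J.IsTwoSided] (h : Z ⊆ J) :
    tsp Z ≤ J := by
  unfold tsp
  rw [Ideal.span_le]
  rintro x ⟨z, hz, e, rfl⟩
  exact Ideal.mul_mem_right _ _ (h hz)

end LRF
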