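import Mathlib
import Pool.Agent.T2H69.LRF.Defs

/-!
# Ideals of finite codimension in finitely generated algebras
-/

namespace LRF

theorem exists_fg_ideal {F E : Type*} [Field F] [Ring E] [Algebra F E]
    (X : Finset E) (hX : Algebra.adjoin F (X : Set E) = ⊤)
    (I : Ideal E) [I.IsTwoSided] [Module.Finite F (E ⧸ I)] :
    ∃ Y : Finset E, (Y : Set E) ⊆ I ∧ (I : Set E) ⊆ Algebra.adjoin F (Y : Set E) := by
  classical
  -- representatives
  obtain ⟨S, hS⟩ := (Module.Finite.fg_top : (⊤ : Submodule F (E ⧸ I)).FG)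
  have hsurj : ∀ q : E ⧸ I, ∃ e : E, Submodule.Quotient.mk e = q :=
    fun q => Submodule.Quotient.mk_surjective I q
  choose c hc using hsurj
  obtain ⟨W, hW⟩ : ∃ W : Finset E, W = insert 1 (S.image c) := ⟨_, rfl⟩
  have h1W : (1 : E) ∈ Submodule.span F (W : Set E) :=
    Submodule.subset_span (by rw [hW]; simp)
  have hdec : ∀ e : E, ∃ s ∈ Submodule.span F (W : Set E), e - s ∈ I := by
    intro e
    have h1 : (Submodule.Quotient.mk e : E ⧸ I) ∈ Submodule.span F (S : Set (E ⧸ I)) := by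
      rw [hS]; trivial
    have h2 : ∀ q ∈ Submodule.span F (S : Set (E ⧸ I)), ∃ s ∈ Submodule.span F (W : Set E),
        Submodule.Quotient.mk s = q := by
      intro q hq
      induction hq using Submodule.span_induction with
      | mem x hx =>
        refine ⟨c x, Submodule.subset_span ?_, hc x⟩
        rw [hW]
        simp only [Finset.coe_insert, Finset.coe_image]
        exact Set.mem_insert_of_mem _ ⟨x, hx, rfl⟩
      | zero => exact ⟨0, Submodule.zero_mem _, rfl⟩
      | add x y _ _ hx hy =>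
        obtain ⟨s, hs, rfl⟩ := hx
        obtain ⟨s', hs', rfl⟩ := hy
        exact ⟨s + s', Submodule.add_mem _ hs hs', rfl⟩
      | smul r x _ hx =>
        obtain ⟨s, hs, rfl⟩ := hx
        exact ⟨r • s, Submodule.smul_mem _ _ hs, rfl⟩
    obtain ⟨s, hs, hse⟩ := h2 _ h1
    refine ⟨s, hs, ?_⟩
    exact (Submodule.Quotient.eq I).1 hse.symm
  choose σ hσ hσI using hdec
  -- the intersection of `I` and the span of `W`
  have hfg : (I.restrictScalars F ⊓ Submodule.span F (W : Set E)).FG := by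
    have h1 : (Submodule.span F (W : Set E)).FG := ⟨W, rfl⟩
    have h2 : Module.Finite F (Submodule.span F (W : Set E)) := Module.Finite.iff_fg.2 h1
    exact Submodule.FG.of_le h1 inf_le_right
  obtain ⟨Z, hZ⟩ := hfg
  obtain ⟨Y, hY⟩ : ∃ Y : Finset E, Y = ((W ×ˢ X) ×ˢ W).image
      (fun p => (p.1.1 * p.1.2 - σ (p.1.1 * p.1.2)) * p.2) ∪ Z := ⟨_, rfl⟩
  have hZI : ∀ z ∈ Z, z ∈ I := by
    intro z hz
    have h1 : z ∈ Submodule.span F (Z : Set E) := Submodule.subset_span hz
    rw [hZ] at h1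
    exact h1.1
  have hYI : (Y : Set E) ⊆ I := by
    intro y hy
    rw [hY] at hy
    rcases Finset.mem_union.1 (Finset.mem_coe.1 hy) with h1 | h1
    · obtain ⟨p, -, rfl⟩ := Finset.mem_image.1 h1
      exact Ideal.mul_mem_right _ _ (hσI _)
    · exact hZI y h1
  obtain ⟨B, hB⟩ : ∃ B, B = Algebra.adjoin F (Y : Set E) := ⟨_, rfl⟩
  have hYB : ∀ y ∈ Y, y ∈ B := fun y hy => by rw [hB]; exact Algebra.subset_adjoin hy
  have hinter : ∀ s ∈ Submodule.span F (W : Set E), s ∈ I → s ∈ B := by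
    intro s hs hsI
    have h1 : s ∈ Submodule.span F (Z : Set E) := by
      rw [hZ]
      exact ⟨hsI, hs⟩
    have h2 : Submodule.span F (Z : Set E) ≤ Subalgebra.toSubmodule B := by
      rw [Submodule.span_le]
      intro z hz
      exact hYB z (by rw [hY]; exact Finset.mem_union_right _ hz)
    exact h2 h1
  have hi : ∀ w ∈ W, ∀ x ∈ X, ∀ s ∈ Submodule.span F (W : Set E),
      (w * x - σ (w * x)) * s ∈ B := by
    intro w hw x hx s hs
    induction hs using Submodule.span_induction with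
    | mem s hs =>
      refine hYB _ ?_
      rw [hY]
      exact Finset.mem_union_left _ (Finset.mem_image.2
        ⟨((w, x), s), Finset.mem_product.2 ⟨Finset.mem_product.2 ⟨hw, hx⟩, hs⟩, rfl⟩)
    | zero => rw [mul_zero]; exact B.zero_mem
    | add s s' _ _ hs hs' => rw [mul_add]; exact B.add_mem hs hs'
    | smul r s _ hs => rw [mul_smul_comm]; exact B.smul_mem hs r
  have hi1 : ∀ w ∈ W, ∀ x ∈ X, w * x - σ (w * x) ∈ B := by
    intro w hw x hx
    have := hi w hw x hx 1 h1W
    rwa [mul_one] at this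
  -- right multiplication of the span of `W`
  have hWx : ∀ s ∈ Submodule.span F (W : Set E), ∀ x ∈ X,
      ∃ s' ∈ Submodule.span F (W : Set E), s * x - s' ∈ B ∧ s * x - s' ∈ I := by
    intro s hs x hx
    induction hs using Submodule.span_induction with
    | mem w hw => exact ⟨σ (w * x), hσ _, hi1 w hw x hx, hσI _⟩
    | zero => exact ⟨0, Submodule.zero_mem _, by simp, by simp⟩
    | add s t _ _ hs ht =>
      obtain ⟨s', hs', h1, h2⟩ := hs
      obtain ⟨t', ht', h3, h4⟩ := ht
      refine ⟨s' + t', Submodule.add_mem _ hs' ht', ?_, ?_⟩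
      · have : (s + t) * x - (s' + t') = (s * x - s') + (t * x - t') := by noncomm_ring
        rw [this]
        exact B.add_mem h1 h3
      · have : (s + t) * x - (s' + t') = (s * x - s') + (t * x - t') := by noncomm_ring
        rw [this]
        exact I.add_mem h2 h4
    | smul r s _ hs =>
      obtain ⟨s', hs', h1, h2⟩ := hs
      refine ⟨r • s', Submodule.smul_mem _ _ hs', ?_, ?_⟩
      · rw [smul_mul_assoc, ← smul_sub]
        exact B.smul_mem h1 r
      · rw [smul_mul_assoc, ← smul_sub]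
        exact (I.restrictScalars F).smul_mem r h2
  have hYx : ∀ y ∈ Y, ∀ x ∈ X, y * x ∈ B := by
    intro y hy x hx
    rw [hY] at hy
    rcases Finset.mem_union.1 hy with h1 | h1
    · obtain ⟨⟨⟨w, x'⟩, w'⟩, hp, rfl⟩ := Finset.mem_image.1 h1
      obtain ⟨h2, hw'⟩ := Finset.mem_product.1 hp
      obtain ⟨hw, hx'⟩ := Finset.mem_product.1 h2
      simp only at hw hx' hw' ⊢
      have h3 : (w * x' - σ (w * x')) * w' * x = (w * x' - σ (w * x')) * σ (w' * x) +
          (w * x' - σ (w * x')) * (w' * x - σ (w' * x)) := by noncomm_ring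
      rw [h3]
      exact B.add_mem (hi w hw x' hx' _ (hσ _)) (B.mul_mem (hi1 w hw x' hx') (hi1 w' hw' x hx))
    · have h2 : y ∈ Submodule.span F (W : Set E) := by
        have h3 : y ∈ Submodule.span F (Z : Set E) := Submodule.subset_span h1
        rw [hZ] at h3
        exact h3.2
      obtain ⟨s', hs', h3, h4⟩ := hWx y h2 x hx
      have h5 : s' ∈ I := by
        have h6 : y * x ∈ I := Ideal.mul_mem_right _ _ (hZI y h1)
        have h7 : s' = y * x - (y * x - s') := by noncomm_ring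
        rw [h7]
        exact I.sub_mem h6 h4
      have h6 : y * x = s' + (y * x - s') := by noncomm_ring
      rw [h6]
      exact B.add_mem (hinter s' hs' h5) h3
  have hBx : ∀ b ∈ B, ∀ x ∈ X, ∃ b' ∈ B, ∃ r : F, b * x = b' + r • x := by
    intro b hb x hx
    rw [hB] at hb
    induction hb using Algebra.adjoin_induction with
    | mem y hy => exact ⟨y * x, hYx y hy x hx, 0, by rw [zero_smul, add_zero]⟩
    | algebraMap r => exact ⟨0, B.zero_mem, r, by rw [zero_add, Algebra.smul_def]⟩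
    | add a b _ _ ha hb =>
      obtain ⟨a', ha', r, h1⟩ := ha
      obtain ⟨b', hb', s, h2⟩ := hb
      exact ⟨a' + b', B.add_mem ha' hb', r + s, by rw [add_mul, h1, h2, add_smul]; abel⟩
    | mul a b ha0 hb0 ha hb =>
      obtain ⟨a', ha', r, h1⟩ := ha
      obtain ⟨b', hb', s, h2⟩ := hb
      refine ⟨a * b' + s • a', B.add_mem (B.mul_mem (by rw [hB]; exact ha0) hb')
        (B.smul_mem ha' s), s * r, ?_⟩
      rw [mul_assoc, h2, mul_add, mul_smul_comm, h1, smul_add, smul_smul, add_assoc]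
  -- everything is a sum of an element of the span and an element of `B`
  have hall : ∀ e : E, ∃ s ∈ Submodule.span F (W : Set E), e - s ∈ B := by
    have h1 : ∀ e ∈ Algebra.adjoin F (X : Set E), ∀ u : E,
        (∃ s ∈ Submodule.span F (W : Set E), u - s ∈ B) →
        ∃ s ∈ Submodule.span F (W : Set E), u * e - s ∈ B := by
      intro e he
      induction he using Algebra.adjoin_induction with
      | mem x hx =>
        rintro u ⟨s, hs, hu⟩
        obtain ⟨s', hs', h2, -⟩ := hWx s hs x hx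
        obtain ⟨b', hb', r, h3⟩ := hBx _ hu x hx
        obtain ⟨t, ht, h4, -⟩ := hWx 1 h1W x hx
        rw [one_mul] at h4
        refine ⟨s' + r • t, Submodule.add_mem _ hs' (Submodule.smul_mem _ _ ht), ?_⟩
        have h5 : u * x - (s' + r • t) = b' + (s * x - s') + r • (x - t) := by
          have h6 : u * x = (u - s) * x + s * x := by noncomm_ring
          rw [h6, h3, smul_sub]
          abel
        rw [h5]
        exact B.add_mem (B.add_mem hb' h2) (B.smul_mem h4 r)
      | algebraMap r =>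
        rintro u ⟨s, hs, hu⟩
        refine ⟨r • s, Submodule.smul_mem _ _ hs, ?_⟩
        have h5 : u * algebraMap F E r - r • s = r • (u - s) := by
          rw [← Algebra.commutes, ← Algebra.smul_def, smul_sub]
        rw [h5]
        exact B.smul_mem hu r
      | add a b _ _ ha hb =>
        intro u hu
        obtain ⟨s, hs, h2⟩ := ha u hu
        obtain ⟨t, ht, h3⟩ := hb u hu
        refine ⟨s + t, Submodule.add_mem _ hs ht, ?_⟩
        have h5 : u * (a + b) - (s + t) = (u * a - s) + (u * b - t) := by noncomm_ring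
        rw [h5]
        exact B.add_mem h2 h3
      | mul a b _ _ ha hb =>
        intro u hu
        rw [← mul_assoc]
        exact hb _ (ha u hu)
    intro e
    have h2 := h1 e (by rw [hX]; trivial) 1 ⟨1, h1W, by rw [sub_self]; exact B.zero_mem⟩
    rwa [one_mul] at h2
  have hBI : ∀ b ∈ B, ∃ r : F, b - algebraMap F E r ∈ I := by
    intro b hb
    rw [hB] at hb
    induction hb using Algebra.adjoin_induction with
    | mem y hy => exact ⟨0, by rw [map_zero, sub_zero]; exact hYI hy⟩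
    | algebraMap r => exact ⟨r, by rw [sub_self]; exact I.zero_mem⟩
    | add a b _ _ ha hb =>
      obtain ⟨r, h1⟩ := ha
      obtain ⟨s, h2⟩ := hb
      refine ⟨r + s, ?_⟩
      have h3 : a + b - algebraMap F E (r + s) = (a - algebraMap F E r) +
          (b - algebraMap F E s) := by rw [map_add]; abel
      rw [h3]
      exact I.add_mem h1 h2
    | mul a b _ _ ha hb =>
      obtain ⟨r, h1⟩ := ha
      obtain ⟨s, h2⟩ := hb
      refine ⟨r * s, ?_⟩
      have h3 : a * b - algebraMap F E (r * s) = (a - algebraMap F E r) * b +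
          algebraMap F E r * (b - algebraMap F E s) := by rw [map_mul]; noncomm_ring
      rw [h3]
      exact I.add_mem (Ideal.mul_mem_right _ _ h1) (I.mul_mem_left _ h2)
  refine ⟨Y, hYI, fun a ha => ?_⟩
  rw [← hB]
  obtain ⟨s, hs, h1⟩ := hall a
  obtain ⟨r, h2⟩ := hBI _ h1
  have h3 : s + algebraMap F E r ∈ B := by
    refine hinter _ (Submodule.add_mem _ hs ?_) ?_
    · rw [Algebra.algebraMap_eq_smul_one]
      exact Submodule.smul_mem _ _ h1W
    · have h4 : s + algebraMap F E r = a - (a - s - algebraMap F E r) := by abel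
      rw [h4]
      exact I.sub_mem ha h2
  have h4 : a = (a - s) + (s + algebraMap F E r) - algebraMap F E r := by abel
  rw [h4]
  exact B.sub_mem (B.add_mem h1 h3) (B.algebraMap_mem r)

theorem rf_of_subalgebra {F E : Type*} [Field F] [Ring E] [Algebra F E]
    (I : Ideal E) [I.IsTwoSided] [Finite (E ⧸ I)] (B : Subalgebra F E)
    (hIB : (I : Set E) ⊆ B) (hB : RF B) : RF E := by
  classical
  intro a ha
  by_cases haI : a ∈ I
  swap
  · exact ⟨I, inferInstance, inferInstance, haI⟩
  obtain ⟨JB, hJB, hfin, haJ⟩ := hB ⟨a, hIB haI⟩ (by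
    intro h
    exact ha (congrArg Subtype.val h))
  -- the subgroup
  obtain ⟨T, hT⟩ : ∃ T : Set E, T = {x | x ∈ I ∧ ∃ h : x ∈ B, (⟨x, h⟩ : B) ∈ JB} := ⟨_, rfl⟩
  have hTadd : ∀ x ∈ T, ∀ y ∈ T, x + y ∈ T := by
    rw [hT]
    rintro x ⟨h1, h2, h3⟩ y ⟨h4, h5, h6⟩
    exact ⟨I.add_mem h1 h4, B.add_mem h2 h5, JB.add_mem h3 h6⟩
  have hTl : ∀ i ∈ I, ∀ x ∈ T, i * x ∈ T := by
    rw [hT]
    rintro i hi x ⟨h1, h2, h3⟩
    exact ⟨I.mul_mem_left _ h1, B.mul_mem (hIB hi) h2, JB.mul_mem_left ⟨i, hIB hi⟩ h3⟩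
  have hTr : ∀ i ∈ I, ∀ x ∈ T, x * i ∈ T := by
    rw [hT]
    rintro i hi x ⟨h1, h2, h3⟩
    exact ⟨Ideal.mul_mem_right _ _ h1, B.mul_mem h2 (hIB hi),
      Ideal.mul_mem_right (⟨i, hIB hi⟩ : B) _ h3⟩
  obtain ⟨J, hJ⟩ : ∃ J : Ideal E, ∀ x, x ∈ J ↔ ∀ e e' : E, e * x * e' ∈ T := by
    have h1 : ∀ x y : E, (∀ e e' : E, e * x * e' ∈ T) → (∀ e e' : E, e * y * e' ∈ T) →
        ∀ e e' : E, e * (x + y) * e' ∈ T := by
      intro x y hx hy e e'
      rw [mul_add, add_mul]
      exact hTadd _ (hx e e') _ (hy e e')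
    have h2 : ∀ e e' : E, e * 0 * e' ∈ T := by
      intro e e'
      rw [mul_zero, zero_mul, hT]
      exact ⟨I.zero_mem, B.zero_mem, JB.zero_mem⟩
    have h3 : ∀ c x : E, (∀ e e' : E, e * x * e' ∈ T) → ∀ e e' : E, e * (c * x) * e' ∈ T := by
      intro c x hx e e'
      rw [← mul_assoc]
      exact hx (e * c) e'
    let J : Ideal E :=
      { carrier := {x | ∀ e e' : E, e * x * e' ∈ T}
        add_mem' := fun {x y} hx hy => h1 x y hx hy
        zero_mem' := h2
        smul_mem' := fun c x hx => h3 c x hx }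
    exact ⟨J, fun x => Iff.rfl⟩
  have hJ2 : J.IsTwoSided := by
    refine ⟨fun {x} r hx => ?_⟩
    rw [hJ] at hx ⊢
    intro e e'
    have h1 : e * (x * r) * e' = e * x * (r * e') := by noncomm_ring
    rw [h1]
    exact hx _ _
  have hc : ∀ q : E ⧸ I, ∃ e : E, Submodule.Quotient.mk e = q :=
    fun q => Submodule.Quotient.mk_surjective I q
  choose c hc using hc
  have hcI : ∀ x : E, x - c (Submodule.Quotient.mk x) ∈ I := by
    intro x
    exact (Submodule.Quotient.eq I).1 (hc _).symm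
  obtain ⟨ρ, hρ0, hρ1⟩ : ∃ ρ : Option (E ⧸ I) → E, ρ none = 1 ∧ ∀ q, ρ (some q) = c q :=
    ⟨fun o => o.elim 1 c, rfl, fun q => rfl⟩
  have hmem : ∀ (x : E) (p p' : Option (E ⧸ I)),
      ρ p * (x - c (Submodule.Quotient.mk x)) * ρ p' ∈ I := fun x p p' =>
    Ideal.mul_mem_right _ _ (I.mul_mem_left _ (hcI x))
  let Ψ : E → (E ⧸ I) × (Option (E ⧸ I) × Option (E ⧸ I) → B ⧸ JB) := fun x =>
    (Submodule.Quotient.mk x, fun p => Submodule.Quotient.mk
      ⟨ρ p.1 * (x - c (Submodule.Quotient.mk x)) * ρ p.2, hIB (hmem x p.1 p.2)⟩)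
  have hΨ : ∀ x x', Ψ x = Ψ x' → x - x' ∈ J := by
    intro x x' h
    have h1 : (Submodule.Quotient.mk x : E ⧸ I) = Submodule.Quotient.mk x' := congrArg Prod.fst h
    have h2 : ∀ p p', ρ p * (x - x') * ρ p' ∈ T := by
      intro p p'
      have h3 := congrFun (congrArg Prod.snd h) (p, p')
      have h4 := (Submodule.Quotient.eq JB).1 h3
      rw [hT]
      have e1 : ρ p * (x - x') * ρ p' = ρ p * (x - c (Submodule.Quotient.mk x)) * ρ p' -
          ρ p * (x' - c (Submodule.Quotient.mk x')) * ρ p' := by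
        rw [h1]
        noncomm_ring
      refine ⟨?_, ?_, ?_⟩
      · rw [e1]
        exact I.sub_mem (hmem _ _ _) (hmem _ _ _)
      · rw [e1]
        exact B.sub_mem (hIB (hmem _ _ _)) (hIB (hmem _ _ _))
      · have e2 : (⟨ρ p * (x - x') * ρ p', by
            rw [e1]
            exact B.sub_mem (hIB (hmem _ _ _)) (hIB (hmem _ _ _))⟩ : B) =
          ⟨ρ p * (x - c (Submodule.Quotient.mk x)) * ρ p', hIB (hmem x p p')⟩ -
          ⟨ρ p * (x' - c (Submodule.Quotient.mk x')) * ρ p', hIB (hmem x' p p')⟩ :=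
          Subtype.ext e1
        rw [e2]
        exact h4
    rw [hJ]
    intro e e'
    have hi0 := hcI e
    have hi1 := hcI e'
    obtain ⟨i0, hi0'⟩ : ∃ i0, i0 = e - c (Submodule.Quotient.mk e) := ⟨_, rfl⟩
    obtain ⟨i1, hi1'⟩ : ∃ i1, i1 = e' - c (Submodule.Quotient.mk e') := ⟨_, rfl⟩
    rw [← hi0'] at hi0
    rw [← hi1'] at hi1
    have k1 := h2 (some (Submodule.Quotient.mk e)) (some (Submodule.Quotient.mk e'))
    have k2 := hTl i0 hi0 _ (h2 none (some (Submodule.Quotient.mk e')))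
    have k3 := hTr i1 hi1 _ (h2 (some (Submodule.Quotient.mk e)) none)
    have k4 := hTl i0 hi0 _ (hTr i1 hi1 _ (h2 none none))
    rw [hρ0] at k2 k3 k4
    rw [hρ1] at k1 k2 k3
    rw [hρ1] at k1
    have e3 : e * (x - x') * e' =
        c (Submodule.Quotient.mk e) * (x - x') * c (Submodule.Quotient.mk e') +
        i0 * (1 * (x - x') * c (Submodule.Quotient.mk e')) +
        c (Submodule.Quotient.mk e) * (x - x') * 1 * i1 + i0 * (1 * (x - x') * 1 * i1) := by
      rw [hi0', hi1']
      noncomm_ring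
    rw [e3]
    exact hTadd _ (hTadd _ (hTadd _ k1 _ k2) _ k3) _ k4
  refine ⟨J, hJ2, ?_, ?_⟩
  · have h1 : ∀ t : Set.range Ψ, ∃ x, Ψ x = t := fun t => t.2
    choose g hg using h1
    refine Finite.of_surjective (fun t : Set.range Ψ => (Submodule.Quotient.mk (g t) : E ⧸ J)) ?_
    intro q
    obtain ⟨x, rfl⟩ := Submodule.Quotient.mk_surjective J q
    refine ⟨⟨Ψ x, x, rfl⟩, ?_⟩
    exact (Submodule.Quotient.eq J).2 (hΨ _ _ (hg _))
  · intro haJ'
    rw [hJ] at haJ'
    have h1 := haJ' 1 1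
    rw [one_mul, mul_one, hT] at h1
    obtain ⟨-, h2, h3⟩ := h1
    exact haJ h3

end LRF
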