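import Pool.Agent.T2H69.LRF.Acc
import Pool.Agent.T2H69.LRF.CommRF

/-!
# Finitely generated subdirectly irreducible algebras are finite
-/

namespace LRF

open TensorProduct

universe u


section
variable {F : Type*} {C : Type*} {E : Type*} [Field F] [CommRing C] [Algebra F C] [Ring E]
  [Algebra F E]

theorem exists_bimod {π : E →ₐ[F] C} (hπ : Function.Surjective π) {σ : C →ₗ[F] E}
    (hσ : ∀ c, π (σ c) = c) (B : Finset E)
    (hB : ∀ u ∈ tsp (B : Set E), ∀ x ∈ RingHom.ker π, x * u = 0 ∧ u * x = 0) :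
    ∃ Ψ : (B → (C ⊗[F] C)) →+ E,
      (∀ p e e', Ψ ((π e ⊗ₜ[F] π e') • p) = e * Ψ p * e') ∧
      (∀ x, x ∈ tsp (B : Set E) ↔ ∃ p, Ψ p = x) := by
  classical
  set N := RingHom.ker π with hN
  have hBt : ∀ z : B, (z : E) ∈ tsp (B : Set E) := fun z => subset_tsp _ z.2
  have hk : ∀ e, σ (π e) - e ∈ N := by
    intro e; rw [hN, RingHom.mem_ker, map_sub, hσ, sub_self]
  have hBil : ∀ n ∈ tsp (B : Set E), ∀ e e', Bil σ n (π e ⊗ₜ π e') = e * n * e' := by
    intro n hn e e'
    rw [Bil_apply]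
    have h1 : σ (π e) * n = e * n := by
      rw [← sub_eq_zero, ← sub_mul]; exact (hB n hn _ (hk e)).1
    have h2 : e * n * σ (π e') = e * n * e' := by
      rw [← sub_eq_zero, ← mul_sub]; exact (hB _ (Ideal.mul_mem_left _ e hn) _ (hk e')).2
    rw [h1, h2]
  have hBs : ∀ n ∈ tsp (B : Set E), ∀ (e e' : E) (t : C ⊗[F] C),
      Bil σ n ((π e ⊗ₜ[F] π e') • t) = e * Bil σ n t * e' := by
    intro n hn c d t
    induction t using TensorProduct.induction_on with
    | zero => simp
    | add a b ha hb => rw [smul_add, map_add, ha, hb, map_add, mul_add, add_mul]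
    | tmul a a' =>
      obtain ⟨a, rfl⟩ := hπ a
      obtain ⟨a', rfl⟩ := hπ a'
      have h1 : (π c ⊗ₜ[F] π d) • (π a ⊗ₜ[F] π a') = π (c * a) ⊗ₜ[F] π (a' * d) := by
        rw [smul_eq_mul, Algebra.TensorProduct.tmul_mul_tmul, map_mul,
          map_mul, mul_comm (π d)]
      rw [h1, hBil n hn, hBil n hn]
      simp only [mul_assoc]
  let P := B → (C ⊗[F] C)
  let Ψ : P →+ E := ∑ k : B,
    ((Bil σ (k : E)).toAddMonoidHom).comp
      (Pi.evalAddMonoidHom (fun _ : B => (C ⊗[F] C)) k)
  have hΨ_apply : ∀ p : P, Ψ p = ∑ k : B, Bil σ (k : E) (p k) := by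
    intro p
    simp only [Ψ, AddMonoidHom.finsetSum_apply, AddMonoidHom.comp_apply]
    rfl
  have hΨ : ∀ (p : P) e e', Ψ ((π e ⊗ₜ[F] π e') • p) = e * Ψ p * e' := by
    intro p c d
    rw [hΨ_apply, hΨ_apply, Finset.mul_sum, Finset.sum_mul]
    refine Finset.sum_congr rfl fun k _ => ?_
    rw [Pi.smul_apply, hBs _ (hBt k)]
  refine ⟨Ψ, hΨ, fun x => ⟨fun hx => ?_, ?_⟩⟩
  · unfold tsp at hx
    change x ∈ (Ψ.range : AddSubgroup E)
    induction hx using Submodule.span_induction with
    | mem x hx =>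
      obtain ⟨z, hz, e, rfl⟩ := hx
      refine ⟨Pi.single (⟨z, hz⟩ : B) (π 1 ⊗ₜ[F] π e), ?_⟩
      rw [hΨ_apply, Finset.sum_eq_single (⟨z, hz⟩ : B)]
      · rw [Pi.single_eq_same, hBil z (hBt ⟨z, hz⟩), one_mul]
      · intro k _ hk
        rw [Pi.single_eq_of_ne hk, map_zero]
      · intro h; exact absurd (Finset.mem_univ _) h
    | zero => exact zero_mem _
    | add a b _ _ ha hb => exact add_mem ha hb
    | smul r x _ hx =>
      obtain ⟨p, rfl⟩ := hx
      exact ⟨(π r ⊗ₜ[F] π 1) • p, by rw [hΨ, mul_one]; rfl⟩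
  · rintro ⟨p, rfl⟩
    rw [hΨ_apply]
    refine sum_mem fun k _ => ?_
    generalize p k = t
    induction t using TensorProduct.induction_on with
    | zero => simp
    | add a b ha hb => rw [map_add]; exact add_mem ha hb
    | tmul a a' =>
      obtain ⟨a, rfl⟩ := hπ a
      obtain ⟨a', rfl⟩ := hπ a'
      rw [hBil _ (hBt k)]
      exact Ideal.mul_mem_right _ _ (Ideal.mul_mem_left _ _ (hBt k))

/-- A two-sided ideal on which `ker π` acts trivially from both sides is finite, if some nonzero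
element lies in all nonzero two-sided ideals. -/
theorem finite_of_killed [Finite F] [Algebra.FiniteType F C] {π : E →ₐ[F] C}
    (hπ : Function.Surjective π) (hTS : TSNoeth E) (a : E) (ha0 : a ≠ 0)
    (ha : ∀ J : Ideal E, J.IsTwoSided → J ≠ ⊥ → a ∈ J)
    (U : Ideal E) [U.IsTwoSided]
    (hU : ∀ u ∈ U, ∀ x ∈ RingHom.ker π, x * u = 0 ∧ u * x = 0) : Finite U := by
  classical
  obtain ⟨σ, hσ⟩ := exists_section hπ
  obtain ⟨B, hB⟩ := hTS U inferInstance
  by_cases hbot : U = ⊥
  · rw [hbot]; infer_instance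
  have haU : a ∈ U := ha U inferInstance hbot
  obtain ⟨Ψ, hΨ, hrange⟩ := exists_bimod hπ hσ B (by rw [← hB]; exact hU)
  have hft2 : Algebra.FiniteType F (C ⊗[F] C) :=
    Algebra.FiniteType.trans (S := C) inferInstance (Algebra.FiniteType.baseChange C)
  let K : Submodule (C ⊗[F] C) (B → (C ⊗[F] C)) :=
    { carrier := {p | Ψ p = 0}
      add_mem' := fun {x y} hx hy => by
        change Ψ (x + y) = 0
        rw [map_add, show Ψ x = 0 from hx, show Ψ y = 0 from hy, add_zero]
      zero_mem' := map_zero Ψ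
      smul_mem' := fun r p hp => by
        change Ψ (r • p) = 0
        have hp' : Ψ p = 0 := hp
        induction r using TensorProduct.induction_on with
        | zero => simp
        | add a b ha hb => rw [add_smul, map_add, ha, hb, add_zero]
        | tmul c d =>
          obtain ⟨c, rfl⟩ := hπ c
          obtain ⟨d, rfl⟩ := hπ d
          rw [hΨ, hp']; simp }
  rw [hB] at haU
  obtain ⟨pa, hpa⟩ := (hrange a).mp haU
  have hpaK : pa ∉ K := fun h => ha0 (by rw [← hpa]; exact h)
  obtain ⟨Q, hKQ, hpQ, hfin⟩ := exists_finite_quotient (F := F) K pa hpaK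
  -- the image of `Q` is a two-sided ideal
  let U1 : Ideal E :=
    { carrier := {x | ∃ q ∈ Q, Ψ q = x}
      add_mem' := by
        rintro _ _ ⟨q, hq, rfl⟩ ⟨q', hq', rfl⟩
        exact ⟨q + q', add_mem hq hq', map_add _ _ _⟩
      zero_mem' := ⟨0, zero_mem _, map_zero _⟩
      smul_mem' := by
        rintro r _ ⟨q, hq, rfl⟩
        exact ⟨(π r ⊗ₜ[F] π 1) • q, Q.smul_mem _ hq, by rw [hΨ, mul_one]; rfl⟩ }
  have hU1t : U1.IsTwoSided := ⟨by
    rintro _ b ⟨q, hq, rfl⟩
    exact ⟨(π 1 ⊗ₜ[F] π b) • q, Q.smul_mem _ hq, by rw [hΨ, one_mul]⟩⟩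
  have haU1 : a ∉ U1 := by
    rintro ⟨q, hq, hqa⟩
    apply hpQ
    have : pa - q ∈ K := by
      change Ψ (pa - q) = 0
      rw [map_sub, hpa, hqa, sub_self]
    have := Q.add_mem (hKQ this) hq
    simpa using this
  have hU1 : U1 = ⊥ := by
    by_contra h
    exact haU1 (ha U1 hU1t h)
  have hQK : Q ≤ K := by
    intro q hq
    have : Ψ q ∈ U1 := ⟨q, hq, rfl⟩
    rw [hU1] at this
    have h0 : Ψ q = 0 := by simpa using this
    exact h0
  -- `U` is a quotient of `P / Q`
  have hfU : Finite (tsp (B : Set E)) := by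
    refine Finite.of_surjective (α := (B → (C ⊗[F] C)) ⧸ Q)
      (fun x => (⟨Ψ (Function.surjInv (Submodule.Quotient.mk_surjective Q) x),
        (hrange _).mpr ⟨_, rfl⟩⟩ : tsp (B : Set E))) ?_
    rintro ⟨x, hx⟩
    obtain ⟨p, rfl⟩ := (hrange x).mp hx
    refine ⟨Submodule.Quotient.mk p, Subtype.ext ?_⟩
    simp only
    have h1 : Function.surjInv (Submodule.Quotient.mk_surjective Q)
        (Submodule.Quotient.mk p : (B → (C ⊗[F] C)) ⧸ Q) - p ∈ Q := by
      have h0 := Function.surjInv_eq (Submodule.Quotient.mk_surjective Q)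
        (Submodule.Quotient.mk p : (B → (C ⊗[F] C)) ⧸ Q)
      rw [← Submodule.Quotient.mk_eq_zero, Submodule.Quotient.mk_sub, h0, sub_self]
    have h2 := hQK h1
    have h3 : Ψ (Function.surjInv (Submodule.Quotient.mk_surjective Q)
        (Submodule.Quotient.mk p : (B → (C ⊗[F] C)) ⧸ Q) - p) = 0 := h2
    rw [map_sub, sub_eq_zero] at h3
    exact h3
  rw [hB]
  exact hfU

end

section finiteness
variable {E : Type*} [Ring E]

theorem finite_quotient_of_map {T : Type*} [Finite T] (J : Ideal E) (ψ : E → T)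
    (h : ∀ x y, ψ x = ψ y → x - y ∈ J) : Finite (E ⧸ J) := by
  refine Finite.of_injective
    (fun q : E ⧸ J => ψ (Function.surjInv (Submodule.Quotient.mk_surjective J) q)) ?_
  intro q q' hq
  have h1 := h _ _ hq
  have h2 := (Submodule.Quotient.eq J).mpr h1
  have e1 := Function.surjInv_eq (Submodule.Quotient.mk_surjective J) q
  have e2 := Function.surjInv_eq (Submodule.Quotient.mk_surjective J) q'
  rw [e1, e2] at h2
  exact h2

theorem finite_of_fibers {T : Type*} [Finite T] (U0 U : Ideal E) (h0 : Finite U0) (ψ : U → T)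
    (h : ∀ x y : U, ψ x = ψ y → (x : E) - y ∈ U0) : Finite U := by
  classical
  by_contra hinf
  have hinf' : Infinite U := not_finite_iff_infinite.mp hinf
  obtain ⟨t, ht⟩ := Finite.exists_infinite_fiber ψ
  have hne : (ψ ⁻¹' {t}).Nonempty := Set.nonempty_coe_sort.mp inferInstance
  obtain ⟨x0, hx0⟩ := hne
  have : Finite (ψ ⁻¹' {t}) := by
    refine Finite.of_injective (fun y : ψ ⁻¹' {t} =>
      (⟨(y : U) - x0, h _ _ (y.2.trans hx0.symm)⟩ : U0)) ?_
    rintro ⟨y, hy⟩ ⟨y', hy'⟩ hyy
    simp only [Subtype.mk.injEq, sub_left_inj] at hyy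
    exact Subtype.ext (Subtype.ext hyy)
  exact not_finite (ψ ⁻¹' {t})

theorem finite_sup' (I J : Ideal E) (hI : (I : Set E).Finite) (hJ : (J : Set E).Finite) :
    ((I ⊔ J : Ideal E) : Set E).Finite := by
  rw [Submodule.coe_sup]
  exact hI.add hJ

/-- the largest locally finite ideal -/
def finIdeal (E : Type*) [Ring E] : Ideal E where
  carrier := {x | ((tsp {x} : Ideal E) : Set E).Finite}
  add_mem' := by
    intro x y hx hy
    refine (finite_sup' _ _ hx hy).subset ?_
    have : tsp {x + y} ≤ tsp {x} ⊔ tsp {y} := by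
      have : (tsp {x} ⊔ tsp {y} : Ideal E).IsTwoSided := ⟨by
        intro a b ha
        obtain ⟨u, hu, v, hv, rfl⟩ := Submodule.mem_sup.mp ha
        rw [add_mul]
        exact Submodule.add_mem_sup (Ideal.mul_mem_right _ _ hu) (Ideal.mul_mem_right _ _ hv)⟩
      refine tsp_le ?_
      rintro _ rfl
      exact Submodule.add_mem_sup (subset_tsp _ rfl) (subset_tsp _ rfl)
    exact this
  zero_mem' := by
    have : (tsp {(0 : E)} : Ideal E) ≤ ⊥ := tsp_le (by rintro _ rfl; simp)
    rw [Set.mem_ofPred_eq, le_bot_iff.mp this]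
    simp
  smul_mem' := by
    intro c x hx
    refine hx.subset ?_
    have : tsp {c • x} ≤ tsp {x} := by
      refine tsp_le ?_
      rintro _ rfl
      exact Ideal.mul_mem_left _ _ (subset_tsp _ rfl)
    exact this

instance finIdeal_isTwoSided : (finIdeal E).IsTwoSided := ⟨by
  intro x b hx
  refine (show ((tsp {x} : Ideal E) : Set E).Finite from hx).subset ?_
  have : tsp {x * b} ≤ tsp {x} := by
    refine tsp_le ?_
    rintro _ rfl
    exact Ideal.mul_mem_right _ _ (subset_tsp _ rfl)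
  exact this⟩

theorem finite_tsp_of_subset (Z : Finset E) (hZ : (Z : Set E) ⊆ finIdeal E) :
    ((tsp (Z : Set E) : Ideal E) : Set E).Finite := by
  classical
  induction Z using Finset.induction_on with
  | empty =>
    have : (tsp ((∅ : Finset E) : Set E) : Ideal E) ≤ ⊥ := tsp_le (by simp)
    rw [le_bot_iff.mp this]
    simp
  | insert z Z _ ih =>
    have h1 : ((tsp {z} : Ideal E) : Set E).Finite := hZ (by simp)
    have h2 := ih (fun x hx => hZ (by
      rw [Finset.coe_insert]; exact Set.mem_insert_of_mem _ hx))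
    refine (finite_sup' _ _ h1 h2).subset ?_
    have : (tsp {z} ⊔ tsp (Z : Set E) : Ideal E).IsTwoSided := ⟨by
      intro a b ha
      obtain ⟨u, hu, v, hv, rfl⟩ := Submodule.mem_sup.mp ha
      rw [add_mul]
      exact Submodule.add_mem_sup (Ideal.mul_mem_right _ _ hu) (Ideal.mul_mem_right _ _ hv)⟩
    have : tsp ((insert z Z : Finset E) : Set E) ≤ tsp {z} ⊔ tsp (Z : Set E) := by
      refine tsp_le ?_
      rw [Finset.coe_insert]
      rintro x (rfl | hx)
      · exact Submodule.mem_sup_left (subset_tsp _ rfl)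
      · exact Submodule.mem_sup_right (subset_tsp _ hx)
    exact this

theorem finite_finIdeal (hTS : TSNoeth E) : Finite (finIdeal E) := by
  obtain ⟨Z, hZ⟩ := hTS (finIdeal E) inferInstance
  have := finite_tsp_of_subset Z (by rw [hZ]; exact subset_tsp _)
  rw [← hZ] at this
  exact this.to_subtype

theorem le_finIdeal (U : Ideal E) [U.IsTwoSided] (hU : Finite U) : U ≤ finIdeal E := by
  intro x hx
  refine (Set.toFinite (U : Set E)).subset ?_
  have : tsp {x} ≤ U := tsp_le (by rintro _ rfl; exact hx)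
  exact this

end finiteness

section
variable {F : Type*} {C : Type*} {E : Type*} [Field F] [CommRing C] [Algebra F C] [Ring E]
  [Algebra F E]

theorem fin_index [Finite F] [Algebra.FiniteType F C] {π : E →ₐ[F] C}
    (hπ : Function.Surjective π) (J I : Ideal E) [J.IsTwoSided] [I.IsTwoSided]
    (hJ : RingHom.ker π ≤ J) (hI : Finite (E ⧸ I)) (γ : Polynomial F) (hγ : γ ≠ 0)
    (h : ∀ s ∈ I, Polynomial.aeval s γ * s ∈ J) : Finite (E ⧸ J) := by
  classical
  set J' : Ideal C := J.map (π : E →+* C) with hJ'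
  let φ : E →ₐ[F] (C ⧸ J') := (Ideal.Quotient.mkₐ F J').comp π
  have hφ : Function.Surjective φ := (Ideal.Quotient.mk_surjective).comp hπ
  have hφJ : ∀ x ∈ J, φ x = 0 := fun x hx =>
    Ideal.Quotient.eq_zero_iff_mem.mpr (Ideal.mem_map_of_mem (π : E →+* C) hx)
  have hint : Algebra.IsIntegral F (C ⧸ J') := by
    refine ⟨fun c => ?_⟩
    obtain ⟨x, rfl⟩ := hφ c
    -- two powers of `x` agree modulo `I`
    obtain ⟨p, q, hpq, hxx⟩ : ∃ p q : ℕ, p ≠ q ∧
        Ideal.Quotient.mk I (x ^ p) = Ideal.Quotient.mk I (x ^ q) := by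
      have hni : ¬ Function.Injective (fun n : ℕ => Ideal.Quotient.mk I (x ^ n)) :=
        not_injective_infinite_finite _
      simp only [Function.Injective, not_forall] at hni
      obtain ⟨p, q, h1, h2⟩ := hni
      exact ⟨p, q, h2, h1⟩
    have hs : x ^ p - x ^ q ∈ I := (Ideal.Quotient.eq).mp hxx
    have h1 := hφJ _ (h _ hs)
    let δ : Polynomial F := Polynomial.X ^ p - Polynomial.X ^ q
    have h2 : Polynomial.aeval (φ x) ((γ * Polynomial.X).comp δ) = 0 := by
      rw [Polynomial.aeval_comp, map_mul, Polynomial.aeval_X, ← h1, map_mul,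
        ← Polynomial.aeval_algHom_apply]
      simp [δ]
    have h3 : (γ * Polynomial.X).comp δ ≠ 0 := by
      rw [Ne, Polynomial.comp_eq_zero_iff]
      push Not
      refine ⟨mul_ne_zero hγ Polynomial.X_ne_zero, fun _ hδ => ?_⟩
      have hc := congrArg (fun t : Polynomial F => t.coeff (max p q)) hδ
      simp only [δ, Polynomial.coeff_sub, Polynomial.coeff_X_pow, Polynomial.coeff_C] at hc
      rcases Nat.lt_or_gt_of_ne hpq with hlt | hlt
      · rw [max_eq_right hlt.le] at hc
        have : q ≠ 0 := by omega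
        simp [this, hlt.ne'] at hc
      · rw [max_eq_left hlt.le] at hc
        have : p ≠ 0 := by omega
        simp [this, hlt.ne'] at hc
    have h4 : IsAlgebraic F (φ x) := ⟨_, h3, h2⟩
    exact h4.isIntegral
  have hfin : Module.Finite F (C ⧸ J') := Algebra.IsIntegral.finite
  have hfin2 : Finite (C ⧸ J') := Module.finite_of_finite F
  refine finite_quotient_of_map J (fun x => φ x) ?_
  intro x y hxy
  have h1 : φ (x - y) = 0 := by rw [map_sub]; exact sub_eq_zero.mpr hxy
  have h2 : π (x - y) ∈ J' := Ideal.Quotient.eq_zero_iff_mem.mp h1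
  obtain ⟨z, hz, hzz⟩ := (Ideal.mem_map_iff_of_surjective (π : E →+* C) hπ).mp h2
  have h3 : x - y - z ∈ RingHom.ker π := by
    rw [RingHom.mem_ker, map_sub, sub_eq_zero]; exact hzz.symm
  have h4 := add_mem (hJ h3) hz
  simpa using h4

/-- a finitely generated subdirectly irreducible algebra satisfying the key relation is finite -/
theorem finite_of_SI [Finite F] (f : List ℕ →₀ F) (i j : ℕ) (hmid : middleL i j f ≠ 0)
    (π : E →ₐ[F] C) (I : Ideal E) [I.IsTwoSided] (Y : Finset C) (hD : GenData F π I Y)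
    (hf : HoldsOn f (I : Set E)) (hIfin : Finite (E ⧸ I)) (hTS : TSNoeth E)
    (r : ℕ) (hr : (RingHom.ker π) ^ r = ⊥) (a : E) (ha0 : a ≠ 0)
    (ha : ∀ J : Ideal E, J.IsTwoSided → J ≠ ⊥ → a ∈ J) : Finite E := by
  classical
  have hft : Algebra.FiniteType F C := ⟨⟨Y, hD.adj⟩⟩
  obtain ⟨G, hG, hrel⟩ := key_relation' f i j hmid
  set γ : Polynomial F := phi0 G with hγdef
  have hγ : γ ≠ 0 := by
    obtain ⟨n, hn⟩ := hG
    intro h0
    apply hn
    rw [← coeff_phi0, ← hγdef, h0, Polynomial.coeff_zero]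
  by_contra hinf
  set N := RingHom.ker π with hN
  set D : Ideal E := finIdeal E with hDdef
  have hDfin : Finite D := finite_finIdeal hTS
  -- the annihilator of `D`
  let ID : Ideal E :=
    { carrier := {x | x ∈ I ∧ ∀ d ∈ D, x * d = 0 ∧ d * x = 0}
      add_mem' := by
        rintro x y ⟨hx, hx'⟩ ⟨hy, hy'⟩
        refine ⟨add_mem hx hy, fun d hd => ?_⟩
        rw [add_mul, mul_add, (hx' d hd).1, (hx' d hd).2, (hy' d hd).1, (hy' d hd).2]
        simp
      zero_mem' := ⟨zero_mem _, by simp⟩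
      smul_mem' := by
        rintro c x ⟨hx, hx'⟩
        refine ⟨I.mul_mem_left _ hx, fun d hd => ?_⟩
        rw [smul_eq_mul, mul_assoc, (hx' d hd).1, ← mul_assoc, (hx' _ (D.mul_mem_right c hd)).2]
        simp }
  have hIDt : ID.IsTwoSided := ⟨by
    rintro x b ⟨hx, hx'⟩
    refine ⟨I.mul_mem_right _ hx, fun d hd => ?_⟩
    rw [mul_assoc, (hx' _ (D.mul_mem_left b hd)).1, ← mul_assoc, (hx' d hd).2]
    simp⟩
  have hIDI : ID ≤ I := fun x hx => hx.1
  have hIDfin : Finite (E ⧸ ID) := by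
    refine finite_quotient_of_map ID (fun x : E => ((Ideal.Quotient.mk I x,
      fun d : D => (⟨x * d, D.mul_mem_left x d.2⟩ : D),
      fun d : D => (⟨d * x, D.mul_mem_right x d.2⟩ : D)) : (E ⧸ I) × (D → D) × (D → D))) ?_
    intro x y hxy
    simp only [Prod.mk.injEq] at hxy
    obtain ⟨h1, h2, h3⟩ := hxy
    refine ⟨Ideal.Quotient.eq.mp h1, fun d hd => ?_⟩
    have h2' := congrArg Subtype.val (congrFun h2 ⟨d, hd⟩)
    have h3' := congrArg Subtype.val (congrFun h3 ⟨d, hd⟩)
    simp only at h2' h3'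
    rw [sub_mul, mul_sub, h2', h3', sub_self, sub_self]
    simp
  have hIDnot : ¬ ID ≤ D := by
    intro hle
    apply hinf
    have h1 : Finite ID := Finite.of_injective (fun x : ID => (⟨x, hle x.2⟩ : D))
      (fun x y hxy => Subtype.ext (by simpa using hxy))
    have h2 : Finite (⊤ : Ideal E) := finite_of_fibers ID ⊤ h1
      (fun x : (⊤ : Ideal E) => Ideal.Quotient.mk ID (x : E)) (fun x y hxy =>
        Ideal.Quotient.eq.mp hxy)
    exact Finite.of_injective (fun x : E => (⟨x, trivial⟩ : (⊤ : Ideal E)))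
      (fun x y hxy => by
        have : (⟨x, trivial⟩ : (⊤ : Ideal E)) = ⟨y, trivial⟩ := hxy
        exact congrArg (fun t : (⊤ : Ideal E) => (t : E)) this)
  -- the ideal `U`
  obtain ⟨U, hUt, hUID, hUD, hNU, hUN⟩ : ∃ U : Ideal E, U.IsTwoSided ∧ U ≤ ID ∧ ¬ U ≤ D ∧
      (∀ n ∈ N, ∀ u ∈ U, n * u ∈ D) ∧ (∀ n ∈ N, ∀ u ∈ U, u * n ∈ D) := by
    have hex : ∃ k, ¬ (N ^ k * ID ≤ D) ∧ N ^ (k + 1) * ID ≤ D := by
      by_contra hcon
      push Not at hcon
      have hall : ∀ k, ¬ (N ^ k * ID ≤ D) := by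
        intro k
        induction k with
        | zero => rw [Submodule.pow_zero, Ideal.one_eq_top, Ideal.top_mul]; exact hIDnot
        | succ k ih => exact hcon k ih
      apply hall r
      rw [hr, Ideal.bot_mul]
      exact bot_le
    obtain ⟨k, hk1, hk2⟩ := hex
    set V := N ^ k * ID with hV
    have hVID : V ≤ ID := Ideal.mul_le_right
    have hNV : ∀ n ∈ N, ∀ v ∈ V, n * v ∈ D := by
      intro n hn v hv
      refine Submodule.mul_induction_on hv ?_ ?_
      · intro x hx y hy
        rw [← mul_assoc]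
        refine hk2 (Ideal.mul_mem_mul ?_ hy)
        rw [Ideal.IsTwoSided.pow_succ]
        exact Ideal.mul_mem_mul hn hx
      · intro x y hx hy
        rw [mul_add]; exact add_mem hx hy
    have hex2 : ∃ k, ¬ (V * N ^ k ≤ D) ∧ V * N ^ (k + 1) ≤ D := by
      by_contra hcon
      push Not at hcon
      have hall : ∀ k, ¬ (V * N ^ k ≤ D) := by
        intro k
        induction k with
        | zero =>
          rw [Submodule.pow_zero, Ideal.IsTwoSided.mul_one]; exact hk1
        | succ k ih => exact hcon k ih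
      apply hall r
      rw [hr, Ideal.mul_bot]
      exact bot_le
    obtain ⟨l, hl1, hl2⟩ := hex2
    have hVU : V * N ^ l ≤ V := by
      rw [Ideal.mul_le]
      intro x hx y hy
      exact V.mul_mem_right _ hx
    refine ⟨V * N ^ l, inferInstance, hVU.trans hVID, hl1, ?_, ?_⟩
    · intro n hn u hu
      exact hNV n hn u (hVU hu)
    · intro n hn u hu
      refine Submodule.mul_induction_on hu ?_ ?_
      · intro x hx y hy
        rw [mul_assoc]
        refine hl2 (Ideal.mul_mem_mul hx ?_)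
        rw [Submodule.pow_succ]
        exact Ideal.mul_mem_mul hy hn
      · intro x y hx hy
        rw [add_mul]; exact add_mem hx hy
  have hIDD : ∀ x ∈ ID, ∀ d ∈ D, x * d = 0 ∧ d * x = 0 := fun x hx => hx.2
  -- the relation
  let N' : Ideal E := N ⊓ ID
  have hN't : N'.IsTwoSided := ⟨fun b ha => ⟨N.mul_mem_right _ ha.1, ID.mul_mem_right _ ha.2⟩⟩
  let U' : Ideal E := U ⊓ N
  have hU't : U'.IsTwoSided := ⟨fun b ha => ⟨U.mul_mem_right _ ha.1, N.mul_mem_right _ ha.2⟩⟩
  have hU'N' : U' ≤ N' := fun x hx => ⟨hx.2, hUID hx.1⟩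
  have habs : Absorbs N' U' (⊥ : Ideal E) := by
    intro x hx y hy c hc
    simp only [Submodule.mem_bot]
    refine ⟨?_, ?_, ?_⟩
    · rw [mul_assoc]; exact (hIDD x hx.2 _ (hNU y hy.1 c hc.1)).1
    · exact (hIDD y hy.2 _ (hNU x hx.1 c hc.1)).2
    · exact (hIDD y hy.2 _ (hUN x hx.1 c hc.1)).2
  have hfID : HoldsOn f (ID : Set E) := fun v hv => hf v fun l => hIDI (hv l)
  have hmiddle1 : ∀ n ∈ N', ∀ b ∈ U', ∀ s ∈ ID, n * Polynomial.aeval s γ * b = 0 := by
    intro n hn b hb s hs
    have h1 := hrel E ID N' U' ⊥ hfID inf_le_right hU'N' habs n b (Or.inl ⟨hn, hb⟩) s hs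
    have h2 : ∀ k : ℕ, s * (n * s ^ k * b) = 0 ∧ n * s ^ k * b * s = 0 := by
      intro k
      have h3 : n * s ^ k * b ∈ D := hNU _ (N.mul_mem_right _ hn.1) b hb.1
      exact hIDD s hs _ h3
    rw [Lam_eq_middle h2] at h1
    simpa using h1
  have hmiddle2 : ∀ n ∈ N', ∀ b ∈ U', ∀ s ∈ ID, b * Polynomial.aeval s γ * n = 0 := by
    intro n hn b hb s hs
    have h1 := hrel E ID N' U' ⊥ hfID inf_le_right hU'N' habs b n (Or.inr ⟨hb, hn⟩) s hs
    have h2 : ∀ k : ℕ, s * (b * s ^ k * n) = 0 ∧ b * s ^ k * n * s = 0 := by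
      intro k
      have h3 : b * s ^ k * n ∈ D := hUN n hn.1 _ (U.mul_mem_right _ hb.1)
      exact hIDD s hs _ h3
    rw [Lam_eq_middle h2] at h1
    simpa using h1
  have hcomm : ∀ x y : E, x * y - y * x ∈ N := by
    intro x y
    rw [hN, RingHom.mem_ker, map_sub, map_mul, map_mul, mul_comm, sub_self]
  -- the middle annihilators
  let J1 : Ideal E :=
    { carrier := {x | ∀ n ∈ N', ∀ b ∈ U, n * x * b = 0}
      add_mem' := by
        intro x y hx hy n hn b hb
        rw [mul_add, add_mul, hx n hn b hb, hy n hn b hb, add_zero]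
      zero_mem' := by intro n _ b _; simp
      smul_mem' := by
        intro c x hx n hn b hb
        rw [smul_eq_mul, ← mul_assoc]
        exact hx _ (N'.mul_mem_right c hn) b hb }
  have hJ1t : J1.IsTwoSided := ⟨by
    intro x c hx n hn b hb
    rw [← mul_assoc, mul_assoc]
    exact hx n hn _ (U.mul_mem_left c hb)⟩
  have hJ1N : N ≤ J1 := by
    intro x hx n hn b hb
    rw [mul_assoc]
    exact (hIDD n hn.2 _ (hNU x hx b hb)).1
  have hJ1s : ∀ s ∈ ID, Polynomial.aeval s γ * s ∈ J1 := by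
    intro s hs n hn b hb
    have h1 : s * b - b * s ∈ U' :=
      ⟨sub_mem (U.mul_mem_left _ hb) (U.mul_mem_right _ hb), hcomm s b⟩
    have h2 := hmiddle1 n hn _ h1 s hs
    have h3 : n * Polynomial.aeval s γ * b * s = 0 := by
      have : n * Polynomial.aeval s γ * b ∈ D := hNU _ (N.mul_mem_right _ hn.1) b hb
      exact (hIDD s hs _ this).2
    rw [mul_sub, ← mul_assoc, ← mul_assoc, h3, sub_zero] at h2
    rw [← h2]
    simp only [mul_assoc]
  have hJ1fin : Finite (E ⧸ J1) :=
    fin_index (F := F) hD.surj J1 ID hJ1N hIDfin γ hγ hJ1s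
  let J2 : Ideal E :=
    { carrier := {x | ∀ n ∈ N', ∀ b ∈ U, b * x * n = 0}
      add_mem' := by
        intro x y hx hy n hn b hb
        rw [mul_add, add_mul, hx n hn b hb, hy n hn b hb, add_zero]
      zero_mem' := by intro n _ b _; simp
      smul_mem' := by
        intro c x hx n hn b hb
        rw [smul_eq_mul, ← mul_assoc]
        exact hx n hn _ (U.mul_mem_right c hb) }
  have hJ2t : J2.IsTwoSided := ⟨by
    intro x c hx n hn b hb
    rw [← mul_assoc, mul_assoc]
    exact hx _ (N'.mul_mem_left c hn) _ hb⟩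
  have hJ2N : N ≤ J2 := by
    intro x hx n hn b hb
    exact (hIDD n hn.2 _ (hUN x hx b hb)).2
  have hJ2s : ∀ s ∈ ID, Polynomial.aeval s γ * s ∈ J2 := by
    intro s hs n hn b hb
    have hcs : Polynomial.aeval s γ * s = s * Polynomial.aeval s γ := by
      have : (Polynomial.aeval s (γ * Polynomial.X) : E)
          = Polynomial.aeval s (Polynomial.X * γ) := by rw [mul_comm]
      simpa using this
    have h1 : b * s - s * b ∈ U' :=
      ⟨sub_mem (U.mul_mem_right _ hb) (U.mul_mem_left _ hb), hcomm b s⟩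
    have h2 := hmiddle2 n hn _ h1 s hs
    have h3 : s * (b * Polynomial.aeval s γ * n) = 0 := by
      have : b * Polynomial.aeval s γ * n ∈ D := hUN n hn.1 _ (U.mul_mem_right _ hb)
      exact (hIDD s hs _ this).1
    have h4 : (b * s - s * b) * Polynomial.aeval s γ * n
        = b * s * Polynomial.aeval s γ * n - s * (b * Polynomial.aeval s γ * n) := by
      noncomm_ring
    rw [h4, h3, sub_zero] at h2
    rw [hcs, ← mul_assoc]
    exact h2
  have hJ2fin : Finite (E ⧸ J2) :=
    fin_index (F := F) hD.surj J2 ID hJ2N hIDfin γ hγ hJ2s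
  -- the annihilator of `N` in `U`
  let U0 : Ideal E :=
    { carrier := {b | b ∈ U ∧ ∀ n ∈ N, n * b = 0 ∧ b * n = 0}
      add_mem' := by
        rintro x y ⟨hx, hx'⟩ ⟨hy, hy'⟩
        refine ⟨add_mem hx hy, fun n hn => ?_⟩
        rw [mul_add, add_mul, (hx' n hn).1, (hx' n hn).2, (hy' n hn).1, (hy' n hn).2]
        simp
      zero_mem' := ⟨zero_mem _, by simp⟩
      smul_mem' := by
        rintro c x ⟨hx, hx'⟩
        refine ⟨U.mul_mem_left _ hx, fun n hn => ?_⟩
        rw [smul_eq_mul, ← mul_assoc, (hx' _ (N.mul_mem_right c hn)).1, mul_assoc,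
          (hx' n hn).2]
        simp }
  have hU0t : U0.IsTwoSided := ⟨by
    rintro x c ⟨hx, hx'⟩
    refine ⟨U.mul_mem_right _ hx, fun n hn => ?_⟩
    rw [← mul_assoc, (hx' n hn).1, mul_assoc, (hx' _ (N.mul_mem_left c hn)).2]
    simp⟩
  have hU0fin : Finite U0 := finite_of_killed (F := F) hD.surj hTS a ha0 ha U0
    (fun u hu x hx => hu.2 x hx)
  -- hence `U` is finite
  obtain ⟨Z', hZ'⟩ := hTS N' hN't
  let o1 : (E ⧸ J1) → E := Function.surjInv (Submodule.Quotient.mk_surjective J1)
  let o2 : (E ⧸ J2) → E := Function.surjInv (Submodule.Quotient.mk_surjective J2)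
  let o3 : (E ⧸ ID) → E := fun q => if h : ∃ n ∈ N, Ideal.Quotient.mk ID n = q then h.choose else 0
  have ho1 : ∀ e, e - o1 (Submodule.Quotient.mk e) ∈ J1 := by
    intro e
    have e1 := Function.surjInv_eq (Submodule.Quotient.mk_surjective J1)
      (Submodule.Quotient.mk e : E ⧸ J1)
    exact (Submodule.Quotient.eq J1).mp e1.symm
  have ho2 : ∀ e, e - o2 (Submodule.Quotient.mk e) ∈ J2 := by
    intro e
    have e1 := Function.surjInv_eq (Submodule.Quotient.mk_surjective J2)
      (Submodule.Quotient.mk e : E ⧸ J2)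
    exact (Submodule.Quotient.eq J2).mp e1.symm
  have ho3N : ∀ q, o3 q ∈ N := by
    intro q
    simp only [o3]
    split_ifs with h
    · exact h.choose_spec.1
    · exact N.zero_mem
  have ho3 : ∀ n ∈ N, n - o3 (Ideal.Quotient.mk ID n) ∈ N' := by
    intro n hn
    refine ⟨sub_mem hn (ho3N _), ?_⟩
    have h : ∃ m ∈ N, Ideal.Quotient.mk ID m = Ideal.Quotient.mk ID n := ⟨n, hn, rfl⟩
    have h1 : o3 (Ideal.Quotient.mk ID n) = h.choose := by
      simp only [o3]; rw [dif_pos h]
    rw [h1]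
    exact Ideal.Quotient.eq.mp h.choose_spec.2.symm
  have hZN' : ∀ z ∈ Z', z ∈ N' := fun z hz => by rw [hZ']; exact subset_tsp _ hz
  have hUfin : Finite U := by
    refine finite_of_fibers U0 U hU0fin (fun b : U => ((
      fun zq : Z' × (E ⧸ J1) => (⟨(zq.1 : E) * o1 zq.2 * b,
        hNU _ (N.mul_mem_right _ (hZN' _ zq.1.2).1) b b.2⟩ : D),
      fun zq : Z' × (E ⧸ J2) => (⟨(b : E) * (o2 zq.2 * zq.1),
        hUN _ (N.mul_mem_left _ (hZN' _ zq.1.2).1) b b.2⟩ : D),
      fun q : E ⧸ ID => (⟨o3 q * b, hNU _ (ho3N q) b b.2⟩ : D),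
      fun q : E ⧸ ID => (⟨(b : E) * o3 q, hUN _ (ho3N q) b b.2⟩ : D)) :
        (Z' × (E ⧸ J1) → D) × (Z' × (E ⧸ J2) → D) × ((E ⧸ ID) → D) × ((E ⧸ ID) → D))) ?_
    intro x y hxy
    simp only [Prod.mk.injEq] at hxy
    obtain ⟨h1, h2, h3, h4⟩ := hxy
    set c : E := (x : E) - y with hc
    have hcU : c ∈ U := sub_mem x.2 y.2
    have h1' : ∀ z ∈ Z', ∀ q : E ⧸ J1, z * o1 q * c = 0 := by
      intro z hz q
      have := congrArg Subtype.val (congrFun h1 (⟨z, hz⟩, q))
      simp only at this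
      rw [hc, mul_sub, this, sub_self]
    have h2' : ∀ z ∈ Z', ∀ q : E ⧸ J2, c * (o2 q * z) = 0 := by
      intro z hz q
      have := congrArg Subtype.val (congrFun h2 (⟨z, hz⟩, q))
      simp only at this
      rw [hc, sub_mul, this, sub_self]
    have h3' : ∀ q : E ⧸ ID, o3 q * c = 0 := by
      intro q
      have := congrArg Subtype.val (congrFun h3 q)
      simp only at this
      rw [hc, mul_sub, this, sub_self]
    have h4' : ∀ q : E ⧸ ID, c * o3 q = 0 := by
      intro q
      have := congrArg Subtype.val (congrFun h4 q)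
      simp only at this
      rw [hc, sub_mul, this, sub_self]
    clear_value c
    -- left annihilation by `N'`
    have hl : ∀ n ∈ N', ∀ e : E, n * (e * c) = 0 := by
      intro n hn
      have hn' : n ∈ tsp (Z' : Set E) := by rw [← hZ']; exact hn
      unfold tsp at hn'
      induction hn' using Submodule.span_induction with
      | mem x hx =>
        obtain ⟨z, hz, e', rfl⟩ := hx
        intro e
        have h5 := ho1 (e' * e) z (hZN' z hz) c hcU
        rw [mul_sub, sub_mul, h1' z hz, sub_zero] at h5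
        rw [← h5]; simp only [mul_assoc]
      | zero => intro e; simp
      | add a b ha' hb' ha hb =>
        intro e
        have ha2 : a ∈ N' := by rw [hZ']; exact ha'
        have hb2 : b ∈ N' := by rw [hZ']; exact hb'
        rw [add_mul, ha ha2, hb hb2, add_zero]
      | smul r x hx' hx =>
        intro e
        have hx2 : x ∈ N' := by rw [hZ']; exact hx'
        rw [smul_eq_mul, mul_assoc, hx hx2, mul_zero]
    have hrt : ∀ n ∈ N', ∀ e : E, c * (e * n) = 0 := by
      intro n hn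
      have hn' : n ∈ tsp (Z' : Set E) := by rw [← hZ']; exact hn
      unfold tsp at hn'
      induction hn' using Submodule.span_induction with
      | mem x hx =>
        obtain ⟨z, hz, e', rfl⟩ := hx
        intro e
        have h5 := ho2 e z (hZN' z hz) c hcU
        rw [mul_sub, sub_mul, mul_assoc c (o2 _), h2' z hz, sub_zero] at h5
        rw [← mul_assoc e, ← mul_assoc c, ← mul_assoc c, h5, zero_mul]
      | zero => intro e; simp
      | add a b ha' hb' ha hb =>
        intro e
        have ha2 : a ∈ N' := by rw [hZ']; exact ha'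
        have hb2 : b ∈ N' := by rw [hZ']; exact hb'
        rw [mul_add, mul_add, ha ha2, hb hb2, add_zero]
      | smul r x hx' hx =>
        intro e
        have hx2 : x ∈ N' := by rw [hZ']; exact hx'
        rw [smul_eq_mul, ← mul_assoc e, hx hx2]
    refine ⟨hcU, fun n hn => ?_⟩
    have h5 := hl _ (ho3 n hn) 1
    have h6 := hrt _ (ho3 n hn) 1
    rw [one_mul, sub_mul, h3', sub_zero] at h5
    rw [one_mul, mul_sub, h4', sub_zero] at h6
    exact ⟨h5, h6⟩
  exact hUD (le_finIdeal U hUfin)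

end
end LRF
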