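import Pool.Agent.T2H69.LRF.Simple

/-!
# The Jacobson radical is nil
-/

namespace LRF

open Polynomial

section
variable {F E : Type*} [Field F] [Ring E] [Algebra F E]

/-- `evalW` only depends on the letters of `S`. -/
theorem evalW_congr_JN {R : Type*} [Ring R] [Algebra F R] {g : List ℕ →₀ F} {S : Finset ℕ}
    (hS : IsMultilin g S) {v v' : ℕ → R} (h : ∀ l ∈ S, v l = v' l) : evalW g v = evalW g v' := by
  unfold evalW
  refine Finsupp.sum_congr fun w hw => ?_
  have h2 := (hS w hw).2
  rw [List.map_congr_left]
  intro l hl
  exact h l (by rw [← h2]; simpa using hl)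

/-- additivity in one letter -/
theorem evalW_update_add_JN {R : Type*} [Ring R] [Algebra F R] {g : List ℕ →₀ F} {S : Finset ℕ}
    (hS : IsMultilin g S) {l : ℕ} (hl : l ∈ S) (v : ℕ → R) (p q : R) :
    evalW g (Function.update v l (p + q))
      = evalW g (Function.update v l p) + evalW g (Function.update v l q) := by
  unfold evalW
  rw [← Finsupp.sum_add]
  refine Finsupp.sum_congr fun w hw => ?_
  obtain ⟨hnd, hto⟩ := hS w hw
  rw [← smul_add]
  congr 1
  have hlw : l ∈ w := by rw [← hto] at hl; simpa using hl
  obtain ⟨w1, w2, rfl⟩ := List.append_of_mem hlw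
  have hd := List.nodup_append.mp hnd
  have h1 : l ∉ w1 := fun h => hd.2.2 l h l (by simp) rfl
  have h2 : l ∉ w2 := (List.nodup_cons.mp hd.2.1).1
  have e1 : ∀ x, w1.map (Function.update v l x) = w1.map v := fun x =>
    List.map_congr_left fun k hk => Function.update_of_ne (fun h => by subst h; exact h1 hk) _ _
  have e2 : ∀ x, w2.map (Function.update v l x) = w2.map v := fun x =>
    List.map_congr_left fun k hk => Function.update_of_ne (fun h => by subst h; exact h2 hk) _ _
  simp only [List.map_append, List.map_cons, List.prod_append, List.prod_cons, e1, e2,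
    Function.update_self]
  noncomm_ring

/-- the two-sided ideal of polynomials with coefficients in `A` -/
def polyIdeal (A : Ideal E) [A.IsTwoSided] : Ideal E[X] where
  carrier := {p | ∀ n, p.coeff n ∈ A}
  add_mem' := by
    intro p q hp hq n
    rw [coeff_add]; exact add_mem (hp n) (hq n)
  zero_mem' := by intro n; simp
  smul_mem' := by
    intro c p hp n
    rw [smul_eq_mul, coeff_mul]
    exact sum_mem fun x _ => A.mul_mem_left _ (hp _)

instance (A : Ideal E) [A.IsTwoSided] : (polyIdeal A).IsTwoSided := ⟨by
  intro p c hp n
  rw [coeff_mul]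
  exact sum_mem fun x _ => A.mul_mem_right _ (hp _)⟩

theorem holdsOn_polyIdeal (A : Ideal E) [A.IsTwoSided] (g : List ℕ →₀ F) (S : Finset ℕ)
    (hS : IsMultilin g S) (hgA : HoldsOn g (A : Set E)) :
    HoldsOn g (polyIdeal A : Set E[X]) := by
  classical
  have key : ∀ T : Finset ℕ, T ⊆ S → ∀ v : ℕ → E[X], (∀ l, v l ∈ polyIdeal A) →
      (∀ l ∈ S, l ∉ T → ∃ k a, a ∈ A ∧ v l = monomial k a) → evalW g v = 0 := by
    intro T
    induction T using Finset.induction_on with
    | empty =>
      intro _ v _ hmon
      have h1 : ∀ l, ∃ k a, a ∈ A ∧ (l ∈ S → v l = monomial k a) := by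
        intro l
        by_cases hl : l ∈ S
        · obtain ⟨k, a, ha, h⟩ := hmon l hl (by simp)
          exact ⟨k, a, ha, fun _ => h⟩
        · exact ⟨0, 0, A.zero_mem, fun h => absurd h hl⟩
      choose k a ha h using h1
      rw [evalW_congr_JN hS (v' := fun l => monomial (k l) (a l)) (fun l hl => h l hl)]
      have h2 : ∀ w : List ℕ, (w.map fun l => monomial (k l) (a l)).prod
          = monomial ((w.map k).sum) ((w.map a).prod) := by
        intro w
        induction w with
        | nil => simp [← C_1, ← monomial_zero_left]
        | cons l w ih =>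
          rw [List.map_cons, List.prod_cons, ih, monomial_mul_monomial]
          simp
      have h3 : evalW g (fun l => monomial (k l) (a l))
          = monomial (∑ l ∈ S, k l) (evalW g a) := by
        unfold evalW
        rw [Finsupp.sum, Finsupp.sum, map_sum]
        refine Finset.sum_congr rfl fun w hw => ?_
        obtain ⟨hnd, hto⟩ := hS w hw
        rw [h2, ← hto, List.sum_toFinset k hnd, smul_monomial]
      rw [h3, hgA a ha, map_zero]
    | insert l T hlT ih =>
      intro hTS v hv hmon
      have hlS : l ∈ S := hTS (Finset.mem_insert_self _ _)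
      have hTS' : T ⊆ S := (Finset.subset_insert _ _).trans hTS
      -- additivity in the letter `l`
      have h1 : ∀ p : E[X], p ∈ polyIdeal A → evalW g (Function.update v l p) = 0 := by
        intro p hp
        have h2 : ∀ s : Finset ℕ, evalW g (Function.update v l
            (∑ n ∈ s, monomial n (p.coeff n))) = 0 := by
          intro s
          induction s using Finset.induction_on with
          | empty =>
            have := evalW_update_add_JN hS hlS v (0 : E[X]) 0
            simp only [add_zero] at this
            rw [Finset.sum_empty]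
            exact left_eq_add.mp this
          | insert n s hns ihs =>
            rw [Finset.sum_insert hns, evalW_update_add_JN hS hlS, ihs, add_zero]
            refine ih hTS' _ ?_ ?_
            · intro l'
              by_cases h : l' = l
              · subst h
                rw [Function.update_self]
                intro m
                rw [coeff_monomial]
                split_ifs
                · exact hp n
                · exact A.zero_mem
              · rw [Function.update_of_ne h]; exact hv l'
            · intro l' hl' hl'T
              by_cases h : l' = l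
              · subst h
                rw [Function.update_self]
                exact ⟨n, p.coeff n, hp n, rfl⟩
              · rw [Function.update_of_ne h]
                exact hmon l' hl' (by simp [h, hl'T])
        have h3 := h2 p.support
        rwa [← p.as_sum_support] at h3
      have := h1 (v l) (hv l)
      rwa [Function.update_eq_self] at this
  intro v hv
  exact key S subset_rfl v hv (fun l hl hl' => absurd hl hl')

theorem finiteType_polynomial (hE : Algebra.FiniteType F E) : Algebra.FiniteType F E[X] := by
  classical
  obtain ⟨s, hs⟩ := hE.out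
  refine ⟨⟨insert X (s.image (C : E → E[X])), ?_⟩⟩
  rw [eq_top_iff]
  rintro p -
  have hC : ∀ e : E, C e ∈ Algebra.adjoin F
      ((insert X (s.image (C : E → E[X])) : Finset E[X]) : Set E[X]) := by
    intro e
    have he : e ∈ Algebra.adjoin F (s : Set E) := by rw [hs]; trivial
    induction he using Algebra.adjoin_induction with
    | mem x hx =>
      refine Algebra.subset_adjoin ?_
      simp only [Finset.coe_insert, Finset.coe_image]
      exact Or.inr ⟨x, hx, rfl⟩
    | algebraMap r =>
      have : (C (algebraMap F E r) : E[X]) = algebraMap F E[X] r := rfl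
      rw [this]; exact Subalgebra.algebraMap_mem _ _
    | add x y _ _ hx hy => rw [C_add]; exact add_mem hx hy
    | mul x y _ _ hx hy => rw [C_mul]; exact mul_mem hx hy
  induction p using Polynomial.induction_on' with
  | add p q hp hq => exact add_mem hp hq
  | monomial n a =>
    rw [← C_mul_X_pow_eq_monomial]
    refine mul_mem (hC a) (pow_mem (Algebra.subset_adjoin ?_) _)
    simp

theorem isNilpotent_of_mem_jacobson [Finite F]
    (hE : Algebra.FiniteType F E) (A : Ideal E) [A.IsTwoSided]
    (g : List ℕ →₀ F) (S : Finset ℕ) (hg : g ≠ 0) (hS : IsMultilin g S)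
    (hgA : HoldsOn g (A : Set E)) (a : E) (haA : a ∈ A) (ha : a ∈ Ring.jacobson E) :
    IsNilpotent a := by
  classical
  by_cases hinv : ∃ b : E[X], b * (1 - C a * X) = 1
  · obtain ⟨b, hb⟩ := hinv
    have hcoeff : ∀ n, b.coeff n = a ^ n := by
      intro n
      induction n with
      | zero =>
        have := congrArg (fun t : E[X] => t.coeff 0) hb
        simpa [mul_sub, ← mul_assoc] using this
      | succ n ih =>
        have := congrArg (fun t : E[X] => t.coeff (n + 1)) hb
        simp only [mul_sub, mul_one, ← mul_assoc, coeff_sub, coeff_mul_X, coeff_mul_C] at this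
        rw [coeff_one, if_neg (by omega), sub_eq_zero] at this
        rw [this, ih, pow_succ]
    refine ⟨b.natDegree + 1, ?_⟩
    rw [← hcoeff]
    exact coeff_eq_zero_of_natDegree_lt (Nat.lt_succ_self _)
  · exfalso
    have hne : Ideal.span {(1 - C a * X : E[X])} ≠ ⊤ := by
      intro h
      rw [Ideal.eq_top_iff_one, Ideal.mem_span_singleton'] at h
      exact hinv h
    obtain ⟨m, hm, hle⟩ := Ideal.exists_le_maximal _ hne
    have hsimple : IsSimpleModule E[X] (E[X] ⧸ m) := isSimpleModule_iff_isCoatom.mpr hm.out
    set s : E[X] ⧸ m := Submodule.Quotient.mk 1 with hs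
    have hs0 : s ≠ 0 := by
      rw [hs, Ne, Submodule.Quotient.mk_eq_zero]
      exact fun h => hm.ne_top ((Ideal.eq_top_iff_one _).mpr h)
    have has : (C a * X : E[X]) • s = s := by
      have h1 : (1 - C a * X : E[X]) • s = 0 := by
        rw [hs, ← Submodule.Quotient.mk_smul, smul_eq_mul, mul_one, Submodule.Quotient.mk_eq_zero]
        exact hle (Ideal.subset_span rfl)
      rw [sub_smul, one_smul, sub_eq_zero] at h1
      exact h1.symm
    have hCaX : (C a * X : E[X]) ∈ polyIdeal A := by
      intro n
      rw [← monomial_one_one_eq_X, C_mul_monomial, coeff_monomial]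
      split_ifs
      · simpa using haA
      · exact A.zero_mem
    have hfin : Finite (E[X] ⧸ m) := finite_simple (finiteType_polynomial hE) (polyIdeal A) g S
      hg hS (holdsOn_polyIdeal A g S hS hgA) ⟨_, hCaX, s, by rw [has]; exact hs0⟩
    have hsm : ∀ (e : E) (x : E[X] ⧸ m), e • x = (C e : E[X]) • x := by
      intro e x
      obtain ⟨p, rfl⟩ := Submodule.Quotient.mk_surjective m x
      rw [← Submodule.Quotient.mk_smul, ← Submodule.Quotient.mk_smul, smul_eq_mul,
        ← smul_eq_C_mul]
    set J := Ring.jacobson E with hJ
    have hX : ∀ x ∈ (J • (⊤ : Submodule E (E[X] ⧸ m))), (X : E[X]) • x ∈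
        (J • (⊤ : Submodule E (E[X] ⧸ m))) := by
      intro x hx
      refine Submodule.smul_induction_on hx ?_ ?_
      · intro j hj y _
        have : (X : E[X]) • (j • y) = j • ((X : E[X]) • y) := by
          rw [hsm, hsm, ← mul_smul, ← mul_smul, X_mul]
        rw [this]
        exact Submodule.smul_mem_smul hj Submodule.mem_top
      · intro x y hx hy
        rw [smul_add]; exact add_mem hx hy
    let M' : Submodule E[X] (E[X] ⧸ m) :=
      { carrier := {x | x ∈ (J • (⊤ : Submodule E (E[X] ⧸ m)))}
        add_mem' := fun ha hb =>
          (J • (⊤ : Submodule E (E[X] ⧸ m))).add_mem ha hb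
        zero_mem' := (J • (⊤ : Submodule E (E[X] ⧸ m))).zero_mem
        smul_mem' := by
          intro p x hx
          change p • x ∈ (J • (⊤ : Submodule E (E[X] ⧸ m)))
          have hx' : x ∈ (J • (⊤ : Submodule E (E[X] ⧸ m))) := hx
          induction p using Polynomial.induction_on' with
          | add p q hp hq => rw [add_smul]; exact add_mem hp hq
          | monomial n c =>
            rw [← C_mul_X_pow_eq_monomial]
            induction n generalizing x with
            | zero => rw [pow_zero, mul_one, ← hsm]; exact Submodule.smul_mem _ _ hx'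
            | succ n ih =>
              rw [pow_succ, ← mul_assoc, mul_smul]
              exact ih (hX x hx') (hX x hx') }
    rcases eq_bot_or_eq_top M' with h | h
    · have h0 : (a • ((X : E[X]) • s)) ∈ (J • (⊤ : Submodule E (E[X] ⧸ m))) :=
        Submodule.smul_mem_smul ha Submodule.mem_top
      have h1 : (a • ((X : E[X]) • s)) ∈ M' := h0
      rw [h, Submodule.mem_bot, hsm, ← mul_smul, has] at h1
      exact hs0 h1
    · have h1 : (⊤ : Submodule E (E[X] ⧸ m)) ≤ J • (⊤ : Submodule E (E[X] ⧸ m)) := by
        intro x _
        have h3 : x ∈ M' := by rw [h]; exact Submodule.mem_top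
        exact h3
      have hfinE : Module.Finite E (E[X] ⧸ m) := Module.Finite.of_finite
      have h2 := Submodule.FG.eq_bot_of_le_jacobson_smul (Module.Finite.fg_top) h1
      apply hs0
      have h3 : s ∈ (⊤ : Submodule E (E[X] ⧸ m)) := Submodule.mem_top
      rw [h2] at h3
      exact (Submodule.mem_bot E).mp h3

end
end LRF
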