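import Pool.Agent.T2H69.LRF.Defs

/-!
# Kernels of maps onto commutative algebras are finitely generated
-/

namespace LRF

theorem comm_mod {F E : Type*} [Field F] [Ring E] [Algebra F E] (X : Set E)
    (hX : Algebra.adjoin F X = ⊤) (N : Ideal E) [N.IsTwoSided]
    (h : ∀ x ∈ X, ∀ y ∈ X, x * y - y * x ∈ N) (a b : E) : a * b - b * a ∈ N := by
  have step1 : ∀ x ∈ X, ∀ y : E, x * y - y * x ∈ N := by
    intro x hx y
    have hy : y ∈ Algebra.adjoin F X := by rw [hX]; trivial
    induction hy using Algebra.adjoin_induction with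
    | mem y hy => exact h x hx y hy
    | algebraMap r =>
      rw [← Algebra.commutes r x, sub_self]; exact N.zero_mem
    | add y z _ _ hy hz =>
      have : x * (y + z) - (y + z) * x = (x * y - y * x) + (x * z - z * x) := by noncomm_ring
      rw [this]; exact add_mem hy hz
    | mul y z _ _ hy hz =>
      have : x * (y * z) - y * z * x = (x * y - y * x) * z + y * (x * z - z * x) := by
        noncomm_ring
      rw [this]; exact add_mem (N.mul_mem_right _ hy) (N.mul_mem_left _ hz)
  have ha : a ∈ Algebra.adjoin F X := by rw [hX]; trivial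
  induction ha using Algebra.adjoin_induction with
  | mem x hx => exact step1 x hx b
  | algebraMap r => rw [Algebra.commutes r b, sub_self]; exact N.zero_mem
  | add y z _ _ hy hz =>
    have : (y + z) * b - b * (y + z) = (y * b - b * y) + (z * b - b * z) := by noncomm_ring
    rw [this]; exact add_mem hy hz
  | mul y z _ _ hy hz =>
    have : y * z * b - b * (y * z) = y * (z * b - b * z) + (y * b - b * y) * z := by
      noncomm_ring
    rw [this]; exact add_mem (N.mul_mem_left _ hz) (N.mul_mem_right _ hy)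

theorem ker_fg {F E C : Type*} [Field F] [Ring E] [Algebra F E] [CommRing C] [Algebra F C]
    (hE : Algebra.FiniteType F E) (π : E →ₐ[F] C) (_hπ : Function.Surjective π) :
    ∃ Z : Finset E, RingHom.ker π = tsp (Z : Set E) := by
  classical
  obtain ⟨X, hX⟩ := hE.out
  let Z0 : Finset E := (X ×ˢ X).image (fun p => p.1 * p.2 - p.2 * p.1)
  set N0 : Ideal E := tsp (Z0 : Set E) with hN0
  have hN0ker : N0 ≤ RingHom.ker π := by
    refine tsp_le ?_
    intro z hz
    simp only [Z0, Finset.coe_image, Set.mem_image] at hz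
    obtain ⟨p, -, rfl⟩ := hz
    change π (p.1 * p.2 - p.2 * p.1) = 0
    rw [map_sub, map_mul, map_mul, mul_comm, sub_self]
  have hcomm : ∀ a b : E, a * b - b * a ∈ N0 := by
    refine comm_mod (X : Set E) hX N0 ?_
    intro x hx y hy
    refine subset_tsp _ ?_
    simp only [Z0, Finset.coe_image, Set.mem_image]
    exact ⟨(x, y), by simpa using ⟨hx, hy⟩, rfl⟩
  have hc : ∀ a b : E ⧸ N0, a * b = b * a := by
    intro a b
    obtain ⟨a, rfl⟩ := Ideal.Quotient.mk_surjective a
    obtain ⟨b, rfl⟩ := Ideal.Quotient.mk_surjective b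
    rw [← map_mul, ← map_mul]
    exact Ideal.Quotient.eq.mpr (hcomm a b)
  let _ : CommRing (E ⧸ N0) := { (inferInstance : Ring (E ⧸ N0)) with mul_comm := hc }
  have hft : Algebra.FiniteType F (E ⧸ N0) :=
    Algebra.FiniteType.of_surjective (Ideal.Quotient.mkₐ F N0) Ideal.Quotient.mk_surjective
  have hnoeth : IsNoetherianRing (E ⧸ N0) := Algebra.FiniteType.isNoetherianRing F _
  obtain ⟨s, hs⟩ := (IsNoetherian.noetherian
    ((RingHom.ker π).map (Ideal.Quotient.mk N0)) : Submodule.FG _)
  have hlift : ∀ b ∈ s, ∃ y ∈ RingHom.ker π, Ideal.Quotient.mk N0 y = b := by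
    intro b hb
    have : b ∈ (RingHom.ker π).map (Ideal.Quotient.mk N0) := by
      rw [← hs]; exact Submodule.subset_span hb
    exact (Ideal.mem_map_iff_of_surjective _ Ideal.Quotient.mk_surjective).mp this
  choose! g hg hg' using hlift
  refine ⟨Z0 ∪ s.image g, le_antisymm ?_ (tsp_le ?_)⟩
  · intro x hx
    have h1 : Ideal.Quotient.mk N0 x ∈ Submodule.span (E ⧸ N0) (s : Set (E ⧸ N0)) := by
      rw [hs]; exact Ideal.mem_map_of_mem _ hx
    have h2 : ∀ y ∈ Submodule.span (E ⧸ N0) (s : Set (E ⧸ N0)),
        ∃ z ∈ tsp ((Z0 ∪ s.image g : Finset E) : Set E), Ideal.Quotient.mk N0 z = y := by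
      intro y hy
      induction hy using Submodule.span_induction with
      | mem y hy =>
        refine ⟨g y, subset_tsp _ ?_, hg' y hy⟩
        simp only [Finset.coe_union, Finset.coe_image]
        exact Or.inr ⟨y, hy, rfl⟩
      | zero => exact ⟨0, zero_mem _, map_zero _⟩
      | add a b _ _ ha hb =>
        obtain ⟨a', ha', rfl⟩ := ha
        obtain ⟨b', hb', rfl⟩ := hb
        exact ⟨a' + b', add_mem ha' hb', map_add _ _ _⟩
      | smul r y _ hy =>
        obtain ⟨y', hy', rfl⟩ := hy
        obtain ⟨r, rfl⟩ := Ideal.Quotient.mk_surjective r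
        exact ⟨r * y', Ideal.mul_mem_left _ _ hy', map_mul _ _ _⟩
    obtain ⟨z, hz, hzx⟩ := h2 _ h1
    have h3 : x - z ∈ N0 := Ideal.Quotient.eq.mp hzx.symm
    have h4 : x - z ∈ tsp ((Z0 ∪ s.image g : Finset E) : Set E) := by
      refine (tsp_le (Z := (Z0 : Set E)) ?_) h3
      intro y hy
      refine subset_tsp _ ?_
      rw [Finset.coe_union]; exact Or.inl hy
    have := add_mem h4 hz
    simpa using this
  · intro x hx
    simp only [Finset.coe_union, Finset.coe_image] at hx
    rcases hx with hx | ⟨b, hb, rfl⟩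
    · exact hN0ker (subset_tsp _ hx)
    · exact hg b hb

end LRF
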