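import Mathlib
import Pool.Agent.T2H69.LRF.Defs

/-!
# A nonzero identity implies a nonzero multilinear identity
-/

namespace LRF

open Finset

universe u

/-- The lists with entries in `R` which are mapped to `w` by `ι`. -/
def lifts (ι : ℕ → ℕ) (R : Finset ℕ) : List ℕ → Finset (List ℕ)
  | [] => {[]}
  | i :: w => ((R.filter (fun k => ι k = i)) ×ˢ lifts ι R w).image (fun p => p.1 :: p.2)

theorem mem_lifts {ι : ℕ → ℕ} {R : Finset ℕ} : ∀ {w v : List ℕ},
    v ∈ lifts ι R w ↔ v.map ι = w ∧ ∀ k ∈ v, k ∈ R := by
  intro w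
  induction w with
  | nil =>
    intro v
    simp only [lifts, mem_singleton, List.map_eq_nil_iff]
    constructor
    · rintro rfl
      simp
    · rintro ⟨h, -⟩
      exact h
  | cons i w ih =>
    intro v
    simp only [lifts, mem_image, mem_product, mem_filter, Prod.exists]
    constructor
    · rintro ⟨k, v', ⟨⟨hk, hi⟩, hv'⟩, rfl⟩
      obtain ⟨h1, h2⟩ := ih.mp hv'
      refine ⟨by rw [List.map_cons, hi, h1], ?_⟩
      intro l hl
      rcases List.mem_cons.mp hl with rfl | hl
      · exact hk
      · exact h2 l hl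
    · rintro ⟨h1, h2⟩
      cases v with
      | nil => simp at h1
      | cons k v' =>
        rw [List.map_cons, List.cons.injEq] at h1
        exact ⟨k, v', ⟨⟨h2 k (List.mem_cons_self), h1.1⟩,
          ih.mpr ⟨h1.2, fun l hl => h2 l (List.mem_cons_of_mem _ hl)⟩⟩, rfl⟩

theorem prod_expand {E : Type*} [Ring E] (ι : ℕ → ℕ) (R : Finset ℕ) (y : ℕ → E) (w : List ℕ) :
    (w.map (fun i => ∑ k ∈ R.filter (fun k => ι k = i), y k)).prod =
      ∑ v ∈ lifts ι R w, (v.map y).prod := by
  induction w with
  | nil => simp [lifts]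
  | cons i w ih =>
    rw [List.map_cons, List.prod_cons, ih, lifts, sum_image]
    · rw [sum_product, sum_mul]
      refine sum_congr rfl fun k _ => ?_
      rw [mul_sum]
      refine sum_congr rfl fun v _ => ?_
      simp
    · intro p _ q _ h
      simp only [List.cons.injEq] at h
      exact Prod.ext h.1 h.2

theorem alt_sum {E : Type*} [Ring E] (ι : ℕ → ℕ) (d : ℕ) (y : ℕ → E) (w : List ℕ) :
    ∑ S ∈ (range d).powerset, (-1 : ℤ) ^ S.card •
      (w.map (fun i => ∑ k ∈ (range d \ S).filter (fun k => ι k = i), y k)).prod =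
      ∑ v ∈ (lifts ι (range d) w).filter (fun v => v.toFinset = range d), (v.map y).prod := by
  have h1 : ∀ S ∈ (range d).powerset, (-1 : ℤ) ^ S.card •
      (w.map (fun i => ∑ k ∈ (range d \ S).filter (fun k => ι k = i), y k)).prod =
      ∑ v ∈ lifts ι (range d) w,
        (if S ⊆ range d \ v.toFinset then (-1 : ℤ) ^ S.card else 0) • (v.map y).prod := by
    intro S hS
    rw [mem_powerset] at hS
    rw [prod_expand]
    have e : lifts ι (range d \ S) w =
        (lifts ι (range d) w).filter (fun v => S ⊆ range d \ v.toFinset) := by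
      ext v
      rw [mem_filter, mem_lifts, mem_lifts]
      constructor
      · rintro ⟨h1, h2⟩
        refine ⟨⟨h1, fun k hk => (mem_sdiff.mp (h2 k hk)).1⟩, fun k hk => ?_⟩
        rw [mem_sdiff, List.mem_toFinset]
        exact ⟨hS hk, fun hv => (mem_sdiff.mp (h2 k hv)).2 hk⟩
      · rintro ⟨⟨h1, h2⟩, h3⟩
        refine ⟨h1, fun k hk => mem_sdiff.mpr ⟨h2 k hk, fun hS' => ?_⟩⟩
        have := mem_sdiff.mp (h3 hS')
        exact this.2 (List.mem_toFinset.mpr hk)
    rw [e, sum_filter, smul_sum]
    refine sum_congr rfl fun v _ => ?_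
    split_ifs <;> simp
  rw [sum_congr rfl h1, sum_comm, sum_filter]
  refine sum_congr rfl fun v hv => ?_
  rw [← sum_smul]
  have hsub : v.toFinset ⊆ range d := by
    intro k hk
    exact (mem_lifts.mp hv).2 k (List.mem_toFinset.mp hk)
  have h2 : ∑ S ∈ (range d).powerset,
      (if S ⊆ range d \ v.toFinset then (-1 : ℤ) ^ S.card else 0) =
      if v.toFinset = range d then 1 else 0 := by
    rw [← sum_filter]
    have e : (range d).powerset.filter (fun S => S ⊆ range d \ v.toFinset) =
        (range d \ v.toFinset).powerset := by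
      ext S
      rw [mem_filter, mem_powerset, mem_powerset]
      exact ⟨fun h => h.2, fun h => ⟨h.trans sdiff_subset, h⟩⟩
    rw [e, sum_powerset_neg_one_pow_card]
    congr 1
    rw [sdiff_eq_empty_iff_subset]
    exact propext ⟨fun h => subset_antisymm hsub h, fun h => h ▸ subset_rfl⟩
  rw [h2]
  split_ifs <;> simp

theorem evalW_single {F E : Type*} [Field F] [Ring E] [Algebra F E] (w : List ℕ) (c : F)
    (v : ℕ → E) : evalW (Finsupp.single w c) v = c • (w.map v).prod := by
  unfold evalW
  rw [Finsupp.sum_single_index (by simp)]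

theorem evalW_sum {F E ι : Type*} [Field F] [Ring E] [Algebra F E] (s : Finset ι)
    (f : ι → List ℕ →₀ F) (v : ℕ → E) : evalW (∑ i ∈ s, f i) v = ∑ i ∈ s, evalW (f i) v := by
  unfold evalW
  rw [Finsupp.sum_finset_sum_index (by simp) (by intro a b c; rw [add_smul])]

theorem exists_multilin {F : Type*} [Field F] (f : List ℕ →₀ F) (hf : f ≠ 0) (hf0 : f [] = 0) :
    ∃ (g : List ℕ →₀ F) (S : Finset ℕ), g ≠ 0 ∧ IsMultilin g S ∧ S.Nonempty ∧
      ∀ (E : Type u) [Ring E] [Algebra F E] (A : AddSubgroup E),
        HoldsOn f (A : Set E) → HoldsOn g (A : Set E) := by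
  classical
  have hne : f.support.Nonempty := Finsupp.support_nonempty_iff.mpr hf
  obtain ⟨w0, hw0, hmax⟩ := exists_max_image f.support List.length hne
  obtain ⟨d, hd⟩ : ∃ d, d = w0.length := ⟨_, rfl⟩
  obtain ⟨ι, hι⟩ : ∃ ι : ℕ → ℕ, ι = fun k => w0.getD k 0 := ⟨_, rfl⟩
  have hmap : (List.range d).map ι = w0 := by
    rw [hι, hd]
    apply List.ext_getElem
    · simp
    · intro i h1 h2
      simp [List.getD_eq_getElem?_getD, List.getElem?_eq_getElem h2]
  obtain ⟨g, hg⟩ : ∃ g : List ℕ →₀ F, g = ∑ w ∈ f.support,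
      ∑ v ∈ (lifts ι (range d) w).filter (fun v => v.toFinset = range d),
        Finsupp.single v (f w) := ⟨_, rfl⟩
  have hgv : ∀ v, g v = ∑ w ∈ f.support,
      ∑ v' ∈ (lifts ι (range d) w).filter (fun v => v.toFinset = range d),
        if v' = v then f w else 0 := by
    intro v
    rw [hg, Finsupp.finset_sum_apply]
    refine sum_congr rfl fun w _ => ?_
    rw [Finsupp.finset_sum_apply]
    refine sum_congr rfl fun v' _ => ?_
    rw [Finsupp.single_apply]
  have hrange : List.range d ∈ (lifts ι (range d) w0).filter (fun v => v.toFinset = range d) := by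
    rw [mem_filter, mem_lifts]
    refine ⟨⟨hmap, fun k hk => by simpa using hk⟩, ?_⟩
    ext k
    simp
  have hg0 : g (List.range d) = f w0 := by
    rw [hgv, sum_eq_single w0]
    · rw [sum_eq_single (List.range d)]
      · simp
      · intro b _ hb
        simp [hb]
      · intro h
        exact absurd hrange h
    · intro w _ hw
      refine sum_eq_zero fun v' hv' => ?_
      rw [if_neg]
      rintro rfl
      rw [mem_filter, mem_lifts] at hv'
      exact hw (hv'.1.1.symm.trans hmap)
    · intro h
      exact absurd hw0 h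
  refine ⟨g, range d, ?_, ?_, ?_, ?_⟩
  · intro h
    rw [h] at hg0
    exact (Finsupp.mem_support_iff.mp hw0) hg0.symm
  · intro v hv
    have h1 : g v ≠ 0 := Finsupp.mem_support_iff.mp hv
    rw [hgv] at h1
    obtain ⟨w, hw, h2⟩ := exists_ne_zero_of_sum_ne_zero h1
    obtain ⟨v', hv', h3⟩ := exists_ne_zero_of_sum_ne_zero h2
    have h4 : v' = v := by
      by_contra h
      exact h3 (if_neg h)
    subst h4
    rw [mem_filter, mem_lifts] at hv'
    obtain ⟨⟨h5, h6⟩, h7⟩ := hv'
    refine ⟨?_, h7⟩
    have hlen : v'.length ≤ d := by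
      have := hmax w hw
      rw [← h5, List.length_map] at this
      rw [hd]
      exact this
    have hc : v'.toFinset.card = d := by rw [h7, card_range]
    have hc2 : v'.toFinset.card ≤ v'.length := List.toFinset_card_le v'
    have h8 : v'.dedup.length = v'.length := by
      have : v'.toFinset.card = v'.dedup.length := List.card_toFinset v'
      omega
    have h9 : v'.dedup = v' := (List.dedup_sublist v').eq_of_length h8
    exact List.dedup_eq_self.mp h9
  · rw [nonempty_range_iff]
    intro h
    rw [h] at hd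
    have : w0 = [] := List.length_eq_zero_iff.mp hd.symm
    rw [this] at hw0
    exact (Finsupp.mem_support_iff.mp hw0) hf0
  · intro E _ _ A hA y hy
    have key : evalW g y = ∑ S ∈ (range d).powerset, (-1 : ℤ) ^ S.card •
        evalW f (fun i => ∑ k ∈ (range d \ S).filter (fun k => ι k = i), y k) := by
      rw [hg, evalW_sum]
      unfold evalW
      simp only [Finsupp.sum, smul_sum]
      rw [sum_comm]
      refine sum_congr rfl fun w _ => ?_
      have h := alt_sum ι d y w
      have h2 : ∑ S ∈ (range d).powerset, (-1 : ℤ) ^ S.card • f w •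
          (w.map (fun i => ∑ k ∈ (range d \ S).filter (fun k => ι k = i), y k)).prod =
          f w • ∑ S ∈ (range d).powerset, (-1 : ℤ) ^ S.card •
          (w.map (fun i => ∑ k ∈ (range d \ S).filter (fun k => ι k = i), y k)).prod := by
        rw [smul_sum]
        refine sum_congr rfl fun S _ => ?_
        rw [smul_comm]
      rw [h2, h, smul_sum]
      have h3 := evalW_sum ((lifts ι (range d) w).filter (fun v => v.toFinset = range d))
        (fun v => Finsupp.single v (f w)) y
      simp only [evalW_single] at h3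
      unfold evalW at h3
      exact h3
    rw [key]
    refine sum_eq_zero fun S _ => ?_
    rw [hA, smul_zero]
    intro l
    exact A.sum_mem fun k _ => hy k

end LRF
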