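import Pool.Agent.T2H69.LRF.Defs

/-!
# Nil ideals with a polynomial identity are locally nilpotent
-/

set_option autoImplicit false

namespace LRF

open scoped BigOperators

section stepA
variable {F : Type*} [Field F] {R : Type*} [Ring R] [Algebra F R]

/-- the left ideal `B a` -/
def mulR (B : Ideal R) (a : R) : Ideal R := Submodule.map (LinearMap.toSpanSingleton R R a) B

theorem mem_mulR {B : Ideal R} {a x : R} : x ∈ mulR B a ↔ ∃ b ∈ B, b * a = x := by
  unfold mulR
  rw [Submodule.mem_map]
  simp [LinearMap.toSpanSingleton_apply]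

theorem mulR_le {B : Ideal R} {a : R} (ha : a ∈ B) : mulR B a ≤ B := by
  intro x hx
  obtain ⟨b, hb, rfl⟩ := mem_mulR.1 hx
  exact B.mul_mem_left _ ha

theorem prod_zero_of_mem {B : Ideal R} {a : R} (haa : a * a = 0) (b : ℕ → R)
    (hb : ∀ l, b l ∈ mulR B a) (j : ℕ) (i : ℕ) (hij : i ≠ j) (w : List ℕ) (hj : j ∈ w) :
    ((i :: w).map (Function.update b j a)).prod = 0 := by
  induction w generalizing i with
  | nil => simp at hj
  | cons k w ih =>
    by_cases hk : k = j
    · subst hk
      rw [List.map_cons, List.map_cons, List.prod_cons, List.prod_cons,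
        Function.update_of_ne hij, Function.update_self, ← mul_assoc]
      obtain ⟨c, -, hc⟩ := mem_mulR.1 (hb i)
      rw [← hc, mul_assoc c, haa, mul_zero, zero_mul]
    · have hjw : j ∈ w := by
        rcases List.mem_cons.1 hj with h | h
        · exact absurd h.symm hk
        · exact h
      rw [List.map_cons, List.prod_cons, ih k hk hjw, mul_zero]

theorem stepA_two (g : List ℕ →₀ F) (S : Finset ℕ) (hS : IsMultilin g S) (j : ℕ) (hjS : j ∈ S)
    (B : Ideal R) (a : R) (haa : a * a = 0) (b : ℕ → R)
    (hb : ∀ l, b l ∈ mulR B a) (hinj : Set.InjOn (fun w : List ℕ => j :: w) ((fun w : List ℕ => j :: w) ⁻¹' (g.support : Set (List ℕ)))) :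
    evalW g (Function.update b j a) =
      a * evalW (g.comapDomain (fun w : List ℕ => j :: w) hinj) b := by
  classical
  unfold evalW Finsupp.sum
  have h1 : ∑ w ∈ (g.comapDomain (fun w : List ℕ => j :: w) hinj).support.image
      (fun w : List ℕ => j :: w), g w • (w.map (Function.update b j a)).prod =
      ∑ w ∈ g.support, g w • (w.map (Function.update b j a)).prod := by
    apply Finset.sum_subset
    · intro w hw
      rw [Finset.mem_image] at hw
      obtain ⟨w', hw', rfl⟩ := hw
      rw [Finsupp.comapDomain_support, Finset.mem_preimage] at hw'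
      exact hw'
    · intro w hw hw2
      obtain ⟨hn, hwS⟩ := hS w hw
      have hjw : j ∈ w := by rw [← List.mem_toFinset, hwS]; exact hjS
      cases w with
      | nil => simp at hjw
      | cons i w =>
        have hij : i ≠ j := by
          rintro rfl
          apply hw2
          rw [Finset.mem_image]
          refine ⟨w, ?_, rfl⟩
          rw [Finsupp.comapDomain_support, Finset.mem_preimage]
          exact hw
        have hjw2 : j ∈ w := by
          rcases List.mem_cons.1 hjw with h | h
          · exact absurd h.symm hij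
          · exact h
        rw [prod_zero_of_mem haa b hb j i hij w hjw2, smul_zero]
  rw [← h1, Finset.sum_image (fun x _ y _ h => (List.cons.inj h).2), Finset.mul_sum]
  refine Finset.sum_congr rfl (fun w hw => ?_)
  rw [Finsupp.comapDomain_support, Finset.mem_preimage] at hw
  obtain ⟨hn, -⟩ := hS _ hw
  have hjw : j ∉ w := (List.nodup_cons.1 hn).1
  rw [Finsupp.comapDomain_apply, List.map_cons, List.prod_cons, Function.update_self,
    mul_smul_comm]
  congr 3
  apply List.map_congr_left
  intro i hi
  rw [Function.update_of_ne]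
  rintro rfl
  exact hjw hi

theorem pow_three_zero {B : Ideal R} (hB : ∀ a ∈ B, a * a = 0 → ∀ b ∈ B, b * a = 0) {b : R}
    (hb : b ∈ B) (hn : IsNilpotent b) : b ^ 3 = 0 := by
  obtain ⟨n, hn⟩ := hn
  induction n with
  | zero =>
    rw [pow_zero] at hn
    rw [← mul_one (b ^ 3), hn, mul_zero]
  | succ n ih =>
    by_cases h3 : n + 1 ≤ 3
    · obtain ⟨k, hk⟩ := Nat.exists_eq_add_of_le h3
      rw [hk, pow_add, hn, zero_mul]
    · apply ih
      have h1 : b ^ (n - 1) ∈ B := by
        obtain ⟨k, hk⟩ : ∃ k, n - 1 = k + 1 := ⟨n - 2, by omega⟩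
        rw [hk, pow_succ]
        exact B.mul_mem_left _ hb
      have h2 : b ^ (n - 1) * b ^ (n - 1) = 0 := by
        rw [← pow_add]
        obtain ⟨k, hk⟩ : ∃ k, n - 1 + (n - 1) = n + 1 + k := ⟨n - 3, by omega⟩
        rw [hk, pow_add, hn, zero_mul]
      have h4 := hB _ h1 h2 b hb
      rw [← pow_succ'] at h4
      have : n - 1 + 1 = n := by omega
      rwa [this] at h4

theorem stepA (n : ℕ) : ∀ (g : List ℕ →₀ F) (S : Finset ℕ), S.card = n → g ≠ 0 →
    IsMultilin g S → ∀ B : Ideal R, B ≠ ⊥ → (∀ x ∈ B, IsNilpotent x) →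
      (∀ c ∈ B, ∀ b : ℕ → R, (∀ l, b l ∈ B) → c * evalW g b = 0) →
    ∃ V : Ideal R, V ≠ ⊥ ∧ V ≤ B ∧ ∀ x ∈ V, ∀ y ∈ V, x * y = 0 := by
  induction n with
  | zero =>
    intro g S hcard hg hS B hB hnil hid
    exfalso
    apply hB
    rw [Finset.card_eq_zero] at hcard
    subst hcard
    have hsupp : ∀ w ∈ g.support, w = [] := by
      intro w hw
      have := (hS w hw).2
      rwa [List.toFinset_eq_empty_iff] at this
    obtain ⟨w, hw⟩ := Finsupp.support_nonempty_iff.2 hg
    have hw0 := hsupp w hw
    subst hw0
    have hs : g.support = {[]} := by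
      apply Finset.Subset.antisymm
      · intro w hw
        rw [Finset.mem_singleton]
        exact hsupp w hw
      · rw [Finset.singleton_subset_iff]
        exact hw
    rw [eq_bot_iff]
    intro c hc
    have h1 := hid c hc (fun _ => 0) (fun _ => B.zero_mem)
    unfold evalW Finsupp.sum at h1
    rw [hs, Finset.sum_singleton] at h1
    simp only [List.map_nil, List.prod_nil, mul_smul_comm, mul_one] at h1
    have h2 : g [] ≠ 0 := Finsupp.mem_support_iff.1 hw
    rw [Submodule.mem_bot]
    have h3 := congrArg (fun x => (g [])⁻¹ • x) h1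
    simpa [smul_smul, inv_mul_cancel₀ h2] using h3
  | succ n ih =>
    intro g S hcard hg hS B hB hnil hid
    by_cases h1 : ∀ x ∈ B, ∀ y ∈ B, x * y = 0
    · exact ⟨B, hB, le_refl _, h1⟩
    push Not at h1
    obtain ⟨y, hy, x, hx, hyx⟩ := h1
    by_cases h2 : ∀ a ∈ B, a * a = 0 → ∀ b ∈ B, b * a = 0
    · -- every square is killed from the left
      have h3 : ∀ c ∈ B, ∀ b ∈ B, c * (b * b) = 0 := by
        intro c hc b hb
        refine h2 (b * b) (B.mul_mem_left _ hb) ?_ c hc
        have := pow_three_zero h2 hb (hnil b hb)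
        calc b * b * (b * b) = b ^ 3 * b := by noncomm_ring
          _ = 0 := by rw [this, zero_mul]
      have h4 : ∀ c ∈ B, ∀ b ∈ B, ∀ b' ∈ B, c * (b * b') = - (c * (b' * b)) := by
        intro c hc b hb b' hb'
        have e1 := h3 c hc (b + b') (B.add_mem hb hb')
        have e2 := h3 c hc b hb
        have e3 := h3 c hc b' hb'
        have e4 : c * ((b + b') * (b + b')) = c * (b * b) + c * (b * b') + c * (b' * b) +
          c * (b' * b') := by noncomm_ring
        rw [e4, e2, e3, zero_add, add_zero] at e1
        exact eq_neg_of_add_eq_zero_left e1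
      refine ⟨mulR B x, ?_, mulR_le hx, ?_⟩
      · intro h5
        apply hyx
        have : y * x ∈ mulR B x := mem_mulR.2 ⟨y, hy, rfl⟩
        rw [h5, Submodule.mem_bot] at this
        exact this
      · intro u hu v hv
        obtain ⟨c1, hc1, rfl⟩ := mem_mulR.1 hu
        obtain ⟨c2, hc2, rfl⟩ := mem_mulR.1 hv
        have e1 := h4 c1 hc1 x hx c2 hc2
        calc c1 * x * (c2 * x) = c1 * (x * c2) * x := by noncomm_ring
          _ = - (c1 * (c2 * x)) * x := by rw [e1]
          _ = - ((c1 * c2) * (x * x)) := by noncomm_ring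
          _ = 0 := by rw [h3 (c1 * c2) (B.mul_mem_left _ hc2) x hx, neg_zero]
    · push Not at h2
      obtain ⟨a, ha, haa, b, hb, hba⟩ := h2
      obtain ⟨w, hw⟩ := Finsupp.support_nonempty_iff.2 hg
      obtain ⟨hwn, hwS⟩ := hS w hw
      cases w with
      | nil =>
        exfalso
        rw [List.toFinset_nil] at hwS
        rw [← hwS] at hcard
        simp at hcard
      | cons j w' =>
        have hjS : j ∈ S := by rw [← hwS]; simp
        have hinj : Set.InjOn (fun w : List ℕ => j :: w)
            ((fun w : List ℕ => j :: w) ⁻¹' (g.support : Set (List ℕ))) :=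
          fun x _ y _ h => (List.cons.inj h).2
        have hh0 : g.comapDomain (fun w : List ℕ => j :: w) hinj ≠ 0 := by
          intro h0
          have := DFunLike.congr_fun h0 w'
          rw [Finsupp.comapDomain_apply] at this
          exact (Finsupp.mem_support_iff.1 hw) this
        have hhS : IsMultilin (g.comapDomain (fun w : List ℕ => j :: w) hinj) (S.erase j) := by
          intro w hw
          rw [Finsupp.comapDomain_support, Finset.mem_preimage] at hw
          obtain ⟨h5, h6⟩ := hS _ hw
          rw [List.nodup_cons] at h5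
          refine ⟨h5.2, ?_⟩
          rw [← h6, List.toFinset_cons, Finset.erase_insert]
          rw [List.mem_toFinset]
          exact h5.1
        obtain ⟨V, hV0, hVle, hV2⟩ := ih (g.comapDomain (fun w : List ℕ => j :: w) hinj) (S.erase j)
          (by rw [Finset.card_erase_of_mem hjS, hcard]; rfl) hh0 hhS (mulR B a)
          (by
            intro h5
            apply hba
            have : b * a ∈ mulR B a := mem_mulR.2 ⟨b, hb, rfl⟩
            rw [h5, Submodule.mem_bot] at this
            exact this)
          (fun x hx => hnil x (mulR_le ha hx))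
          (by
            intro c' hc' b' hb'
            obtain ⟨c, hc, rfl⟩ := mem_mulR.1 hc'
            rw [mul_assoc, ← stepA_two g S hS j hjS B a haa b' hb' hinj]
            refine hid c hc _ (fun l => ?_)
            by_cases hl : l = j
            · rw [hl, Function.update_self]; exact ha
            · rw [Function.update_of_ne hl]; exact mulR_le ha (hb' l))
        exact ⟨V, hV0, hVle.trans (mulR_le ha), hV2⟩

end stepA

theorem evalW_map {F : Type*} [Field F] {R R' : Type*} [Ring R] [Algebra F R] [Ring R']
    [Algebra F R'] (φ : R →ₐ[F] R') (g : List ℕ →₀ F) (b : ℕ → R) :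
    φ (evalW g b) = evalW g (fun l => φ (b l)) := by
  unfold evalW Finsupp.sum
  rw [map_sum]
  refine Finset.sum_congr rfl (fun w _ => ?_)
  rw [map_smul, map_list_prod, List.map_map]
  rfl

theorem tsp_mul_zero {R : Type*} [Ring R] (V : Ideal R) (hV : ∀ x ∈ V, ∀ y ∈ V, x * y = 0) :
    ∀ x ∈ tsp (V : Set R), ∀ y ∈ tsp (V : Set R), x * y = 0 := by
  intro x hx y hy
  unfold tsp at hx hy
  induction hx using Submodule.span_induction with
  | mem x hx =>
    obtain ⟨v, hv, e, rfl⟩ := hx
    have key : ∀ s : R, v * s * y = 0 := by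
      induction hy using Submodule.span_induction with
      | mem y hy =>
        obtain ⟨v', hv', e', rfl⟩ := hy
        intro s
        calc v * s * (v' * e') = v * (s * v') * e' := by noncomm_ring
          _ = 0 := by rw [hV v hv _ (V.mul_mem_left s hv'), zero_mul]
      | zero => intro s; rw [mul_zero]
      | add y z _ _ hy hz => intro s; rw [mul_add, hy, hz, add_zero]
      | smul t y _ hy =>
        intro s
        rw [smul_eq_mul, ← mul_assoc, mul_assoc v s t]
        exact hy _
    exact key e
  | zero => rw [zero_mul]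
  | add x z _ _ hx hz => rw [add_mul, hx, hz, add_zero]
  | smul t x _ hx => rw [smul_eq_mul, mul_assoc, hx, mul_zero]

theorem locNilp_of_nil {F E : Type*} [Field F] [Ring E] [Algebra F E]
    (g : List ℕ →₀ F) (S : Finset ℕ) (hg : g ≠ 0) (hS : IsMultilin g S)
    (N : Ideal E) [N.IsTwoSided] (hN : HoldsOn g (N : Set E))
    (hnil : ∀ x ∈ N, IsNilpotent x) : LocNilp (N : Set E) := by
  classical
  intro T hTN
  by_contra hcon
  push Not at hcon
  set A := Algebra.adjoin F (T : Set E) with hA
  have hTA : ∀ t : T, (t : E) ∈ A := fun t => Algebra.subset_adjoin t.2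
  set f : T → A := fun t => ⟨t, hTA t⟩ with hf
  -- the ideal generated by `T`
  set r : Ideal A := Ideal.span (Set.range f) with hr
  have hrN : ∀ x ∈ r, (x : E) ∈ N := by
    intro x hx
    rw [hr] at hx
    induction hx using Submodule.span_induction with
    | mem x hx =>
      obtain ⟨t, rfl⟩ := hx
      exact hTN t.2
    | zero => exact N.zero_mem
    | add x y _ _ hx hy => exact N.add_mem hx hy
    | smul s x _ hx => exact N.mul_mem_left _ hx
  have hprod : ∀ l : List T, ((l.map f).prod : E) = (l.map (fun t : T => (t : E))).prod := by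
    intro l
    induction l with
    | nil => rfl
    | cons t l ih =>
      rw [List.map_cons, List.prod_cons, List.map_cons, List.prod_cons, ← ih]
      rfl
  have hrprod : ∀ l : List T, 1 ≤ l.length → (l.map f).prod ∈ r := by
    intro l
    induction l with
    | nil => intro h; simp at h
    | cons t l ih =>
      intro _
      rw [List.map_cons, List.prod_cons]
      by_cases hl : l = []
      · subst hl
        rw [List.map_nil, List.prod_nil, mul_one]
        exact Ideal.subset_span ⟨t, rfl⟩
      · exact Ideal.mul_mem_left _ _ (ih (List.length_pos_iff.2 hl))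
  -- the set of admissible ideals
  set Q : Set (Ideal A) := {P | P.IsTwoSided ∧ ∀ k : ℕ, ∃ l : List T, k ≤ l.length ∧
    (l.map f).prod ∉ P} with hQ
  have hbot : (⊥ : Ideal A) ∈ Q := by
    refine ⟨inferInstance, fun k => ?_⟩
    obtain ⟨l, hl, hkl, hl0⟩ := hcon k
    refine ⟨l.attach.map (fun x => ⟨x.1, hl x.1 x.2⟩), by simpa using hkl, ?_⟩
    rw [Submodule.mem_bot]
    intro h0
    apply hl0
    have h1 := congrArg (fun x : A => (x : E)) h0
    have h2 := hprod (l.attach.map (fun x => ⟨x.1, hl x.1 x.2⟩))
    have h3 : (l.attach.map (fun x => (⟨x.1, hl x.1 x.2⟩ : T))).map (fun t : T => (t : E)) = l := by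
      rw [List.map_map]
      exact List.attach_map_subtype_val l
    rw [h3] at h2
    exact h2.symm.trans h1
  obtain ⟨P, -, hPmax⟩ := zorn_le_nonempty₀ Q (by
    intro c hc hchain y hy
    have hdir : DirectedOn (· ≤ ·) c := hchain.directedOn
    refine ⟨sSup c, ⟨?_, ?_⟩, fun z hz => le_sSup hz⟩
    · constructor
      intro a b ha
      rw [Submodule.mem_sSup_of_directed ⟨y, hy⟩ hdir] at ha ⊢
      obtain ⟨P, hP, haP⟩ := ha
      have := (hc hP).1
      exact ⟨P, hP, Ideal.mul_mem_right _ _ haP⟩
    · intro k
      by_contra hk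
      push Not at hk
      have hfin : {l : List T | l.length = k}.Finite := List.finite_length_eq T k
      have h1 : ∀ L : Set (List T), L.Finite → L ⊆ {l : List T | l.length = k} →
          ∃ P ∈ c, ∀ l ∈ L, (l.map f).prod ∈ P := by
        intro L hL
        induction L, hL using Set.Finite.induction_on with
        | empty => intro _; exact ⟨y, hy, fun l hl => absurd hl (Set.notMem_empty _)⟩
        | @insert l L _ _ ih =>
          intro hsub
          obtain ⟨P1, hP1, h1⟩ := ih ((Set.subset_insert _ _).trans hsub)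
          have h2 := hk l (le_of_eq (hsub (Set.mem_insert _ _)).symm)
          rw [Submodule.mem_sSup_of_directed ⟨y, hy⟩ hdir] at h2
          obtain ⟨P2, hP2, h2⟩ := h2
          obtain ⟨P3, hP3, h13, h23⟩ := hdir P1 hP1 P2 hP2
          refine ⟨P3, hP3, ?_⟩
          intro l' hl'
          rcases Set.mem_insert_iff.1 hl' with h | h
          · rw [h]; exact h23 h2
          · exact h13 (h1 l' h)
      obtain ⟨P, hP, h2⟩ := h1 _ hfin (le_refl _)
      obtain ⟨hPt, h3⟩ := hc hP
      have := hPt
      obtain ⟨l, hl, h4⟩ := h3 k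
      apply h4
      rw [← List.take_append_drop k l, List.map_append, List.prod_append]
      apply Ideal.mul_mem_right
      apply h2
      rw [Set.mem_ofPred_eq, List.length_take]
      omega) ⊥ hbot
  obtain ⟨⟨hPt, hPk⟩, hPm⟩ := hPmax
  have := hPt
  -- the quotient
  set π : A →ₐ[F] (A ⧸ P) := Ideal.Quotient.mkₐ F P with hπ
  have hπs : Function.Surjective (Ideal.Quotient.mk P) := Ideal.Quotient.mk_surjective
  have hB0 : Ideal.map (Ideal.Quotient.mk P) r ≠ ⊥ := by
    intro h0
    obtain ⟨l, hl, hlP⟩ := hPk 1
    apply hlP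
    have h1 : Ideal.Quotient.mk P (l.map f).prod ∈ Ideal.map (Ideal.Quotient.mk P) r :=
      Ideal.mem_map_of_mem _ (hrprod l hl)
    rw [h0, Submodule.mem_bot, Ideal.Quotient.eq_zero_iff_mem] at h1
    exact h1
  have hBmem : ∀ x ∈ Ideal.map (Ideal.Quotient.mk P) r, ∃ y ∈ r, Ideal.Quotient.mk P y = x := by
    intro x hx
    exact (Ideal.mem_map_iff_of_surjective _ hπs).1 hx
  obtain ⟨V, hV0, hVle, hV2⟩ := stepA (F := F) S.card g S rfl hg hS
    (Ideal.map (Ideal.Quotient.mk P) r) hB0
    (by
      intro x hx
      obtain ⟨y, hy, rfl⟩ := hBmem x hx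
      obtain ⟨n, hn⟩ := hnil (y : E) (hrN y hy)
      refine ⟨n, ?_⟩
      have : y ^ n = 0 := by
        apply Subtype.ext
        simpa using hn
      rw [← map_pow, this, map_zero])
    (by
      intro c hc b hb
      choose y hy hyb using fun l => hBmem (b l) (hb l)
      have h1 : evalW g b = π (evalW g y) := by
        rw [evalW_map]
        congr 1
        funext l
        exact (hyb l).symm
      have h2 : evalW g y = 0 := by
        apply Subtype.ext
        have h3 := evalW_map A.val g y
        exact h3.trans (hN _ (fun l => hrN (y l) (hy l)))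
      rw [h1, h2, map_zero, mul_zero])
  set U : Ideal (A ⧸ P) := tsp (V : Set (A ⧸ P)) with hU
  have hUU := tsp_mul_zero V hV2
  have hPU : P ≤ Ideal.comap (Ideal.Quotient.mk P) U := by
    intro x hx
    rw [Ideal.mem_comap, Ideal.Quotient.eq_zero_iff_mem.2 hx]
    exact U.zero_mem
  have hUt : (Ideal.comap (Ideal.Quotient.mk P) U).IsTwoSided := by
    constructor
    intro a b ha
    rw [Ideal.mem_comap] at ha ⊢
    rw [map_mul]
    exact Ideal.mul_mem_right _ _ ha
  have hnot : Ideal.comap (Ideal.Quotient.mk P) U ∉ Q := by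
    intro hmem
    have h1 := hPm hmem hPU
    apply hV0
    rw [eq_bot_iff]
    intro v hv
    obtain ⟨x, rfl⟩ := hπs v
    have h2 : x ∈ Ideal.comap (Ideal.Quotient.mk P) U := by
      rw [Ideal.mem_comap]
      exact subset_tsp _ hv
    rw [Submodule.mem_bot, Ideal.Quotient.eq_zero_iff_mem]
    exact h1 h2
  have h5 : ∃ m : ℕ, ∀ l : List T, m ≤ l.length →
      (l.map f).prod ∈ Ideal.comap (Ideal.Quotient.mk P) U := by
    by_contra h6
    push Not at h6
    exact hnot ⟨hUt, h6⟩
  obtain ⟨m, hm⟩ := h5
  obtain ⟨l, hl, hlP⟩ := hPk (m + m)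
  apply hlP
  rw [← Ideal.Quotient.eq_zero_iff_mem, ← List.take_append_drop m l, List.map_append,
    List.prod_append, map_mul]
  apply hUU
  · have := hm (l.take m) (by rw [List.length_take]; omega)
    rwa [Ideal.mem_comap] at this
  · have := hm (l.drop m) (by rw [List.length_drop]; omega)
    rwa [Ideal.mem_comap] at this

end LRF
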