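import Pool.Agent.T2H69.LRF.Defs

/-!
# Finitely generated locally nilpotent ideals of algebras with a multilinear identity (task T3)
-/

namespace LRF
namespace T3

variable {n : ℕ}

/-- `u` and `u'` first differ at a position inside both, where `u` has the larger letter. -/
def SGt (u u' : List (Fin n)) : Prop :=
  ∃ c a b s s', b < a ∧ u = c ++ a :: s ∧ u' = c ++ b :: s'

theorem SGt.append {u u' : List (Fin n)} (h : SGt u u') (x y y' : List (Fin n)) :
    SGt (x ++ u ++ y) (x ++ u' ++ y') := by
  obtain ⟨c, a, b, s, s', hab, rfl, rfl⟩ := h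
  exact ⟨x ++ c, a, b, s ++ y, s' ++ y', hab, by simp, by simp⟩

theorem SGt.lt {u u' : List (Fin n)} (h : SGt u u') : u' < u := by
  obtain ⟨c, a, b, s, s', hab, rfl, rfl⟩ := h
  exact List.Lex.append_left _ (List.Lex.rel hab) c

theorem SGt.pfx {u u' v v' : List (Fin n)} (h : SGt u u') (h1 : u <+: v) (h2 : u' <+: v') :
    SGt v v' := by
  obtain ⟨y, rfl⟩ := h1
  obtain ⟨y', rfl⟩ := h2
  simpa using h.append [] y y'

/-- words with `k` successive occurrences of `t` -/
def Occ (t : List (Fin n)) : ℕ → List (Fin n) → Prop
  | 0, _ => True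
  | k + 1, w => ∃ x y, w = x ++ (t ++ y) ∧ Occ t k y

theorem Occ.append_left {t : List (Fin n)} {k : ℕ} {w : List (Fin n)} (h : Occ t k w)
    (x : List (Fin n)) : Occ t k (x ++ w) := by
  cases k with
  | zero => trivial
  | succ k =>
    obtain ⟨x', y, rfl, hy⟩ := h
    exact ⟨x ++ x', y, by simp, hy⟩

theorem Occ.mono {t : List (Fin n)} {k l : ℕ} (hkl : k ≤ l) {w : List (Fin n)}
    (h : Occ t l w) : Occ t k w := by
  induction l generalizing k w with
  | zero =>
    obtain rfl : k = 0 := by omega
    trivial
  | succ l ih =>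
    cases k with
    | zero => trivial
    | succ k =>
      obtain ⟨x', y, rfl, hy⟩ := h
      exact ⟨x', y, rfl, ih (by omega) hy⟩

theorem occ_of_countP (t : List (Fin n)) [DecidablePred fun b : List (Fin n) => t <:+ b]
    (B : List (List (Fin n))) (a : List (Fin n)) (k : ℕ)
    (h : k ≤ B.countP (fun b => t <:+ b)) : Occ t k (B.flatten ++ a) := by
  induction B generalizing k with
  | nil =>
    obtain rfl : k = 0 := by simpa using h
    trivial
  | cons b B ih =>
    rw [List.flatten_cons, List.append_assoc]
    by_cases hb : t <:+ b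
    · rw [List.countP_cons_of_pos (by simpa using hb)] at h
      cases k with
      | zero => trivial
      | succ k =>
        obtain ⟨x, rfl⟩ := hb
        exact ⟨x, B.flatten ++ a, by simp, ih k (by omega)⟩
    · rw [List.countP_cons_of_neg (by simpa using hb)] at h
      exact (ih k h).append_left b

/-- Cutting a word with enough occurrences of `t` at prescribed suffixes of `t`. -/
theorem cut (t : List (Fin n)) (L : List (List (Fin n))) (hL : ∀ τ ∈ L, τ <:+ t)
    (w : List (Fin n)) (hw : Occ t L.length w) :
    ∃ u0 U, w = u0 ++ List.flatten U ∧ List.Forall₂ (fun τ u => τ <+: u) L U := by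
  induction L generalizing w with
  | nil => exact ⟨w, [], by simp, List.Forall₂.nil⟩
  | cons τ L ih =>
    obtain ⟨x, y, rfl, hy⟩ := hw
    obtain ⟨u0, U, rfl, hU⟩ := ih (fun τ' h => hL τ' (by simp [h])) y hy
    obtain ⟨π, rfl⟩ := hL τ (by simp)
    exact ⟨x ++ π, (τ ++ u0) :: U, by simp, List.Forall₂.cons ⟨u0, rfl⟩ hU⟩

/-- the value of a word -/
def val {E : Type*} [Ring E] (v : Fin n → E) (w : List (Fin n)) : E := (w.map v).prod

theorem val_append {E : Type*} [Ring E] (v : Fin n → E) (w w' : List (Fin n)) :
    val v (w ++ w') = val v w * val v w' := by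
  simp [val]

theorem val_flatten {E : Type*} [Ring E] (v : Fin n → E) (B : List (List (Fin n))) :
    val v B.flatten = (B.map (val v)).prod := by
  induction B with
  | nil => simp [val]
  | cons b B ih => rw [List.flatten_cons, val_append, ih]; simp

/-- A permuted concatenation is lexicographically smaller. -/
theorem perm_sgt (U : ℕ → List (Fin n)) (w0 w : List ℕ) (hnd : w0.Nodup)
    (hp : w0.Pairwise fun a b => SGt (U a) (U b)) (h : w0.Perm w) (hne : w0 ≠ w) :
    SGt ((w0.map U).flatten) ((w.map U).flatten) := by
  induction w0 generalizing w with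
  | nil => exact absurd (List.nil_perm.mp h).symm hne
  | cons a w0 ih =>
    cases w with
    | nil => exact absurd h.length_eq (by simp)
    | cons b w =>
      by_cases hab : a = b
      · subst hab
        have h' := (List.perm_cons a).mp h
        have := ih w (List.nodup_cons.mp hnd).2 (List.pairwise_cons.mp hp).2 h'
          (fun e => hne (by rw [e]))
        simpa using this.append (U a) [] []
      · have hb : b ∈ w0 := by
          have : b ∈ a :: w0 := h.mem_iff.mpr (by simp)
          rcases List.mem_cons.mp this with h1 | h1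
          · exact absurd h1.symm hab
          · exact h1
        have hs := (List.pairwise_cons.mp hp).1 b hb
        simpa using hs.append [] ((w0.map U).flatten) ((w.map U).flatten)

/-- Two lists neither of which is an initial segment of the other are strongly comparable. -/
theorem sgt_or : ∀ a b : List (Fin n), ¬ a <+: b → ¬ b <+: a → SGt a b ∨ SGt b a
  | [], b, h, _ => absurd (List.nil_prefix) h
  | a :: l, [], _, h => absurd (List.nil_prefix) h
  | a :: l, b :: m, h1, h2 => by
    by_cases hab : a = b
    · subst hab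
      rcases sgt_or l m (fun h => h1 ((List.prefix_cons_inj a).mpr h))
        (fun h => h2 ((List.prefix_cons_inj a).mpr h)) with h | h
      · left; simpa using h.append [a] [] []
      · right; simpa using h.append [a] [] []
    · rcases lt_or_gt_of_ne hab with h | h
      · right; exact ⟨[], b, a, m, l, h, by simp, by simp⟩
      · left; exact ⟨[], a, b, l, m, h, by simp, by simp⟩

/-- Tails of a word `v z` whose last letter is a `Z`-letter and the others are not. -/
theorem tails_comparable (isZ : Fin n → Prop) (v : List (Fin n)) (z : Fin n)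
    (hv : ∀ x ∈ v, ¬ isZ x) (hz : isZ z) (j j' : ℕ) (hj : j < j') (hj' : j' ≤ v.length) :
    SGt ((v ++ [z]).drop j) ((v ++ [z]).drop j') ∨
      SGt ((v ++ [z]).drop j') ((v ++ [z]).drop j) := by
  apply sgt_or
  · intro h
    have := h.length_le
    simp at this
    omega
  · intro h
    obtain ⟨y, hy⟩ := h
    have e1 : ((v ++ [z]).drop j)[v.length - j']? = ((v ++ [z]).drop j' ++ y)[v.length - j']? := by
      rw [hy]
    rw [List.getElem?_append_left (by simp; omega)] at e1
    rw [List.getElem?_drop, List.getElem?_drop] at e1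
    rw [List.getElem?_append_left (by omega)] at e1
    have e2 : (v ++ [z])[j' + (v.length - j')]? = some z := by
      have : j' + (v.length - j') = v.length := by omega
      rw [this]; simp
    rw [e2] at e1
    have hm : z ∈ v := List.mem_of_getElem? e1
    exact hv z hm hz

/-- The tails of `v z` in decreasing order. -/
theorem exists_tails (isZ : Fin n → Prop) (v : List (Fin n)) (z : Fin n)
    (hv : ∀ x ∈ v, ¬ isZ x) (hz : isZ z) :
    ∃ L : List (List (Fin n)), L.length = v.length ∧ (∀ τ ∈ L, τ <:+ v ++ [z]) ∧
      (∀ τ ∈ L, τ ≠ []) ∧ L.Pairwise SGt := by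
  classical
  let T : Finset (List (Fin n)) := (Finset.range v.length).image fun j => (v ++ [z]).drop j
  have hT : T.card = v.length := by
    rw [Finset.card_image_of_injOn, Finset.card_range]
    intro i hi j hj hij
    have h := congrArg List.length hij
    simp at h hi hj
    omega
  refine ⟨T.sort (· ≥ ·), ?_, ?_, ?_, ?_⟩
  · rw [Finset.length_sort, hT]
  · intro τ hτ
    rw [Finset.mem_sort] at hτ
    obtain ⟨j, _, rfl⟩ := Finset.mem_image.mp hτ
    exact List.drop_suffix _ _
  · intro τ hτ h0
    rw [Finset.mem_sort] at hτ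
    obtain ⟨j, hj, rfl⟩ := Finset.mem_image.mp hτ
    have := congrArg List.length h0
    simp at this hj
    omega
  · have h1 := T.sortedGT_sort
    have h2 : (T.sort (· ≥ ·)).Pairwise (· > ·) := h1.pairwise
    have h3 : ∀ τ ∈ T.sort (· ≥ ·), τ ∈ T := fun τ h => (Finset.mem_sort _).mp h
    refine List.Pairwise.imp_of_mem ?_ h2
    intro a b ha hb hab
    obtain ⟨i, hi, rfl⟩ := Finset.mem_image.mp (h3 a ha)
    obtain ⟨j, hj, rfl⟩ := Finset.mem_image.mp (h3 b hb)
    simp only [Finset.mem_range] at hi hj
    have hor : SGt ((v ++ [z]).drop i) ((v ++ [z]).drop j) ∨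
        SGt ((v ++ [z]).drop j) ((v ++ [z]).drop i) := by
      rcases lt_trichotomy i j with h | h | h
      · exact tails_comparable isZ v z hv hz i j h hj.le
      · subst h; exact absurd hab (lt_irrefl _)
      · exact (tails_comparable isZ v z hv hz j i h hi.le).symm
    rcases hor with h | h
    · exact h
    · exact absurd h.lt (not_lt.mpr hab.le)

/-- Long runs of elements with `¬ p`. -/
theorem runs {β : Type*} (p : β → Prop) [DecidablePred p] (m : ℕ) (k : ℕ) (B : List β)
    (hk : B.countP (fun b => p b) ≤ k) (h : (k + 1) * m ≤ B.length) :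
    ∃ B1 B2 B3, B = B1 ++ B2 ++ B3 ∧ B2.length = m ∧ ∀ b ∈ B2, ¬ p b := by
  induction k generalizing B with
  | zero =>
    refine ⟨[], B.take m, B.drop m, by simp, by simp; omega, ?_⟩
    intro b hb hpb
    have := List.countP_eq_zero.mp (Nat.le_zero.mp hk) b (List.mem_of_mem_take hb)
    simp [hpb] at this
  | succ k ih =>
    have h6 : (k + 1 + 1) * m = (k + 1) * m + m := by ring
    by_cases hall : ∀ b ∈ B.take m, ¬ p b
    · exact ⟨[], B.take m, B.drop m, by simp, by simp; omega, hall⟩
    · push Not at hall
      obtain ⟨b, hb, hpb⟩ := hall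
      have h1 : 0 < (B.take m).countP (fun b => p b) :=
        List.countP_pos_iff.mpr ⟨b, hb, by simpa using hpb⟩
      have h2 : (B.take m).countP (fun b => p b) + (B.drop m).countP (fun b => p b)
          ≤ k + 1 := by
        rw [← List.countP_append, List.take_append_drop]; exact hk
      obtain ⟨B1, B2, B3, e, hl, hB⟩ := ih (B.drop m) (by omega)
        (by rw [List.length_drop]; omega)
      refine ⟨B.take m ++ B1, B2, B3, ?_, hl, hB⟩
      conv_lhs => rw [← List.take_append_drop m B, e]
      simp

/-- Splitting a word into blocks `a z`. -/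
theorem exists_blocks (isZ : Fin n → Prop) [DecidablePred isZ] (w : List (Fin n)) :
    ∃ (B : List (List (Fin n))) (a : List (Fin n)), w = B.flatten ++ a ∧
      B.length = w.countP (fun x => isZ x) ∧
      ∀ b ∈ B, ∃ (a' : List (Fin n)) (z : Fin n), b = a' ++ [z] ∧ (∀ x ∈ a', ¬ isZ x) ∧ isZ z := by
  induction w with
  | nil => exact ⟨[], [], by simp, by simp, by simp⟩
  | cons x w ih =>
    obtain ⟨B, a, hw, hl, hB⟩ := ih
    by_cases hx : isZ x
    · refine ⟨[x] :: B, a, by simp [hw], ?_, ?_⟩
      · rw [List.countP_cons_of_pos (by simpa using hx), List.length_cons, hl]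
      · intro b hb
        rcases List.mem_cons.mp hb with rfl | hb
        · exact ⟨[], x, by simp, by simp, hx⟩
        · exact hB b hb
    · rw [List.countP_cons_of_neg (by simpa using hx)]
      cases B with
      | nil => exact ⟨[], x :: a, by simpa using hw, by simpa using hl, by simp⟩
      | cons b B =>
        refine ⟨(x :: b) :: B, a, by simp [hw], by simpa using hl, ?_⟩
        intro b' hb'
        rcases List.mem_cons.mp hb' with rfl | hb'
        · obtain ⟨a', z, rfl, ha', hz⟩ := hB b (by simp)
          refine ⟨x :: a', z, by simp, ?_, hz⟩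
          intro y hy
          rcases List.mem_cons.mp hy with rfl | hy
          · exact hx
          · exact ha' y hy
        · exact hB b' (by simp [hb'])

/-- Pigeonhole: some suffix of length `d + 1` of the long blocks occurs often. -/
theorem exists_type (d c : ℕ) (B : List (List (Fin n))) (T : Finset (List (Fin n)))
    (hT : ∀ t : List (Fin n), t.length = d + 1 → t ∈ T)
    (h : T.card * c < B.countP (fun b => d + 1 ≤ b.length)) :
    ∃ t ∈ T, c < B.countP (fun b => t <:+ b) := by
  by_contra hcon
  push Not at hcon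
  have h1 : B.countP (fun b => d + 1 ≤ b.length) ≤ ∑ t ∈ T, B.countP (fun b => t <:+ b) := by
    clear h hcon
    induction B with
    | nil => simp
    | cons b B ih =>
      by_cases hb : d + 1 ≤ b.length
      · rw [List.countP_cons_of_pos (by simpa using hb)]
        have h2 : ∀ t, (b :: B).countP (fun b => t <:+ b)
            = B.countP (fun b => t <:+ b) + if t <:+ b then 1 else 0 := by
          intro t
          rw [List.countP_cons]
          simp
        simp_rw [h2, Finset.sum_add_distrib]
        have h3 : b.drop (b.length - (d + 1)) ∈ T := hT _ (by simp; omega)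
        have h4 : 1 ≤ ∑ t ∈ T, (if t <:+ b then 1 else 0) := by
          have := Finset.single_le_sum (f := fun t => if t <:+ b then 1 else 0)
            (fun t _ => Nat.zero_le _) h3
          simpa [List.drop_suffix] using this
        omega
      · rw [List.countP_cons_of_neg (by simpa using hb)]
        refine ih.trans (Finset.sum_le_sum fun t _ => ?_)
        rw [List.countP_cons]
        omega
  have h2 : ∑ t ∈ T, B.countP (fun b => t <:+ b) ≤ T.card * c := by
    have := Finset.sum_le_card_nsmul T _ c hcon
    simpa using this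
  omega

section main

variable {F E : Type*} [Field F] [Ring E] [Algebra F E]

/-- Application of the multilinear identity inside a word. -/
theorem identity (v : Fin n → E) (A : Ideal E) (g : List ℕ →₀ F) (S : Finset ℕ)
    (hS : IsMultilin g S) (hgA : HoldsOn g (A : Set E)) (w0 : List ℕ) (hw0 : w0 ∈ g.support)
    (U : ℕ → List (Fin n)) (hU : ∀ l ∈ S, val v (U l) ∈ A) (x y : List (Fin n))
    (h : ∀ w ∈ g.support, w ≠ w0 → val v (x ++ (w.map U).flatten ++ y) = 0) :
    val v (x ++ (w0.map U).flatten ++ y) = 0 := by
  classical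
  have h1 := hgA (fun l => if l ∈ S then val v (U l) else 0) (fun l => by
    by_cases hl : l ∈ S
    · simpa [hl] using hU l hl
    · simp [hl])
  have h2 : ∀ w ∈ g.support, (w.map fun l => if l ∈ S then val v (U l) else 0).prod
      = val v ((w.map U).flatten) := by
    intro w hw
    rw [val_flatten, List.map_map]
    congr 1
    apply List.map_congr_left
    intro l hl
    have : l ∈ S := by rw [← (hS w hw).2]; simpa using hl
    simp [this]
  have h3 : val v x * evalW g (fun l => if l ∈ S then val v (U l) else 0) * val v y = 0 := by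
    rw [h1]; simp
  unfold evalW Finsupp.sum at h3
  rw [Finset.mul_sum, Finset.sum_mul] at h3
  rw [Finset.sum_eq_single w0] at h3
  · beta_reduce at h3
    rw [h2 w0 hw0, mul_smul_comm, smul_mul_assoc, ← val_append, ← val_append] at h3
    exact (smul_eq_zero.mp h3).resolve_left (Finsupp.mem_support_iff.mp hw0)
  · intro w hw hne
    beta_reduce
    rw [h2 w hw, mul_smul_comm, smul_mul_assoc, ← val_append, ← val_append, h w hw hne,
      smul_zero]
  · intro hn
    exact absurd hw0 hn

theorem exists_minimal_word (v : Fin n → E) (W : List (Fin n)) (hW : val v W ≠ 0) :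
    ∃ W' : List (Fin n), W'.Perm W ∧ val v W' ≠ 0 ∧
      ∀ W'' : List (Fin n), W''.Perm W → W'' < W' → val v W'' = 0 := by
  classical
  let Q : Finset (List (Fin n)) := W.permutations.toFinset.filter fun W' => val v W' ≠ 0
  have hQ : Q.Nonempty := ⟨W, by simp [Q, hW, List.mem_permutations]⟩
  obtain ⟨W', hW', hmin⟩ := Finset.exists_min_image Q id hQ
  simp only [Q, Finset.mem_filter, List.mem_toFinset, List.mem_permutations] at hW' hmin
  refine ⟨W', hW'.1, hW'.2, fun W'' hp hlt => ?_⟩
  by_contra hne
  exact absurd (hmin W'' ⟨hp, hne⟩) (not_le.mpr hlt)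

theorem val_mem (v : Fin n → E) (A : Ideal E) [A.IsTwoSided] (hv : ∀ i, v i ∈ A)
    (w : List (Fin n)) (hw : w ≠ []) : val v w ∈ A := by
  cases w with
  | nil => exact absurd rfl hw
  | cons i w =>
    have : val v (i :: w) = v i * val v w := by simp [val]
    rw [this]
    exact A.mul_mem_right _ (hv i)

/-- Words with many `Z`-letters vanish. -/
theorem word_zero (v : Fin n → E) (isZ : Fin n → Prop) [DecidablePred isZ]
    (A : Ideal E) [A.IsTwoSided] (hv : ∀ i, v i ∈ A)
    (N : Ideal E) (hvN : ∀ i, isZ i → v i ∈ N) (hN : LocNilp (N : Set E))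
    (g : List ℕ →₀ F) (S : Finset ℕ) (hg : g ≠ 0) (hS : IsMultilin g S)
    (hgA : HoldsOn g (A : Set E)) :
    ∃ l, ∀ w : List (Fin n), l ≤ w.countP (fun x => isZ x) → val v w = 0 := by
  classical
  obtain ⟨w0, hw0⟩ := Finsupp.support_nonempty_iff.mpr hg
  set d := w0.length with hd
  set T : Finset (List (Fin n)) := (List.finite_length_eq (Fin n) (d + 1)).toFinset with hTdef
  let T0 : Finset E :=
    ((List.finite_length_le (Fin n) d).toFinset.filter fun b => val v b ∈ N).image (val v)
  obtain ⟨m, hm⟩ := hN T0 (by
    intro x hx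
    simp only [T0, Finset.coe_image, Finset.coe_filter, Set.mem_image, Set.mem_ofPred_eq] at hx
    obtain ⟨b, ⟨_, hb⟩, rfl⟩ := hx
    exact hb)
  refine ⟨(T.card * d + 1) * m, fun W hW => ?_⟩
  by_contra hne
  obtain ⟨w, hp, hwne, hmin⟩ := exists_minimal_word v W hne
  rw [← hp.countP_eq] at hW
  obtain ⟨B, a, hw, hBl, hB⟩ := exists_blocks isZ w
  rw [← hBl] at hW
  apply hwne
  by_cases hlong : B.countP (fun b => d + 1 ≤ b.length) ≤ T.card * d
  · obtain ⟨B1, B2, B3, e, hl2, hB2⟩ := runs (fun b : List (Fin n) => d + 1 ≤ b.length) m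
      (T.card * d) B hlong hW
    have hz : (B2.map (val v)).prod = 0 := by
      apply hm
      · intro x hx
        obtain ⟨b, hb, rfl⟩ := List.mem_map.mp hx
        have hbB : b ∈ B := by rw [e]; simp [hb]
        obtain ⟨a', z, hbe, _, hz⟩ := hB b hbB
        simp only [T0, Finset.mem_image, Finset.mem_filter, Set.Finite.mem_toFinset,
          Set.mem_ofPred_eq]
        refine ⟨b, ⟨?_, ?_⟩, rfl⟩
        · have := hB2 b hb
          show b.length ≤ d
          omega
        · rw [hbe, val_append]
          have : val v [z] = v z := by simp [val]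
          rw [this]
          exact N.mul_mem_left _ (hvN z hz)
      · simp [hl2]
    rw [hw, val_append, val_flatten, e]
    simp [hz]
  · push Not at hlong
    obtain ⟨t, htT, htc⟩ := exists_type d d B T (by
      intro t ht
      simp only [hTdef, Set.Finite.mem_toFinset, Set.mem_ofPred_eq]
      exact ht) hlong
    have htl : t.length = d + 1 := by
      simpa only [hTdef, Set.Finite.mem_toFinset, Set.mem_ofPred_eq] using htT
    obtain ⟨b, hbB, hbt⟩ := List.countP_pos_iff.mp (lt_of_le_of_lt (Nat.zero_le _) htc)
    replace hbt : t <:+ b := by simpa using hbt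
    obtain ⟨a', z, hbe, ha', hz⟩ := hB b hbB
    obtain ⟨v', hv'⟩ : ∃ v', t = v' ++ [z] ∧ v' <:+ a' := by
      obtain ⟨x, hx⟩ := hbt
      rcases List.eq_nil_or_concat t with h0 | ⟨t', z', h0⟩
      · rw [h0] at htl; simp at htl
      · rw [h0, hbe] at hx
        rw [List.concat_eq_append, ← List.append_assoc] at hx
        have := List.append_inj' hx (by simp)
        refine ⟨t', ?_, ⟨x, this.1⟩⟩
        rw [h0, List.concat_eq_append, this.2]
    obtain ⟨rfl, hsuf⟩ := hv'
    have hv'l : v'.length = d := by simpa using htl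
    obtain ⟨L, hLl, hLs, hLne, hLp⟩ := exists_tails isZ v' z
      (fun x hx => ha' x (hsuf.mem hx)) hz
    have hocc : Occ (v' ++ [z]) L.length w := by
      rw [hw]
      exact occ_of_countP _ B a _ (by rw [hLl, hv'l]; exact htc.le)
    obtain ⟨u0, U, hwU, hLU⟩ := cut _ L hLs w hocc
    have hUl : U.length = w0.length := by rw [← hLU.length_eq, hLl, hv'l]
    have hUp : U.Pairwise SGt := by
      clear hwU hUl hocc hLs hLne hLl
      induction hLU with
      | nil => exact List.Pairwise.nil
      | @cons τ u L U h1 h2 ih =>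
        rw [List.pairwise_cons] at hLp ⊢
        refine ⟨fun u' hu' => ?_, ih hLp.2⟩
        obtain ⟨τ', hτ', h3⟩ : ∃ τ' ∈ L, τ' <+: u' := by
          obtain ⟨k, hk, hk'⟩ := List.mem_iff_getElem.mp hu'
          refine ⟨L[k]'(by rw [h2.length_eq]; exact hk), List.getElem_mem _, ?_⟩
          rw [← hk']
          exact h2.get _ _
        exact (hLp.1 τ' hτ').pfx h1 h3
    have hUne : ∀ u ∈ U, u ≠ [] := by
      intro u hu h0
      obtain ⟨k, hk, hk'⟩ := List.mem_iff_getElem.mp hu
      have hkL : k < L.length := by rw [hLU.length_eq]; exact hk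
      have h3 : L[k] <+: U[k] := hLU.get hkL hk
      rw [hk', h0] at h3
      exact hLne _ (List.getElem_mem hkL) (List.prefix_nil.mp h3)
    let Uf : ℕ → List (Fin n) := fun i => U.getD (w0.idxOf i) []
    have hnd : w0.Nodup := (hS w0 hw0).1
    have hUf : w0.map Uf = U := by
      apply List.ext_getElem
      · simp [hUl]
      · intro i h1 h2
        simp only [List.getElem_map, Uf]
        rw [List.Nodup.idxOf_getElem hnd]
        simp [List.getD, h2]
    have key := identity v A g S hS hgA w0 hw0 Uf ?_ u0 [] ?_
    · rw [hUf, List.append_nil] at key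
      rw [hwU, key]
    · intro l hl
      have hlw : l ∈ w0 := by
        rw [← (hS w0 hw0).2] at hl; simpa using hl
      apply val_mem v A hv
      apply hUne
      rw [← hUf]
      exact List.mem_map_of_mem hlw
    · intro w' hw' hne'
      have hperm : w0.Perm w' := by
        refine List.perm_of_nodup_nodup_toFinset_eq hnd (hS w' hw').1 ?_
        rw [(hS w0 hw0).2, (hS w' hw').2]
      have hs := perm_sgt Uf w0 w' hnd (by
        rw [← hUf] at hUp
        exact List.pairwise_map.mp hUp) hperm (Ne.symm hne')
      apply hmin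
      · refine List.Perm.trans ?_ hp
        rw [hwU, List.append_nil]
        refine List.Perm.append_left u0 ?_
        rw [← hUf]
        exact ((hperm.symm.map Uf).flatten)
      · have h5 := (hs.append u0 [] []).lt
        rw [hUf] at h5
        rw [hwU]
        simpa using h5

end main

end T3

theorem nilpotent_of_fg {F E : Type*} [Field F] [Ring E] [Algebra F E]
    (X : Finset E) (hX : Algebra.adjoin F (X : Set E) = ⊤)
    (A : Ideal E) [A.IsTwoSided] (hXA : (X : Set E) ⊆ A)
    (g : List ℕ →₀ F) (S : Finset ℕ) (hg : g ≠ 0) (hS : IsMultilin g S)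
    (hgA : HoldsOn g (A : Set E))
    (N : Ideal E) [N.IsTwoSided] (hNA : N ≤ A) (hN : LocNilp (N : Set E))
    (Z : Finset E) (hZ : N = tsp (Z : Set E)) : ∃ k : ℕ, N ^ k = ⊥ := by
  classical
  -- the alphabet
  obtain ⟨n, ⟨e⟩⟩ := Finite.exists_equiv_fin (X ⊕ Z)
  let v : Fin n → E := fun i => Sum.elim (fun x : X => (x : E)) (fun z : Z => (z : E)) (e.symm i)
  let isZ : Fin n → Prop := fun i => (e.symm i).isRight = true
  have hZN : (Z : Set E) ⊆ N := by rw [hZ]; exact subset_tsp _
  have hv : ∀ i, v i ∈ A := by
    intro i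
    show Sum.elim (fun x : X => (x : E)) (fun z : Z => (z : E)) (e.symm i) ∈ A
    rcases e.symm i with x | z
    · exact hXA x.2
    · exact hNA (hZN z.2)
  have hvN : ∀ i, isZ i → v i ∈ N := by
    intro i hi
    show Sum.elim (fun x : X => (x : E)) (fun z : Z => (z : E)) (e.symm i) ∈ N
    change (e.symm i).isRight = true at hi
    rcases h : e.symm i with x | z
    · rw [h] at hi; simp at hi
    · exact hZN z.2
  obtain ⟨l, hl⟩ := T3.word_zero v isZ A hv N hvN hN g S hg hS hgA
  refine ⟨l, ?_⟩
  let P : ℕ → Submodule F E := fun k =>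
    Submodule.span F {x | ∃ w : List (Fin n), k ≤ w.countP (fun i => isZ i) ∧ T3.val v w = x}
  have hPmul : ∀ a b, ∀ x ∈ P a, ∀ y ∈ P b, x * y ∈ P (a + b) := by
    intro a b x hx y hy
    have h1 : x * y ∈ P a * P b := Submodule.mul_mem_mul hx hy
    rw [Submodule.span_mul_span] at h1
    refine Submodule.span_mono ?_ h1
    rintro _ ⟨_, ⟨w, hw, rfl⟩, _, ⟨w', hw', rfl⟩, rfl⟩
    exact ⟨w ++ w', by rw [List.countP_append]; omega, T3.val_append v w w'⟩
  have hP0 : ∀ x : E, x ∈ P 0 := by
    intro x
    have hx : x ∈ Algebra.adjoin F (X : Set E) := by rw [hX]; trivial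
    induction hx using Algebra.adjoin_induction with
    | mem x hx =>
      refine Submodule.subset_span ⟨[e (Sum.inl ⟨x, hx⟩)], by simp, ?_⟩
      simp [T3.val, v]
    | algebraMap r =>
      rw [Algebra.algebraMap_eq_smul_one]
      exact Submodule.smul_mem _ _ (Submodule.subset_span ⟨[], by simp, by simp [T3.val]⟩)
    | add x y _ _ hx hy => exact add_mem hx hy
    | mul x y _ _ hx hy => exact hPmul 0 0 x hx y hy
  have hP1 : ∀ x ∈ N, x ∈ P 1 := by
    intro x hx
    rw [hZ] at hx
    unfold tsp at hx
    induction hx using Submodule.span_induction with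
    | mem x hx =>
      obtain ⟨z, hz, y, rfl⟩ := hx
      refine hPmul 1 0 z ?_ y (hP0 y)
      refine Submodule.subset_span ⟨[e (Sum.inr ⟨z, hz⟩)], ?_, ?_⟩
      · simp [isZ]
      · simp [T3.val, v]
    | zero => exact zero_mem _
    | add x y _ _ hx hy => exact add_mem hx hy
    | smul r x _ hx =>
      have := hPmul 0 1 r (hP0 r) x hx
      simpa using this
  have hPk : ∀ k, ∀ x ∈ N ^ k, x ∈ P k := by
    intro k
    induction k with
    | zero => intro x _; exact hP0 x
    | succ k ih =>
      intro x hx
      rw [Ideal.IsTwoSided.pow_succ] at hx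
      refine Submodule.smul_induction_on hx ?_ ?_
      · intro r hr y hy
        have := hPmul 1 k r (hP1 r hr) y (ih y hy)
        rw [add_comm] at this
        exact this
      · intro x y hx hy
        exact add_mem hx hy
  rw [eq_bot_iff]
  intro x hx
  have h1 := hPk l x hx
  have h2 : P l ≤ ⊥ := by
    rw [Submodule.span_le]
    rintro _ ⟨w, hw, rfl⟩
    simpa using hl w hw
  simpa using h2 h1

end LRF
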