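import Pool.Agent.T2H69.LRF.Fin
import Pool.Agent.T2H69.LRF.KerFg

/-!
# Residual finiteness of the algebras with the data `(π, I, Y)`
-/

namespace LRF

universe u

section
variable {F : Type*} {C : Type*} {E : Type u} [Field F] [CommRing C] [Algebra F C] [Ring E]
  [Algebra F E]

theorem rf_of_data [Finite F] (f : List ℕ →₀ F) (i j : ℕ) (hmid : middleL i j f ≠ 0)
    (hE : Algebra.FiniteType F E)
    (π : E →ₐ[F] C) (I : Ideal E) [I.IsTwoSided] (Y : Finset C) (hD : GenData F π I Y)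
    (hf : HoldsOn f (I : Set E)) (hIfin : Finite (E ⧸ I))
    (r : ℕ) (hr : (RingHom.ker π) ^ r = ⊥) : RF E := by
  classical
  intro a ha0
  -- a maximal two-sided ideal not containing `a`
  obtain ⟨J, -, ⟨hJt, haJ⟩, hJmax⟩ := zorn_le_nonempty₀ {J : Ideal E | J.IsTwoSided ∧ a ∉ J} (by
    intro c hc hchain y hy
    refine ⟨sSup c, ⟨?_, ?_⟩, fun z hz => le_sSup hz⟩
    · constructor
      intro x b hx
      rw [Submodule.mem_sSup_of_directed ⟨y, hy⟩ hchain.directedOn] at hx ⊢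
      obtain ⟨K, hK, hxK⟩ := hx
      have := (hc hK).1
      exact ⟨K, hK, Ideal.mul_mem_right (I := K) b hxK⟩
    · intro hx
      rw [Submodule.mem_sSup_of_directed ⟨y, hy⟩ hchain.directedOn] at hx
      obtain ⟨K, hK, hxK⟩ := hx
      exact (hc hK).2 hxK) (⊥ : Ideal E) ⟨inferInstance, by simpa using ha0⟩
  refine ⟨J, hJt, ?_, haJ⟩
  let mk : E →ₐ[F] (E ⧸ J) := Ideal.Quotient.mkₐ F J
  have hmk : Function.Surjective mk := Ideal.Quotient.mk_surjective
  have hmk0 : ∀ x, mk x = 0 ↔ x ∈ J := fun x => Ideal.Quotient.eq_zero_iff_mem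
  let J' : Ideal C := J.map (π : E →+* C)
  have hJ' : ∀ c ∈ J', ∃ x ∈ J, π x = c := fun c hc =>
    (Ideal.mem_map_iff_of_surjective (π : E →+* C) hD.surj).mp hc
  let π1 : E →ₐ[F] (C ⧸ J') := (Ideal.Quotient.mkₐ F J').comp π
  let π' : (E ⧸ J) →ₐ[F] (C ⧸ J') := Ideal.Quotient.liftₐ J π1 (fun x hx =>
    Ideal.Quotient.eq_zero_iff_mem.mpr (Ideal.mem_map_of_mem (π : E →+* C) hx))
  have hπ' : ∀ x, π' (mk x) = Ideal.Quotient.mk J' (π x) := fun x => rfl
  have hker' : ∀ x ∈ RingHom.ker π', ∃ y ∈ RingHom.ker π, mk y = x := by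
    intro x hx
    obtain ⟨y, rfl⟩ := hmk x
    have h1 : Ideal.Quotient.mk J' (π y) = 0 := hx
    obtain ⟨z, hz, hzy⟩ := hJ' _ (Ideal.Quotient.eq_zero_iff_mem.mp h1)
    refine ⟨y - z, ?_, ?_⟩
    · rw [RingHom.mem_ker, map_sub, hzy, sub_self]
    · rw [map_sub, (hmk0 z).mpr hz, sub_zero]
  let I' : Ideal (E ⧸ J) := I.map (mk : E →+* (E ⧸ J))
  have hI' : ∀ x ∈ I', ∃ y ∈ I, mk y = x := fun x hx =>
    (Ideal.mem_map_iff_of_surjective (mk : E →+* (E ⧸ J)) hmk).mp hx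
  have hI'2 : ∀ x ∈ I, mk x ∈ I' := fun x hx => Ideal.mem_map_of_mem _ hx
  have hI't : I'.IsTwoSided := ⟨by
    intro x b hx
    obtain ⟨y, hy, rfl⟩ := hI' x hx
    obtain ⟨z, rfl⟩ := hmk b
    rw [← map_mul]
    exact hI'2 _ (I.mul_mem_right _ hy)⟩
  let Y' : Finset (C ⧸ J') := Y.image (Ideal.Quotient.mkₐ F J')
  have hD' : GenData F π' I' Y' :=
    { surj := fun c => by
        obtain ⟨c, rfl⟩ := Ideal.Quotient.mk_surjective c
        obtain ⟨x, rfl⟩ := hD.surj c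
        exact ⟨mk x, hπ' x⟩
      adj := by
        have h1 := (AlgHom.map_adjoin (Ideal.Quotient.mkₐ F J') (Y : Set C))
        rw [hD.adj] at h1
        have h2 : (⊤ : Subalgebra F C).map (Ideal.Quotient.mkₐ F J') = ⊤ := by
          rw [eq_top_iff]
          rintro c -
          obtain ⟨c, rfl⟩ := Ideal.Quotient.mk_surjective c
          exact ⟨c, trivial, rfl⟩
        rw [h2] at h1
        rw [Finset.coe_image]
        exact h1.symm
      lift := fun y hy => by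
        obtain ⟨c, hc, rfl⟩ := Finset.mem_image.mp hy
        obtain ⟨x, hx, rfl⟩ := hD.lift c hc
        exact ⟨mk x, hI'2 _ hx, hπ' x⟩
      ker_le := fun x hx => by
        obtain ⟨y, hy, rfl⟩ := hker' x hx
        exact hI'2 _ (hD.ker_le hy) }
  have hf' : HoldsOn f (I' : Set (E ⧸ J)) := hf.map mk hI'
  have hE' : Algebra.FiniteType F (E ⧸ J) := by
    obtain ⟨s, hs⟩ := hE.out
    refine ⟨⟨s.image mk, ?_⟩⟩
    have h1 := (AlgHom.map_adjoin mk (s : Set E))
    rw [hs] at h1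
    have h2 : (⊤ : Subalgebra F E).map mk = ⊤ := by
      rw [eq_top_iff]
      rintro c -
      obtain ⟨c, rfl⟩ := hmk c
      exact ⟨c, trivial, rfl⟩
    rw [h2] at h1
    rw [Finset.coe_image]
    exact h1.symm
  obtain ⟨Z, hZ⟩ := ker_fg hE' π' hD'.surj
  have hr' : (RingHom.ker π') ^ r = ⊥ := by
    rw [eq_bot_iff]
    intro x hx
    obtain ⟨y, hy, rfl⟩ := pow_lift (mk : E →+* (E ⧸ J)) hmk (RingHom.ker π) _ hker' r x hx
    rw [hr, Submodule.mem_bot] at hy
    rw [hy]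
    simp
  have hTS := tsNoeth_of_nilpotent f i j hmid Y' r (E ⧸ J) π' I' hD' hf' Z hZ hr'
  have hI'fin : Finite ((E ⧸ J) ⧸ I') := by
    refine finite_quotient_of_map I' (fun x => Ideal.Quotient.mk I (Function.surjInv hmk x)) ?_
    intro x y hxy
    have h1 := hI'2 _ (Ideal.Quotient.eq.mp hxy)
    have e1 := Function.surjInv_eq hmk x
    have e2 := Function.surjInv_eq hmk y
    rw [map_sub, e1, e2] at h1
    exact h1
  refine finite_of_SI f i j hmid π' I' Y' hD' hf' hI'fin hTS r hr' (mk a) ?_ ?_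
  · rw [Ne, hmk0]; exact haJ
  · intro V hV hVbot
    by_contra haV
    apply hVbot
    have hW : (V.comap (mk : E →+* (E ⧸ J))).IsTwoSided := inferInstance
    have hJV : J ≤ V.comap (mk : E →+* (E ⧸ J)) := by
      intro x hx
      have : mk x = 0 := (hmk0 x).mpr hx
      rw [Ideal.mem_comap]
      change mk x ∈ V
      rw [this]; exact V.zero_mem
    have h1 := hJmax ⟨hW, haV⟩ hJV
    rw [eq_bot_iff]
    intro x hx
    obtain ⟨y, rfl⟩ := hmk x
    have : y ∈ J := h1 hx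
    rw [Submodule.mem_bot, hmk0]; exact this

end
end LRF
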