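import Pool.Agent.T2H69.LRF.Char

/-!
# Finiteness of the triple tensor product modulo the key relations
-/

namespace LRF

open TensorProduct MvPolynomial

theorem isIntegral_of_char' {F R D : Type*} [Field F] [CommRing R] [CommRing D] [IsDomain D]
    [Algebra F R] [Algebra F D] [Algebra R D] [IsScalarTower F R D]
    (z : Fin 3 → D) (r0 r2 : R) (h0 : algebraMap R D r0 = z 0) (h2 : algebraMap R D r2 = z 2)
    (G : MvPolynomial (Fin 3) F)
    (hG : ∃ n : ℕ, G.coeff (Finsupp.single 1 n) ≠ 0)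
    (h : ∀ q : Polynomial F, q.coeff 0 = 0 →
      MvPolynomial.aeval (fun i => Polynomial.aeval (z i) q) G = 0) :
    IsIntegral R (z 1) := by
  obtain ⟨p, hp, hp0⟩ := isIntegral_of_char z G hG h
  have hle : Algebra.adjoin F ({z 0, z 2} : Set D) ≤ (IsScalarTower.toAlgHom F R D).range := by
    refine Algebra.adjoin_le ?_
    rintro x (rfl | hx)
    · exact ⟨r0, h0⟩
    · rw [Set.mem_singleton_iff] at hx
      rw [hx]
      exact ⟨r2, h2⟩
  set q : Polynomial D := p.map (algebraMap (Algebra.adjoin F ({z 0, z 2} : Set D)) D) with hq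
  have hqm : q.Monic := hp.map _
  have hl : q ∈ Polynomial.lifts (algebraMap R D) := by
    rw [Polynomial.lifts_iff_coeff_lifts]
    intro n
    rw [hq, Polynomial.coeff_map]
    exact hle (p.coeff n).2
  obtain ⟨q', hq', -, hq'm⟩ := Polynomial.lifts_and_natDegree_eq_and_monic hl hqm
  refine ⟨q', hq'm, ?_⟩
  rw [← Polynomial.eval_map, hq', hq, Polynomial.eval_map]
  exact hp0

section
variable {F C : Type*} [Field F] [CommRing C] [Algebra F C]

variable (F) in
/-- outer left factor -/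
noncomputable def i0 : C →ₐ[F] (C ⊗[F] C) ⊗[F] C :=
  (Algebra.TensorProduct.includeLeft).comp Algebra.TensorProduct.includeLeft

variable (F) in
/-- outer right factor -/
noncomputable def i2 : C →ₐ[F] (C ⊗[F] C) ⊗[F] C :=
  (Algebra.TensorProduct.includeLeft).comp Algebra.TensorProduct.includeRight

variable (F) in
/-- middle factor -/
noncomputable def i1 : C →ₐ[F] (C ⊗[F] C) ⊗[F] C := Algebra.TensorProduct.includeRight

/-- the element `G(s⁽⁰⁾, s⁽¹⁾, s⁽²⁾)` -/
noncomputable def relEl (G : MvPolynomial (Fin 3) F) (s : C) : (C ⊗[F] C) ⊗[F] C :=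
  aeval (![i0 F s, i1 F s, i2 F s] : Fin 3 → (C ⊗[F] C) ⊗[F] C) G

/-- the ideal of relations -/
noncomputable def relIdeal (G : MvPolynomial (Fin 3) F) (S : Set C) :
    Ideal ((C ⊗[F] C) ⊗[F] C) :=
  Ideal.span (relEl G '' S)

theorem finite_quot (G : MvPolynomial (Fin 3) F)
    (hG : ∃ n : ℕ, G.coeff (Finsupp.single 1 n) ≠ 0) (S : Set C)
    (hS : ∀ s ∈ S, ∀ q : Polynomial F, q.coeff 0 = 0 → Polynomial.aeval s q ∈ S)
    (Y : Finset C) (hY : Algebra.adjoin F (Y : Set C) = ⊤) (hYS : (Y : Set C) ⊆ S) :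
    Module.Finite (C ⊗[F] C) (((C ⊗[F] C) ⊗[F] C) ⧸ relIdeal G S) := by
  set g := relIdeal G S with hg
  have hint : ∀ y ∈ Y, IsIntegral (C ⊗[F] C) (Ideal.Quotient.mk g (i1 F y)) := by
    intro y hy
    refine isIntegral_of_forall_prime (R := C ⊗[F] C) (Ideal.Quotient.mk g (i1 F y)) fun P hP => ?_
    set D := (((C ⊗[F] C) ⊗[F] C) ⧸ g) ⧸ P
    set φ : (C ⊗[F] C) ⊗[F] C →ₐ[F] D :=
      (Ideal.Quotient.mkₐ F P).comp (Ideal.Quotient.mkₐ F g) with hφ
    refine isIntegral_of_char' (F := F) (R := C ⊗[F] C) (D := D)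
      (fun i => φ ((![i0 F y, i1 F y, i2 F y] : Fin 3 → (C ⊗[F] C) ⊗[F] C) i))
      (y ⊗ₜ 1) (1 ⊗ₜ y) rfl rfl G hG fun q hq => ?_
    have h1 : relEl G (Polynomial.aeval y q) ∈ g :=
      Ideal.subset_span ⟨_, hS y (hYS hy) q hq, rfl⟩
    have h2 : φ (relEl G (Polynomial.aeval y q)) = 0 := by
      rw [hφ]
      change (Ideal.Quotient.mk P) ((Ideal.Quotient.mk g) (relEl G (Polynomial.aeval y q))) = 0
      rw [Ideal.Quotient.eq_zero_iff_mem.mpr h1, map_zero]
    rw [relEl, MvPolynomial.comp_aeval_apply] at h2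
    rw [← h2]
    congr 2
    funext k
    fin_cases k <;> simp [Polynomial.aeval_algHom_apply]
  have hfg := fg_adjoin_of_finite (R := C ⊗[F] C)
    (s := (fun y => Ideal.Quotient.mk g (i1 F y)) '' (Y : Set C)) (Y.finite_toSet.image _)
    (by rintro _ ⟨y, hy, rfl⟩; exact hint y hy)
  have htop : Algebra.adjoin (C ⊗[F] C)
      ((fun y => Ideal.Quotient.mk g (i1 F y)) '' (Y : Set C)) = ⊤ := by
    rw [eq_top_iff]
    rintro x -
    obtain ⟨x, rfl⟩ := Ideal.Quotient.mk_surjective x
    induction x using TensorProduct.induction_on with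
    | zero => rw [map_zero]; exact zero_mem _
    | add a b ha hb => rw [map_add]; exact add_mem ha hb
    | tmul r c =>
      have h1 : r ⊗ₜ[F] c = algebraMap (C ⊗[F] C) ((C ⊗[F] C) ⊗[F] C) r * i1 F c := by
        simp [i1, Algebra.TensorProduct.algebraMap_apply]
      rw [h1, map_mul]
      refine mul_mem ?_ ?_
      · exact Subalgebra.algebraMap_mem _ r
      · clear h1
        have hc : c ∈ Algebra.adjoin F (Y : Set C) := by rw [hY]; trivial
        induction hc using Algebra.adjoin_induction with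
        | mem y hy => exact Algebra.subset_adjoin ⟨y, hy, rfl⟩
        | algebraMap a =>
          have : i1 F (algebraMap F C a) = algebraMap (C ⊗[F] C) ((C ⊗[F] C) ⊗[F] C)
              (algebraMap F _ a) := by
            rw [AlgHom.commutes]; rfl
          rw [this]
          exact Subalgebra.algebraMap_mem _ _
        | add a b _ _ ha hb => rw [map_add, map_add]; exact add_mem ha hb
        | mul a b _ _ ha hb => rw [map_mul, map_mul]; exact mul_mem ha hb
  rw [htop] at hfg
  exact ⟨by simpa using hfg⟩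

end
end LRF
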