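import Pool.Agent.T2H69.LRF.RFData
import Pool.Agent.T2H69.LRF.CommIdeal
import Pool.Agent.T2H69.LRF.FgIdeal
import Pool.Agent.T2H69.LRF.Multilin
import Pool.Agent.T2H69.LRF.NilLoc
import Pool.Agent.T2H69.LRF.NilpFg
import Pool.Agent.T2H69.LRF.JacNil

/-!
# Residual finiteness for unital algebras with a finite index ideal satisfying the identity
-/

namespace LRF

universe u

theorem rf_unital {F : Type*} {E : Type u} [Field F] [Finite F] [Ring E] [Algebra F E]
    (hE : Algebra.FiniteType F E) (A : Ideal E) [A.IsTwoSided] (hAfin : Finite (E ⧸ A))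
    (f : List ℕ →₀ F) (hf0 : f [] = 0) (i j : ℕ) (hmid : middleL i j f ≠ 0)
    (hf : HoldsOn f (A : Set E)) : RF E := by
  classical
  have hfne : f ≠ 0 := by
    rintro rfl
    exact hmid (by simp [middleL])
  obtain ⟨g, S, hg, hS, -, hgf⟩ := exists_multilin.{u} f hfne hf0
  have hgA : HoldsOn g (A : Set E) := hgf E A.toAddSubgroup hf
  obtain ⟨I, hIt, hIA, hIfin, hIcomm⟩ :=
    exists_comm_ideal hE A f i j hmid hf g S hg hS hgA
  obtain ⟨X, hX⟩ := hE.out
  have hIfinF : Module.Finite F (E ⧸ I) := Module.Finite.of_finite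
  obtain ⟨Y, hYI, hIY⟩ := exists_fg_ideal X hX I
  set B : Subalgebra F E := Algebra.adjoin F (Y : Set E) with hB
  refine rf_of_subalgebra I B hIY ?_
  -- every element of `B` is a scalar plus an element of `I`
  have hBI : ∀ b ∈ B, ∃ c : F, b - algebraMap F E c ∈ I := by
    intro b hb
    induction hb using Algebra.adjoin_induction with
    | mem x hx => exact ⟨0, by simpa using hYI hx⟩
    | algebraMap c => exact ⟨c, by simp⟩
    | add x y _ _ hx hy =>
      obtain ⟨c, hc⟩ := hx
      obtain ⟨d, hd⟩ := hy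
      refine ⟨c + d, ?_⟩
      have := add_mem hc hd
      rw [map_add]
      convert this using 1
      abel
    | mul x y _ _ hx hy =>
      obtain ⟨c, hc⟩ := hx
      obtain ⟨d, hd⟩ := hy
      refine ⟨c * d, ?_⟩
      have h1 : x * y - algebraMap F E (c * d)
          = (x - algebraMap F E c) * y + algebraMap F E c * (y - algebraMap F E d) := by
        rw [map_mul]; noncomm_ring
      rw [h1]
      exact add_mem (I.mul_mem_right _ hc) (I.mul_mem_left _ hd)
  let ι : B →+* E := (B.val : B →+* E)
  let IB : Ideal B := I.comap ι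
  have hIBt : IB.IsTwoSided := inferInstance
  let NB : Ideal B := (I ⊓ Ring.jacobson E).comap ι
  have hIJt : (I ⊓ Ring.jacobson E).IsTwoSided := ⟨fun b ha =>
    ⟨I.mul_mem_right _ ha.1, (Ring.jacobson E).mul_mem_right _ ha.2⟩⟩
  have hNBt : NB.IsTwoSided := inferInstance
  have hcomm : ∀ x y : B, x * y - y * x ∈ NB := by
    intro x y
    obtain ⟨c, hc⟩ := hBI x x.2
    obtain ⟨d, hd⟩ := hBI y y.2
    have h1 : (x : E) * y - y * x = ((x : E) - algebraMap F E c) * (y - algebraMap F E d)
        - (y - algebraMap F E d) * (x - algebraMap F E c) := by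
      have e1 := Algebra.commutes c (y : E)
      have e2 := Algebra.commutes d (x : E)
      have e3 := Algebra.commutes c (algebraMap F E d)
      have h2 : ((x : E) - algebraMap F E c) * (y - algebraMap F E d)
        - (y - algebraMap F E d) * (x - algebraMap F E c)
        = (x : E) * y - y * x - (algebraMap F E c * y - y * algebraMap F E c)
          - (x * algebraMap F E d - algebraMap F E d * x)
          + (algebraMap F E c * algebraMap F E d - algebraMap F E d * algebraMap F E c) := by
        noncomm_ring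
      rw [h2, e1, e2, e3]
      simp
    change (((x * y - y * x : B) : E)) ∈ I ⊓ Ring.jacobson E
    have h3 : (((x * y - y * x : B) : E)) = (x : E) * y - y * x := rfl
    rw [h3, h1]
    exact ⟨sub_mem (I.mul_mem_left _ hd) (I.mul_mem_left _ hc), hIcomm _ hc _ hd⟩
  have hc : ∀ a b : B ⧸ NB, a * b = b * a := by
    intro a b
    obtain ⟨a, rfl⟩ := Ideal.Quotient.mk_surjective a
    obtain ⟨b, rfl⟩ := Ideal.Quotient.mk_surjective b
    rw [← map_mul, ← map_mul]
    exact Ideal.Quotient.eq.mpr (hcomm a b)
  let _ : CommRing (B ⧸ NB) := { (inferInstance : Ring (B ⧸ NB)) with mul_comm := hc }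
  let π : B →ₐ[F] (B ⧸ NB) := Ideal.Quotient.mkₐ F NB
  have hπ : Function.Surjective π := Ideal.Quotient.mk_surjective
  have hker : RingHom.ker π = NB := by
    ext x
    exact Ideal.Quotient.eq_zero_iff_mem
  -- generators of `B`
  have hYB : ∀ y ∈ Y, y ∈ B := fun y hy => Algebra.subset_adjoin hy
  let YB : Finset B := Y.attach.image (fun y => (⟨y.1, hYB _ y.2⟩ : B))
  have hYBimg : (fun x : B => (x : E)) '' (YB : Set B) = (Y : Set E) := by
    ext x
    simp [YB]
    exact fun h => hYB x h
  have hYBtop : Algebra.adjoin F (YB : Set B) = ⊤ := by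
    apply Subalgebra.map_injective (f := B.val) Subtype.val_injective
    rw [AlgHom.map_adjoin]
    have h1 : (B.val '' (YB : Set B)) = (Y : Set E) := hYBimg
    rw [h1, Algebra.map_top, Subalgebra.range_val]
  have hYBI : (YB : Set B) ⊆ IB := by
    intro x hx
    have : (x : E) ∈ (Y : Set E) := by rw [← hYBimg]; exact ⟨x, hx, rfl⟩
    exact hYI this
  have hBft : Algebra.FiniteType F B := ⟨⟨YB, hYBtop⟩⟩
  -- transfer of identities
  have htrans : ∀ (h : List ℕ →₀ F), HoldsOn h (A : Set E) → HoldsOn h (IB : Set B) := by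
    intro h hh v hv
    have h1 := evalW_mapAlg B.val h v
    have h2 : evalW h (fun l => B.val (v l)) = 0 := hh _ fun l => hIA (hv l)
    rw [h2] at h1
    exact Subtype.ext h1
  have hfB := htrans f hf
  have hgB := htrans g hgA
  have hNBle : NB ≤ IB := fun x hx => hx.1
  have hnil : ∀ x ∈ NB, IsNilpotent x := by
    intro x hx
    obtain ⟨n, hn⟩ := isNilpotent_of_mem_jacobson hE A g S hg hS hgA (x : E) (hIA hx.1) hx.2
    exact ⟨n, Subtype.ext (by simpa using hn)⟩
  have hloc : LocNilp (NB : Set B) :=
    locNilp_of_nil g S hg hS NB (fun v hv => hgB v fun l => hNBle (hv l)) hnil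
  obtain ⟨Z, hZ⟩ := ker_fg hBft π hπ
  rw [hker] at hZ
  obtain ⟨k, hk⟩ := nilpotent_of_fg YB hYBtop IB hYBI g S hg hS hgB NB hNBle hloc Z hZ
  have hD : GenData F π IB (YB.image π) :=
    { surj := hπ
      adj := by
        have h1 := (AlgHom.map_adjoin π (YB : Set B))
        rw [hYBtop] at h1
        have h2 : (⊤ : Subalgebra F B).map π = ⊤ := by
          rw [eq_top_iff]
          rintro c -
          obtain ⟨c, rfl⟩ := hπ c
          exact ⟨c, trivial, rfl⟩
        rw [h2] at h1
        rw [Finset.coe_image]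
        exact h1.symm
      lift := fun y hy => by
        obtain ⟨c, hc, rfl⟩ := Finset.mem_image.mp hy
        exact ⟨c, hYBI hc, rfl⟩
      ker_le := by rw [hker]; exact hNBle }
  have hIBfin : Finite (B ⧸ IB) := by
    refine finite_quotient_of_map IB (fun x : B => Ideal.Quotient.mk I (x : E)) ?_
    intro x y hxy
    have : ((x - y : B) : E) ∈ I := Ideal.Quotient.eq.mp hxy
    exact this
  exact rf_of_data f i j hmid hBft π IB (YB.image π) hD hfB hIBfin k (by rw [hker]; exact hk)

end LRF
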